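import Mathlib

/-!
# Positive semidefinite integral forms: lemmas of linear algebra
-/

namespace Pool.Stab

section Form

variable {K : Type*} [AddCommGroup K] (B : K →+ K →+ ℤ)

/-- The radical of a bilinear form. -/
def radical : Submodule ℤ K where
  carrier := {x | ∀ y, B x y = 0}
  add_mem' := by
    intro a b ha hb y
    simp [ha y, hb y]
  zero_mem' := by intro y; simp
  smul_mem' := by
    intro c x hx y
    simp [hx y]

variable {B}

lemma mem_radical {x : K} : x ∈ radical B ↔ ∀ y, B x y = 0 := Iff.rfl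

/-- Symmetric positive semidefinite forms. -/
structure IsPSD (B : K →+ K →+ ℤ) : Prop where
  symm : ∀ x y, B x y = B y x
  nonneg : ∀ x, 0 ≤ B x x

lemma IsPSD.expand (hB : IsPSD B) (a b : ℤ) (x y : K) :
    B (a • x + b • y) (a • x + b • y) = a ^ 2 * B x x + 2 * a * b * B x y + b ^ 2 * B y y := by
  simp only [map_add, AddMonoidHom.add_apply, map_zsmul, AddMonoidHom.coe_smul, Pi.smul_apply,
    smul_eq_mul]
  rw [hB.symm y x]
  ring

lemma IsPSD.mem_radical_of_self (hB : IsPSD B) {x : K} (hx : B x x = 0) : x ∈ radical B := by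
  intro y
  by_contra hne
  have h := hB.nonneg ((-(B y y + 1) * B x y) • x + (1 : ℤ) • y)
  rw [hB.expand, hx] at h
  have h1 : 0 < B x y ^ 2 := by positivity
  have h2 := hB.nonneg y
  nlinarith

lemma IsPSD.cauchy (hB : IsPSD B) (x y : K) : B x y ^ 2 ≤ B x x * B y y := by
  rcases (hB.nonneg y).eq_or_lt with h0 | h0
  · have := hB.mem_radical_of_self h0.symm
    have h1 : B x y = 0 := by rw [hB.symm]; exact this x
    rw [h1, ← h0]; simp
  · have h := hB.nonneg (B y y • x + (-(B x y)) • y)
    rw [hB.expand] at h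
    by_contra hcon
    push Not at hcon
    nlinarith

/-- Up to the radical there are finitely many elements of bounded norm. -/
lemma IsPSD.finite_mod_radical (hB : IsPSD B) [Module.Finite ℤ K] (N : ℤ) :
    ∃ F : Finset K, ∀ x, B x x ≤ N → ∃ f ∈ F, x - f ∈ radical B := by
  classical
  obtain ⟨G, hG⟩ := (Module.Finite.fg_top : (⊤ : Submodule ℤ K).FG)
  let M : ℤ := ∑ e ∈ G, B e e
  have hM : ∀ e ∈ G, B e e ≤ M := fun e he =>
    Finset.single_le_sum (f := fun e => B e e) (fun i _ => hB.nonneg i) he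
  let T : Set (G → ℤ) := {f | ∀ e, f e ∈ Set.Icc (-(|N| * M + 1)) (|N| * M + 1)}
  have hT : T.Finite := by
    have : T = Set.pi Set.univ (fun _ : G => Set.Icc (-(|N| * M + 1)) (|N| * M + 1)) := by
      ext f
      exact ⟨fun h e _ => h e, fun h e => h e trivial⟩
    rw [this]
    exact Set.Finite.pi (fun _ => Set.finite_Icc _ _)
  let Φ : K → (G → ℤ) := fun x e => B x e
  have hΦ : ∀ x, B x x ≤ N → Φ x ∈ T := by
    intro x hx e
    have h1 := hB.cauchy x e
    have h2 := hM e e.2
    have h3 := hB.nonneg x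
    have h4 := hB.nonneg (e : K)
    have h5 : B x e ^ 2 ≤ |N| * M := by
      have h6 : B x x ≤ |N| := hx.trans (le_abs_self N)
      calc B x e ^ 2 ≤ B x x * B e e := h1
        _ ≤ |N| * M := mul_le_mul h6 h2 h4 (abs_nonneg N)
    show B x e ∈ Set.Icc _ _
    constructor <;> nlinarith [sq_nonneg (B x e + 1), sq_nonneg (B x e - 1)]
  have hI : (Φ '' {x | B x x ≤ N}).Finite := by
    refine hT.subset ?_
    rintro _ ⟨x, hx, rfl⟩
    exact hΦ x hx
  have hex : ∀ f : G → ℤ, ∃ x : K, (∃ y, B y y ≤ N ∧ Φ y = f) → Φ x = f := by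
    intro f
    by_cases h : ∃ y, B y y ≤ N ∧ Φ y = f
    · obtain ⟨y, hy, hf⟩ := h
      exact ⟨y, fun _ => hf⟩
    · exact ⟨0, fun h' => absurd h' h⟩
  choose r hr using hex
  refine ⟨hI.toFinset.image r, ?_⟩
  intro x hx
  refine ⟨r (Φ x), Finset.mem_image.2 ⟨Φ x, hI.mem_toFinset.2 ⟨x, hx, rfl⟩, rfl⟩, ?_⟩
  have h1 := hr (Φ x) ⟨x, hx, rfl⟩
  intro y
  have hy : y ∈ Submodule.span ℤ (G : Set K) := by rw [hG]; trivial
  induction hy using Submodule.span_induction with
  | mem e he =>
    have := congrFun h1 ⟨e, he⟩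
    have h2 : B (r (Φ x)) e = B x e := this
    simp [h2]
  | zero => simp
  | add a b _ _ ha hb => simp only [map_add, ha, hb, add_zero]
  | smul c a _ ha => simp only [map_zsmul, ha, smul_zero]

end Form

section Comb

variable {K : Type*} [AddCommGroup K] {B : K →+ K →+ ℤ}

/-- Nonnegative combinations. -/
noncomputable def comb : (K →₀ ℕ) →ₗ[ℕ] K := Finsupp.linearCombination ℕ (id : K → K)

lemma comb_apply (c : K →₀ ℕ) : comb c = c.sum fun v n => n • v := by
  rw [comb, Finsupp.linearCombination_apply]; rfl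

lemma comb_single (v : K) (n : ℕ) : comb (Finsupp.single v n) = n • v := by
  simp [comb]

lemma form_comb (c : K →₀ ℕ) (w : K) : B (comb c) w = c.sum fun v n => (n : ℤ) * B v w := by
  rw [comb_apply, Finsupp.sum, Finsupp.sum, map_sum, AddMonoidHom.finsetSum_apply]
  refine Finset.sum_congr rfl ?_
  intro v _
  simp

/-- Nonpositive off-diagonal products on a set `R`. -/
def OffDiag (B : K →+ K →+ ℤ) (R : Set K) : Prop := ∀ v ∈ R, ∀ w ∈ R, v ≠ w → B v w ≤ 0

lemma comb_disjoint {R : Set K} (hR : OffDiag B R) (hB : IsPSD B) {c d : K →₀ ℕ}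
    (hc : ∀ v ∈ c.support, v ∈ R) (hd : ∀ v ∈ d.support, v ∈ R)
    (hcd : ∀ v, v ∈ c.support → v ∉ d.support) : B (comb c) (comb d) ≤ 0 := by
  rw [form_comb]
  refine Finset.sum_nonpos ?_
  intro v hv
  have : B v (comb d) ≤ 0 := by
    rw [hB.symm, form_comb]
    refine Finset.sum_nonpos ?_
    intro w hw
    have hne : w ≠ v := by
      rintro rfl
      exact hcd _ hv hw
    have h1 := hR w (hd w hw) v (hc v hv) hne
    have h2 : (0 : ℤ) ≤ d w := by positivity
    exact mul_nonpos_of_nonneg_of_nonpos h2 h1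
  have h2 : (0 : ℤ) ≤ c v := by positivity
  exact mul_nonpos_of_nonneg_of_nonpos h2 this

lemma comb_mem_radical {R : Set K} (hR : OffDiag B R) (hB : IsPSD B) {c d : K →₀ ℕ}
    (hc : ∀ v ∈ c.support, v ∈ R) (hd : ∀ v ∈ d.support, v ∈ R)
    (hcd : ∀ v, v ∈ c.support → v ∉ d.support)
    (hx : B (comb c - comb d) (comb c - comb d) = 0) :
    comb c ∈ radical B ∧ comb d ∈ radical B := by
  have h := comb_disjoint hR hB hc hd hcd
  have h1 := hB.nonneg (comb c)
  have h2 := hB.nonneg (comb d)
  have h3 : B (comb c - comb d) (comb c - comb d) = B (comb c) (comb c) -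
      2 * B (comb c) (comb d) + B (comb d) (comb d) := by
    simp only [map_sub, AddMonoidHom.sub_apply]
    rw [hB.symm (comb d) (comb c)]; ring
  rw [h3] at hx
  exact ⟨hB.mem_radical_of_self (by linarith), hB.mem_radical_of_self (by linarith)⟩

lemma exists_comb {R : Set K} {x : K} (hx : x ∈ AddSubgroup.closure R) :
    ∃ c d : K →₀ ℕ, (∀ v ∈ c.support, v ∈ R) ∧ (∀ v ∈ d.support, v ∈ R) ∧
      (∀ v, v ∈ c.support → v ∉ d.support) ∧ x = comb c - comb d := by
  classical
  have h1 : ∃ c d : K →₀ ℕ, (∀ v ∈ c.support, v ∈ R) ∧ (∀ v ∈ d.support, v ∈ R) ∧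
      x = comb c - comb d := by
    induction hx using AddSubgroup.closure_induction with
    | mem v hv =>
      refine ⟨Finsupp.single v 1, 0, ?_, by simp, by simp [comb_single]⟩
      intro w hw
      have := Finsupp.support_single_subset hw
      simp only [Finset.mem_singleton] at this
      rwa [this]
    | zero => exact ⟨0, 0, by simp, by simp, by simp⟩
    | add a b _ _ ha hb =>
      obtain ⟨c, d, hc, hd, h⟩ := ha
      obtain ⟨c', d', hc', hd', h'⟩ := hb
      refine ⟨c + c', d + d', ?_, ?_, by rw [h, h', map_add, map_add]; abel⟩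
      · intro v hv
        rcases Finset.mem_union.1 (Finsupp.support_add hv) with h | h
        · exact hc v h
        · exact hc' v h
      · intro v hv
        rcases Finset.mem_union.1 (Finsupp.support_add hv) with h | h
        · exact hd v h
        · exact hd' v h
    | neg a _ ha =>
      obtain ⟨c, d, hc, hd, h⟩ := ha
      exact ⟨d, c, hd, hc, by rw [h]; abel⟩
  obtain ⟨c, d, hc, hd, h⟩ := h1
  have e1 : c - c ⊓ d + c ⊓ d = c := tsub_add_cancel_of_le inf_le_left
  have e2 : d - c ⊓ d + c ⊓ d = d := tsub_add_cancel_of_le inf_le_right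
  refine ⟨c - c ⊓ d, d - c ⊓ d, ?_, ?_, ?_, ?_⟩
  · intro v hv
    refine hc v ?_
    rw [Finsupp.mem_support_iff] at hv ⊢
    intro h0
    apply hv
    simp [h0]
  · intro v hv
    refine hd v ?_
    rw [Finsupp.mem_support_iff] at hv ⊢
    intro h0
    apply hv
    simp [h0]
  · intro v hv hv'
    rw [Finsupp.mem_support_iff] at hv hv'
    simp only [Finsupp.coe_tsub, Pi.sub_apply, Finsupp.inf_apply, ne_eq] at hv hv'
    rcases le_total (c v) (d v) with h | h
    · apply hv
      rw [inf_eq_left.2 h]; simp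
    · apply hv'
      rw [inf_eq_right.2 h]; simp
  · have h1 : comb (c - c ⊓ d) + comb (c ⊓ d) = comb c := by rw [← map_add, e1]
    have h2 : comb (d - c ⊓ d) + comb (c ⊓ d) = comb d := by rw [← map_add, e2]
    rw [h, ← h1, ← h2]
    abel

/-- The rank lemma. -/
lemma rank_lemma {R : Set K} (hR : OffDiag B R) (hB : IsPSD B)
    (hgen : AddSubgroup.closure R = ⊤)
    (hconn : ∀ J ⊆ R, J.Nonempty → (∀ v ∈ J, ∀ w ∈ R, w ∉ J → B v w = 0) → J = R) :
    ∀ x ∈ radical B, ∀ y ∈ radical B, ∃ n m : ℤ, (n ≠ 0 ∨ m ≠ 0) ∧ n • x = m • y := by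
  classical
  -- nonneg combinations in the radical have full support
  have hfull : ∀ c : K →₀ ℕ, (∀ v ∈ c.support, v ∈ R) → comb c ∈ radical B → c ≠ 0 →
      (c.support : Set K) = R := by
    intro c hc hrad hne
    refine hconn _ hc (by simpa using hne) ?_
    intro v hv w hw hwJ
    have h0 : B (comb c) w = 0 := hrad w
    rw [form_comb] at h0
    have hterm : ∀ u ∈ c.support, (c u : ℤ) * B u w ≤ 0 := by
      intro u hu
      have hne' : u ≠ w := by rintro rfl; exact hwJ hu
      exact mul_nonpos_of_nonneg_of_nonpos (by positivity) (hR u (hc u hu) w hw hne')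
    have h1 := (Finset.sum_eq_zero_iff_of_nonpos hterm).1 h0 v hv
    rcases mul_eq_zero.1 h1 with h | h
    · exfalso
      have : c v ≠ 0 := Finsupp.mem_support_iff.1 hv
      exact this (by exact_mod_cast h)
    · exact h
  have hprop : ∀ c d : K →₀ ℕ, (∀ v ∈ c.support, v ∈ R) → comb c ∈ radical B → c ≠ 0 →
      (∀ v ∈ d.support, v ∈ R) → comb d ∈ radical B → d ≠ 0 →
      ∃ m m' : ℕ, 0 < m ∧ 0 < m' ∧ m' • comb c = m • comb d := by
    intro c d hc hcr hc0 hd hdr hd0
    have hcs := hfull c hc hcr hc0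
    have hds := hfull d hd hdr hd0
    have hne : c.support.Nonempty := Finsupp.support_nonempty_iff.2 hc0
    obtain ⟨v0, hv0, hmin⟩ := Finset.exists_min_image c.support
      (fun v => (c v : ℚ) / (d v : ℚ)) hne
    have hdpos : ∀ v ∈ c.support, 0 < d v := by
      intro v hv
      have : v ∈ (d.support : Set K) := by rw [hds, ← hcs]; exact hv
      exact Nat.pos_of_ne_zero (Finsupp.mem_support_iff.1 this)
    have hcpos : ∀ v ∈ c.support, 0 < c v := fun v hv =>
      Nat.pos_of_ne_zero (Finsupp.mem_support_iff.1 hv)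
    have hle : ∀ v, c v0 * d v ≤ d v0 * c v := by
      intro v
      by_cases hv : v ∈ c.support
      · have h1 := hmin v hv
        have h2 : (0 : ℚ) < d v0 := by exact_mod_cast hdpos v0 hv0
        have h3 : (0 : ℚ) < d v := by exact_mod_cast hdpos v hv
        rw [div_le_div_iff₀ h2 h3] at h1
        have h4 : (c v0 : ℚ) * d v ≤ d v0 * c v := by linarith
        exact_mod_cast h4
      · have : v ∉ (d.support : Set K) := by rw [hds, ← hcs]; exact hv
        have h0 : d v = 0 := by
          rw [Finset.mem_coe, Finsupp.mem_support_iff, not_not] at this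
          exact this
        simp [h0]
    have hle' : c v0 • d ≤ d v0 • c := by
      intro v
      simpa using hle v
    set e : K →₀ ℕ := d v0 • c - c v0 • d with he
    have hsum : e + c v0 • d = d v0 • c := tsub_add_cancel_of_le hle'
    have hcomb : comb e + c v0 • comb d = d v0 • comb c := by
      rw [← map_nsmul, ← map_nsmul, ← map_add, hsum]
    have hev0 : e v0 = 0 := by
      simp [he, mul_comm]
    have herad : comb e ∈ radical B := by
      have h1 : comb e = d v0 • comb c - c v0 • comb d := by rw [← hcomb]; abel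
      rw [h1]
      exact Submodule.sub_mem _ ((radical B).toAddSubgroup.nsmul_mem hcr (d v0))
        ((radical B).toAddSubgroup.nsmul_mem hdr (c v0))
    have heR : ∀ v ∈ e.support, v ∈ R := by
      intro v hv
      rw [← hcs]
      rw [Finsupp.mem_support_iff] at hv
      rw [Finset.mem_coe, Finsupp.mem_support_iff]
      intro h0
      apply hv
      simp [he, h0]
    by_cases he0 : e = 0
    · refine ⟨c v0, d v0, hcpos v0 hv0, hdpos v0 hv0, ?_⟩
      rw [← hcomb, he0, map_zero, zero_add]
    · exfalso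
      have h1 := hfull e heR herad he0
      have h2 : v0 ∈ (e.support : Set K) := by rw [h1, ← hcs]; exact hv0
      rw [Finset.mem_coe, Finsupp.mem_support_iff] at h2
      exact h2 hev0
  -- a generator (up to multiples) of the radical
  have hmain : ∃ u : K, ∀ x ∈ radical B, ∃ p q : ℤ, p ≠ 0 ∧ p • x = q • u := by
    by_cases hex : ∃ c : K →₀ ℕ, (∀ v ∈ c.support, v ∈ R) ∧ comb c ∈ radical B ∧ c ≠ 0
    · obtain ⟨c0, h1, h2, h3⟩ := hex
      refine ⟨comb c0, ?_⟩
      have hone : ∀ c : K →₀ ℕ, (∀ v ∈ c.support, v ∈ R) → comb c ∈ radical B →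
          ∃ p q : ℤ, p ≠ 0 ∧ p • comb c = q • comb c0 := by
        intro c hc hcr
        by_cases hc0 : c = 0
        · exact ⟨1, 0, one_ne_zero, by simp [hc0]⟩
        · obtain ⟨m, m', hm, hm', h⟩ := hprop c c0 hc hcr hc0 h1 h2 h3
          refine ⟨m', m, by exact_mod_cast hm'.ne', ?_⟩
          rw [natCast_zsmul, natCast_zsmul]
          exact h
      intro x hx
      have hxc : x ∈ AddSubgroup.closure R := by rw [hgen]; trivial
      obtain ⟨c, d, hc, hd, hcd, rfl⟩ := exists_comb hxc
      obtain ⟨hcr, hdr⟩ := comb_mem_radical hR hB hc hd hcd (hx _)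
      obtain ⟨p, q, hp, hpq⟩ := hone c hc hcr
      obtain ⟨p', q', hp', hpq'⟩ := hone d hd hdr
      refine ⟨p * p', p' * q - p * q', mul_ne_zero hp hp', ?_⟩
      linear_combination (norm := module) p' • hpq - p • hpq'
    · refine ⟨0, ?_⟩
      push Not at hex
      intro x hx
      have hxc : x ∈ AddSubgroup.closure R := by rw [hgen]; trivial
      obtain ⟨c, d, hc, hd, hcd, rfl⟩ := exists_comb hxc
      obtain ⟨hcr, hdr⟩ := comb_mem_radical hR hB hc hd hcd (hx _)
      refine ⟨1, 0, one_ne_zero, ?_⟩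
      rw [hex c hc hcr, hex d hd hdr]
      simp
  obtain ⟨u, hu⟩ := hmain
  intro x hx y hy
  obtain ⟨p, q, hp, hpq⟩ := hu x hx
  obtain ⟨p', q', hp', hpq'⟩ := hu y hy
  by_cases hq : q = 0
  · exact ⟨p, 0, Or.inl hp, by rw [hpq, hq]; simp⟩
  · refine ⟨p * q', q * p', Or.inr (mul_ne_zero hq hp'), ?_⟩
    rw [mul_comm p q', mul_smul, hpq, mul_smul, hpq', smul_smul, smul_smul, mul_comm]

end Comb

end Pool.Stab
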