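import Mathlib

/-!
# Stability conditions on triangulated categories: definitions

`K0 C` is the Grothendieck group of a (pre)triangulated category, `Slicing C` a slicing in the
sense of Bridgeland, `StabCond C` a stability condition with the support property,
`eulerChar X Y` the alternating sum of the dimensions of `Hom(X, Y[n])`.
-/

open CategoryTheory CategoryTheory.Limits CategoryTheory.Pretriangulated
open scoped TensorProduct ZeroObject

namespace Pool.Stab

universe v u

section K0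

variable (C : Type u) [Category.{v} C] [Preadditive C] [HasZeroObject C] [HasShift C ℤ]
  [∀ n : ℤ, (shiftFunctor C n).Additive] [Pretriangulated C]

/-- The relations `[Y] = [X] + [Z]` for all distinguished triangles `X → Y → Z → X[1]`. -/
def K0Rel : AddSubgroup (FreeAbelianGroup C) :=
  AddSubgroup.closure {x | ∃ T : Triangle C, (T ∈ distTriang C) ∧
    x = FreeAbelianGroup.of T.obj₂ - FreeAbelianGroup.of T.obj₁ - FreeAbelianGroup.of T.obj₃}

/-- The Grothendieck group `K(C)` of the triangulated category `C`. -/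
def K0 : Type u := FreeAbelianGroup C ⧸ K0Rel C

noncomputable instance : AddCommGroup (K0 C) :=
  QuotientAddGroup.Quotient.addCommGroup (K0Rel C)

variable {C}

/-- The class `[X]` of an object in the Grothendieck group. -/
def cls (X : C) : K0 C := QuotientAddGroup.mk (FreeAbelianGroup.of X)

end K0

section Euler

variable {C : Type u} [Category.{v} C] [Preadditive C] [HasShift C ℤ] [Linear ℂ C]

/-- The Euler characteristic `χ(X, Y) = ∑ₙ (-1)ⁿ dim Hom(X, Y[n])`. -/
noncomputable def eulerChar (X Y : C) : ℤ :=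
  ∑ᶠ n : ℤ, (n.negOnePow : ℤ) * (Module.finrank ℂ (X ⟶ Y⟦n⟧) : ℤ)

variable (C) in
/-- The numerical consequences of being an Ext-finite K3 category (`[2]` is a Serre functor). -/
structure IsK3 : Prop where
  homFinite : ∀ X Y : C, FiniteDimensional ℂ (X ⟶ Y)
  bounded : ∀ X Y : C, {n : ℤ | ∃ f : X ⟶ Y⟦n⟧, f ≠ 0}.Finite
  serre : ∀ X Y : C, Module.finrank ℂ (X ⟶ Y) = Module.finrank ℂ (Y ⟶ X⟦(2 : ℤ)⟧)

end Euler

section Slicing

variable (C : Type u) [Category.{v} C] [Preadditive C] [HasZeroObject C] [HasShift C ℤ]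
  [∀ n : ℤ, (shiftFunctor C n).Additive] [Pretriangulated C]

variable {C} in
/-- `HN P X l`: the object `X` has a Harder-Narasimhan filtration for the family `P` of
full subcategories, with (nonzero) factors of phases `l`, the list being strictly increasing:
the last factor of the filtration, which has the smallest phase, comes first in `l`. -/
inductive HN (P : ℝ → ObjectProperty C) : C → List ℝ → Prop
  | zero {X : C} (hX : IsZero X) : HN P X []
  | step {X Y A : C} {φ : ℝ} {l : List ℝ} (hX : HN P X l) (hφ : ∀ ψ ∈ l, φ < ψ)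
      (hA : P φ A) (hA0 : ¬ IsZero A) (f : X ⟶ Y) (g : Y ⟶ A) (h : A ⟶ X⟦(1 : ℤ)⟧)
      (hT : Triangle.mk f g h ∈ distTriang C) : HN P Y (φ :: l)

/-- A slicing `P` of the triangulated category `C` (Bridgeland). -/
structure Slicing where
  /-- the full subcategory of semistable objects of phase `φ` (together with zero) -/
  P : ℝ → ObjectProperty C
  iso_mem : ∀ (φ : ℝ) {X Y : C}, (X ≅ Y) → P φ X → P φ Y
  zero_mem : ∀ φ : ℝ, P φ 0
  biprod_mem : ∀ (φ : ℝ) {X Y : C}, P φ X → P φ Y → P φ (X ⊞ Y)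
  shift_mem : ∀ (φ : ℝ) (X : C), P φ X ↔ P (φ + 1) (X⟦(1 : ℤ)⟧)
  hom_zero : ∀ {φ ψ : ℝ}, ψ < φ → ∀ {X Y : C}, P φ X → P ψ Y → ∀ f : X ⟶ Y, f = 0
  exists_HN : ∀ X : C, ∃ l : List ℝ, HN P X l

/-- A stability condition `σ = (Z, P)` on `C` with the support property. -/
structure StabCond where
  /-- the slicing -/
  sl : Slicing C
  /-- the central charge -/
  Z : K0 C →+ ℂ
  compat : ∀ (φ : ℝ) (X : C), sl.P φ X → ¬ IsZero X →
    ∃ m : ℝ, 0 < m ∧ Z (cls X) = m * Complex.exp (Real.pi * φ * Complex.I)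
  support : ∃ (N : Seminorm ℝ (ℝ ⊗[ℤ] K0 C)) (c : ℝ), (∀ x, N x = 0 → x = 0) ∧ 0 < c ∧
    ∀ (φ : ℝ) (X : C), sl.P φ X → N (1 ⊗ₜ[ℤ] cls X) ≤ c * ‖Z (cls X)‖

end Slicing

section Indec

variable (C : Type u) [Category.{v} C] [Preadditive C] [HasZeroObject C] [HasShift C ℤ]
  [∀ n : ℤ, (shiftFunctor C n).Additive] [Pretriangulated C]

/-- `C` is indecomposable: it is not the orthogonal sum of two nonzero full subcategories which
are closed under isomorphisms and shifts. -/
def Indecomposable : Prop :=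
  ∀ P Q : ObjectProperty C,
    (∀ X Y : C, (X ≅ Y) → P X → P Y) → (∀ X Y : C, (X ≅ Y) → Q X → Q Y) →
    (∀ (X : C) (n : ℤ), P X → P (X⟦n⟧)) → (∀ (X : C) (n : ℤ), Q X → Q (X⟦n⟧)) →
    (∀ X Y : C, P X → Q Y → ∀ f : X ⟶ Y, f = 0) →
    (∀ X Y : C, P X → Q Y → ∀ f : Y ⟶ X, f = 0) →
    (∀ E : C, ∃ X Y : C, P X ∧ Q Y ∧ Nonempty (E ≅ X ⊞ Y)) →
    (∀ X : C, P X → IsZero X) ∨ (∀ Y : C, Q Y → IsZero Y)

end Indec

end Pool.Stab
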