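import Mathlib
import Pool.Agent.Work.MP_841263_st.Defs

/-!
# Basic lemmas: triangles, the Grothendieck group, truncation with respect to a slicing
-/

open CategoryTheory CategoryTheory.Limits CategoryTheory.Pretriangulated
open scoped ZeroObject

set_option backward.isDefEq.respectTransparency false
set_option backward.defeqAttrib.useBackward true
set_option linter.unusedSectionVars false

namespace Pool.Stab

universe v u

section Tri

variable {C : Type u} [Category.{v} C] [Preadditive C] [HasZeroObject C] [HasShift C ℤ]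
  [∀ n : ℤ, (shiftFunctor C n).Additive] [Pretriangulated C]

lemma isZero_shift_iff (X : C) (n : ℤ) : IsZero (X⟦n⟧) ↔ IsZero X := by
  constructor
  · intro h
    exact (((shiftFunctor C (-n)).map_isZero h).of_iso ((shiftEquiv C n).unitIso.app X))
  · intro h
    exact (shiftFunctor C n).map_isZero h

/-- `Hom(X[1], Z) = 0` and `g = 0` give `Z = 0` in a triangle `X → Y → Z`. -/
lemma isZero₃_of_mor₂ {X Y Z : C} {f : X ⟶ Y} {g : Y ⟶ Z} {h : Z ⟶ X⟦(1 : ℤ)⟧}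
    (hT : Triangle.mk f g h ∈ distTriang C) (hg : g = 0)
    (hr : ∀ r : X⟦(1 : ℤ)⟧ ⟶ Z, r = 0) : IsZero Z := by
  have hm : Mono (Triangle.mk f g h).mor₃ := (Triangle.mor₂_eq_zero_iff_mono₃ _ hT).1 hg
  have hm' : Mono h := hm
  have := isSplitMono_of_mono h
  rw [IsZero.iff_id_eq_zero, ← IsSplitMono.id h, hr (retraction h), comp_zero]

/-- `Hom(X[1], Z) = 0` and `f = 0` give `X = 0` in a triangle `X → Y → Z`. -/
lemma isZero₁_of_mor₁ {X Y Z : C} {f : X ⟶ Y} {g : Y ⟶ Z} {h : Z ⟶ X⟦(1 : ℤ)⟧}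
    (hT : Triangle.mk f g h ∈ distTriang C) (hf : f = 0)
    (hr : ∀ r : X⟦(1 : ℤ)⟧ ⟶ Z, r = 0) : IsZero X := by
  have hm : Epi (Triangle.mk f g h).mor₃ := (Triangle.mor₁_eq_zero_iff_epi₃ _ hT).1 hf
  have hm' : Epi h := hm
  have := isSplitEpi_of_epi h
  rw [← isZero_shift_iff X 1, IsZero.iff_id_eq_zero, ← IsSplitEpi.id h, hr (section_ h),
    zero_comp]

lemma iso_of_isZero₃ {X Y Z : C} {f : X ⟶ Y} {g : Y ⟶ Z} {h : Z ⟶ X⟦(1 : ℤ)⟧}
    (hT : Triangle.mk f g h ∈ distTriang C) (hZ : IsZero Z) : IsIso f :=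
  (Triangle.isZero₃_iff_isIso₁ _ hT).1 hZ

lemma iso_of_isZero₁ {X Y Z : C} {f : X ⟶ Y} {g : Y ⟶ Z} {h : Z ⟶ X⟦(1 : ℤ)⟧}
    (hT : Triangle.mk f g h ∈ distTriang C) (hX : IsZero X) : IsIso g :=
  (Triangle.isZero₁_iff_isIso₂ _ hT).1 hX

/-- Hom vanishing out of the middle term. -/
lemma hom_zero_of_ext₁ {X Y Z W : C} {f : X ⟶ Y} {g : Y ⟶ Z} {h : Z ⟶ X⟦(1 : ℤ)⟧}
    (hT : Triangle.mk f g h ∈ distTriang C) (h1 : ∀ a : X ⟶ W, a = 0) (h3 : ∀ a : Z ⟶ W, a = 0)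
    (a : Y ⟶ W) : a = 0 := by
  obtain ⟨b, hb⟩ := Triangle.yoneda_exact₂ _ hT a (h1 _)
  rw [hb, h3 b, comp_zero]

/-- Hom vanishing into the middle term. -/
lemma hom_zero_of_ext₂ {X Y Z W : C} {f : X ⟶ Y} {g : Y ⟶ Z} {h : Z ⟶ X⟦(1 : ℤ)⟧}
    (hT : Triangle.mk f g h ∈ distTriang C) (h1 : ∀ a : W ⟶ X, a = 0) (h3 : ∀ a : W ⟶ Z, a = 0)
    (a : W ⟶ Y) : a = 0 := by
  obtain ⟨b, hb⟩ := Triangle.coyoneda_exact₂ _ hT a (h3 _)
  rw [hb, h1 b, zero_comp]

lemma rot_mk {X Y Z : C} {f : X ⟶ Y} {g : Y ⟶ Z} {h : Z ⟶ X⟦(1 : ℤ)⟧}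
    (hT : Triangle.mk f g h ∈ distTriang C) :
    Triangle.mk g h (-f⟦(1 : ℤ)⟧') ∈ distTriang C := rot_of_distTriang _ hT

/-- The inverse rotation as an existence statement. -/
lemma exists_invrot {X Y Z : C} {f : X ⟶ Y} {g : Y ⟶ Z} {h : Z ⟶ X⟦(1 : ℤ)⟧}
    (hT : Triangle.mk f g h ∈ distTriang C) :
    ∃ (a : Z⟦(-1 : ℤ)⟧ ⟶ X) (c : Y ⟶ Z⟦(-1 : ℤ)⟧⟦(1 : ℤ)⟧),
      Triangle.mk a f c ∈ distTriang C :=
  ⟨_, _, inv_rot_of_distTriang _ hT⟩

end Tri

section K0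

variable {C : Type u} [Category.{v} C] [Preadditive C] [HasZeroObject C] [HasShift C ℤ]
  [∀ n : ℤ, (shiftFunctor C n).Additive] [Pretriangulated C]

lemma cls_triangle (T : Triangle C) (hT : T ∈ distTriang C) :
    cls T.obj₂ = cls T.obj₁ + cls T.obj₃ := by
  have h : (QuotientAddGroup.mk (FreeAbelianGroup.of T.obj₂ - FreeAbelianGroup.of T.obj₁ -
      FreeAbelianGroup.of T.obj₃) : FreeAbelianGroup C ⧸ K0Rel C) = 0 := by
    rw [QuotientAddGroup.eq_zero_iff]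
    exact AddSubgroup.subset_closure ⟨T, hT, rfl⟩
  have h' : cls T.obj₂ - cls T.obj₁ - cls T.obj₃ = 0 := h
  rw [sub_sub, sub_eq_zero] at h'
  exact h'

lemma cls_mk {X Y Z : C} {f : X ⟶ Y} {g : Y ⟶ Z} {h : Z ⟶ X⟦(1 : ℤ)⟧}
    (hT : Triangle.mk f g h ∈ distTriang C) : cls Y = cls X + cls Z :=
  cls_triangle _ hT

lemma cls_of_isZero {X : C} (hX : IsZero X) : cls X = 0 := by
  have h := cls_mk (contractible_distinguished X)
  have h2 := cls_mk (contractible_distinguished (0 : C))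
  have h3 := cls_mk (rot_mk (contractible_distinguished X))
  -- [X] = [X] + [0]
  have hz : cls (0 : C) = 0 := by simpa using h
  -- the triangle X → 0 → 0
  have : (Triangle.mk (0 : X ⟶ (0 : C)) (0 : (0 : C) ⟶ (0 : C)) 0) ∈ distTriang C := by
    refine isomorphic_distinguished _ (contractible_distinguished (0 : C)) _ ?_
    exact Triangle.isoMk _ _ (hX.isoZero) (Iso.refl _) (Iso.refl _) (by simp) (by simp)
      (by simp)
  have h4 := cls_mk this
  rw [hz] at h4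
  simpa using h4.symm

lemma cls_iso {X Y : C} (e : X ≅ Y) : cls X = cls Y := by
  have : (Triangle.mk e.hom (0 : Y ⟶ (0 : C)) 0) ∈ distTriang C := by
    refine isomorphic_distinguished _ (contractible_distinguished Y) _ ?_
    exact Triangle.isoMk _ _ e (Iso.refl _) (Iso.refl _) (by simp) (by simp)
      (by simp)
  have h := cls_mk this
  rw [cls_of_isZero (isZero_zero C), add_zero] at h
  exact h.symm

lemma cls_shift_one (X : C) : cls (X⟦(1 : ℤ)⟧) = - cls X := by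
  have h := cls_mk (rot_mk (contractible_distinguished X))
  rw [cls_of_isZero (isZero_zero C)] at h
  rw [eq_neg_iff_add_eq_zero, add_comm]
  exact h.symm

lemma cls_shift (X : C) (n : ℤ) : cls (X⟦n⟧) = (n.negOnePow : ℤ) • cls X := by
  induction n using Int.induction_on with
  | zero => simpa using cls_iso ((shiftFunctorZero C ℤ).app X)
  | succ n ih =>
    have e : X⟦((n : ℤ) + 1)⟧ ≅ (X⟦(n : ℤ)⟧)⟦(1 : ℤ)⟧ := (shiftFunctorAdd C (n : ℤ) 1).app X
    rw [cls_iso e, cls_shift_one, ih, Int.negOnePow_succ]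
    simp
  | pred n ih =>
    have e : X⟦(-(n : ℤ))⟧ ≅ (X⟦(-(n : ℤ) - 1)⟧)⟦(1 : ℤ)⟧ :=
      (shiftFunctorAdd' C (-(n : ℤ) - 1) 1 (-(n : ℤ)) (by ring)).app X
    have h := cls_iso e
    rw [cls_shift_one, ih] at h
    have h2 : cls (X⟦(-(n : ℤ) - 1)⟧) = -(((-(n : ℤ)).negOnePow : ℤ) • cls X) := by
      rw [h, neg_neg]
    rw [h2, Int.negOnePow_sub, Int.negOnePow_one]
    simp

lemma cls_biprod (X Y : C) : cls (X ⊞ Y) = cls X + cls Y :=
  cls_triangle _ (binaryBiproductTriangle_distinguished X Y)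

lemma exists_cls (x : K0 C) : ∃ X : C, cls X = x := by
  obtain ⟨y, rfl⟩ := QuotientAddGroup.mk_surjective x
  induction y using FreeAbelianGroup.induction_on with
  | zero => exact ⟨0, cls_of_isZero (isZero_zero C)⟩
  | of X => exact ⟨X, rfl⟩
  | neg X =>
    exact ⟨X⟦(1 : ℤ)⟧, cls_shift_one X⟩
  | add y z hy hz =>
    obtain ⟨Y, hY⟩ := hy
    obtain ⟨Z, hZ⟩ := hz
    refine ⟨Y ⊞ Z, ?_⟩
    rw [cls_biprod, hY, hZ]
    rfl

/-- Additive functions on objects factor through `K0`. -/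
noncomputable def K0.lift {A : Type*} [AddCommGroup A] (φ : C → A)
    (h : ∀ T : Triangle C, (T ∈ distTriang C) → φ T.obj₂ = φ T.obj₁ + φ T.obj₃) :
    K0 C →+ A :=
  QuotientAddGroup.lift (K0Rel C) (FreeAbelianGroup.lift φ) (by
    intro x hx
    have : K0Rel C ≤ (FreeAbelianGroup.lift φ).ker := by
      rw [K0Rel, AddSubgroup.closure_le]
      rintro _ ⟨T, hT, rfl⟩
      simp [h T hT]
    exact this hx)

@[simp] lemma K0.lift_cls {A : Type*} [AddCommGroup A] (φ : C → A)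
    (h : ∀ T : Triangle C, (T ∈ distTriang C) → φ T.obj₂ = φ T.obj₁ + φ T.obj₃) (X : C) :
    K0.lift φ h (cls X) = φ X := by
  change (FreeAbelianGroup.lift φ) (FreeAbelianGroup.of X) = φ X
  simp

end K0

end Pool.Stab
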