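import Mathlib
import Pool.Agent.Work.MP_841263_st.Basic

/-!
# The Euler form on the Grothendieck group
-/

open CategoryTheory CategoryTheory.Limits CategoryTheory.Pretriangulated
open scoped ZeroObject

set_option backward.isDefEq.respectTransparency false
set_option backward.defeqAttrib.useBackward true
set_option linter.unusedSectionVars false

namespace Pool.Stab

universe v u

section rk

variable {C : Type u} [Category.{v} C] [Preadditive C] [Linear ℂ C]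

/-- The rank of the map `Hom(W, X) → Hom(W, Y)` induced by `f : X ⟶ Y`. -/
noncomputable def rk (W : C) {X Y : C} (f : X ⟶ Y) : ℕ :=
  Module.finrank ℂ (LinearMap.range (Linear.rightComp ℂ W f))

lemma rk_neg (W : C) {X Y : C} (f : X ⟶ Y) : rk W (-f) = rk W f := by
  have : Linear.rightComp ℂ W (-f) = - Linear.rightComp ℂ W f := by
    ext a; simp
  rw [rk, rk, this, LinearMap.range_neg]

lemma rk_units_smul (W : C) {X Y : C} (u : ℤˣ) (f : X ⟶ Y) : rk W (u • f) = rk W f := by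
  rcases Int.units_eq_one_or u with rfl | rfl
  · simp
  · rw [Units.neg_smul, one_smul, rk_neg]

lemma rk_iso (W : C) {X Y X' Y' : C} (f : X ⟶ Y) (f' : X' ⟶ Y') (e₁ : X ≅ X') (e₂ : Y ≅ Y')
    (h : f ≫ e₂.hom = e₁.hom ≫ f') : rk W f = rk W f' := by
  let E₁ : (W ⟶ X) ≃ₗ[ℂ] (W ⟶ X') := Linear.homCongr ℂ (Iso.refl W) e₁
  let E₂ : (W ⟶ Y) ≃ₗ[ℂ] (W ⟶ Y') := Linear.homCongr ℂ (Iso.refl W) e₂
  have h1 : (E₂ : (W ⟶ Y) →ₗ[ℂ] (W ⟶ Y')) ∘ₗ Linear.rightComp ℂ W f =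
      Linear.rightComp ℂ W f' ∘ₗ (E₁ : (W ⟶ X) →ₗ[ℂ] (W ⟶ X')) := by
    ext a
    simp [E₁, E₂, Linear.homCongr_apply, h]
  have h2 : LinearMap.range (Linear.rightComp ℂ W f') =
      (LinearMap.range (Linear.rightComp ℂ W f)).map (E₂ : (W ⟶ Y) →ₗ[ℂ] (W ⟶ Y')) := by
    rw [← LinearMap.range_comp, h1, LinearMap.range_comp, LinearEquiv.range, Submodule.map_top]
  rw [rk, rk, h2]
  exact (LinearEquiv.finrank_map_eq E₂ _).symm

end rk

section

variable {C : Type u} [Category.{v} C] [Preadditive C] [HasZeroObject C] [HasShift C ℤ]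
  [∀ n : ℤ, (shiftFunctor C n).Additive] [Pretriangulated C] [Linear ℂ C]

lemma finrank_hom₂ (hK : IsK3 C) (W : C) {X Y Z : C} {f : X ⟶ Y} {g : Y ⟶ Z}
    {h : Z ⟶ X⟦(1 : ℤ)⟧} (hT : Triangle.mk f g h ∈ distTriang C) :
    Module.finrank ℂ (W ⟶ Y) = rk W f + rk W g := by
  have := hK.homFinite W Y
  have h1 : LinearMap.ker (Linear.rightComp ℂ W g) = LinearMap.range (Linear.rightComp ℂ W f) := by
    ext a
    simp only [LinearMap.mem_ker, Linear.rightComp_apply, LinearMap.mem_range]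
    constructor
    · intro ha
      obtain ⟨b, hb⟩ := Triangle.coyoneda_exact₂ _ hT a ha
      exact ⟨b, hb.symm⟩
    · rintro ⟨b, rfl⟩
      rw [Category.assoc]
      have : f ≫ g = 0 := comp_distTriang_mor_zero₁₂ _ hT
      rw [this, comp_zero]
  have h2 := LinearMap.finrank_range_add_finrank_ker (Linear.rightComp ℂ W g)
  rw [h1] at h2
  rw [rk, rk, ← h2, add_comm]

lemma finrank_hom₃ (hK : IsK3 C) (W : C) {X Y Z : C} {f : X ⟶ Y} {g : Y ⟶ Z}
    {h : Z ⟶ X⟦(1 : ℤ)⟧} (hT : Triangle.mk f g h ∈ distTriang C) :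
    Module.finrank ℂ (W ⟶ Z) = rk W g + rk W h :=
  finrank_hom₂ hK W (rot_mk hT)

lemma finrank_hom₁ (hK : IsK3 C) (W : C) {X Y Z : C} {f : X ⟶ Y} {g : Y ⟶ Z}
    {h : Z ⟶ X⟦(1 : ℤ)⟧} (hT : Triangle.mk f g h ∈ distTriang C) :
    Module.finrank ℂ (W ⟶ X⟦(1 : ℤ)⟧) = rk W h + rk W (f⟦(1 : ℤ)⟧') := by
  rw [finrank_hom₂ hK W (rot_mk (rot_mk hT)), rk_neg]

lemma finrank_shift_obj (W X : C) {a b c : ℤ} (h : a + b = c) :
    Module.finrank ℂ (W ⟶ (X⟦a⟧)⟦b⟧) = Module.finrank ℂ (W ⟶ X⟦c⟧) :=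
  LinearEquiv.finrank_eq (Linear.homCongr ℂ (Iso.refl W)
    ((shiftFunctorAdd' C a b c h).app X).symm)

lemma rk_shift_comm (W : C) {X Y : C} (f : X ⟶ Y) (n : ℤ) :
    rk W ((f⟦n⟧')⟦(1 : ℤ)⟧') = rk W (f⟦n + 1⟧') :=
  rk_iso W _ _ ((shiftFunctorAdd' C n 1 (n + 1) rfl).app X).symm
    ((shiftFunctorAdd' C n 1 (n + 1) rfl).app Y).symm
    ((shiftFunctorAdd' C n 1 (n + 1) rfl).inv.naturality f)

/-- `Hom(W, Y[n])`, etc. in terms of ranks. -/
lemma finrank_tri (hK : IsK3 C) (W : C) {X Y Z : C} {f : X ⟶ Y} {g : Y ⟶ Z}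
    {h : Z ⟶ X⟦(1 : ℤ)⟧} (hT : Triangle.mk f g h ∈ distTriang C) (n : ℤ) :
    Module.finrank ℂ (W ⟶ Y⟦n⟧) = rk W (f⟦n⟧') + rk W (g⟦n⟧') ∧
    Module.finrank ℂ (W ⟶ Z⟦n⟧) = rk W (g⟦n⟧') + rk W (h⟦n⟧') ∧
    Module.finrank ℂ (W ⟶ X⟦n + 1⟧) = rk W (h⟦n⟧') + rk W (f⟦n + 1⟧') := by
  have hT' := Triangle.shift_distinguished _ hT n
  have e3 : rk W (n.negOnePow • h⟦n⟧' ≫ (shiftFunctorComm C 1 n).hom.app X) = rk W (h⟦n⟧') := by
    rw [rk_units_smul]
    exact (rk_iso W _ _ (Iso.refl _) ((shiftFunctorComm C 1 n).app X) (by simp)).symm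
  have e1 := finrank_hom₁ hK W hT'
  have e2 := finrank_hom₂ hK W hT'
  have e4 := finrank_hom₃ hK W hT'
  refine ⟨?_, ?_, ?_⟩
  · refine e2.trans ?_
    congr 1
    · exact rk_units_smul W _ _
    · exact rk_units_smul W _ _
  · refine e4.trans ?_
    congr 1
    exact rk_units_smul W _ _
  · rw [← finrank_shift_obj W X (rfl : n + 1 = n + 1)]
    refine e1.trans ?_
    congr 1
    rw [← rk_shift_comm]
    have : ((n.negOnePow • f⟦n⟧')⟦(1 : ℤ)⟧' : (X⟦n⟧)⟦(1 : ℤ)⟧ ⟶ (Y⟦n⟧)⟦(1 : ℤ)⟧) =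
        n.negOnePow • (f⟦n⟧')⟦(1 : ℤ)⟧' := by
      rw [Functor.map_units_smul]
    exact (congrArg (rk W) this).trans (rk_units_smul W _ _)

lemma support_finite (hK : IsK3 C) (W X : C) :
    {n : ℤ | Module.finrank ℂ (W ⟶ X⟦n⟧) ≠ 0}.Finite := by
  refine (hK.bounded W X).subset ?_
  intro n hn
  by_contra hcon
  apply hn
  have : Subsingleton (W ⟶ X⟦n⟧) := by
    refine ⟨fun a b => ?_⟩
    simp only [Set.mem_setOf_eq, not_exists, not_not] at hcon
    rw [hcon a, hcon b]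
  exact Module.finrank_zero_of_subsingleton

lemma support_finite' (hK : IsK3 C) (W X : C) :
    (Function.support fun n : ℤ => (n.negOnePow : ℤ) *
      (Module.finrank ℂ (W ⟶ X⟦n⟧) : ℤ)).Finite := by
  refine (support_finite hK W X).subset ?_
  intro n hn hcon
  apply hn
  simp [hcon]

lemma eulerChar_triangle (hK : IsK3 C) (W : C) (T : Triangle C) (hT : T ∈ distTriang C) :
    eulerChar W T.obj₂ = eulerChar W T.obj₁ + eulerChar W T.obj₃ := by
  have hT' : Triangle.mk T.mor₁ T.mor₂ T.mor₃ ∈ distTriang C := hT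
  have key := finrank_tri hK W hT'
  set t : ℤ → ℤ := fun n => (n.negOnePow : ℤ) * (rk W (T.mor₃⟦n⟧') : ℤ) with ht
  have hfin : (Function.support t).Finite := by
    refine (support_finite hK W T.obj₃).subset ?_
    intro n hn hcon
    apply hn
    have := (key n).2.1
    have h0 : rk W (T.mor₃⟦n⟧') = 0 := by omega
    simp [ht, h0]
  have hfin' : (Function.support fun n => t (n - 1)).Finite := by
    have : (Function.support fun n => t (n - 1)) = (· - 1) ⁻¹' (Function.support t) := rfl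
    rw [this]
    exact hfin.preimage (sub_left_injective.injOn)
  have hshift : ∑ᶠ n : ℤ, t (n - 1) = ∑ᶠ n : ℤ, t n :=
    finsum_comp_equiv (Equiv.subRight (1 : ℤ))
  have e : ∀ n : ℤ, (n.negOnePow : ℤ) * (Module.finrank ℂ (W ⟶ T.obj₁⟦n⟧) : ℤ) +
      (n.negOnePow : ℤ) * (Module.finrank ℂ (W ⟶ T.obj₃⟦n⟧) : ℤ) =
      (n.negOnePow : ℤ) * (Module.finrank ℂ (W ⟶ T.obj₂⟦n⟧) : ℤ) + (t n - t (n - 1)) := by
    intro n
    have h1 := (key n).1
    have h2 := (key n).2.1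
    have h3 := (key (n - 1)).2.2
    rw [show n - 1 + 1 = n by ring] at h3
    rw [h1, h2, h3]
    simp only [ht, Int.negOnePow_sub, Int.negOnePow_one]
    push_cast
    ring
  rw [eulerChar, eulerChar, eulerChar,
    ← finsum_add_distrib (support_finite' hK W _) (support_finite' hK W _)]
  simp_rw [e]
  have hsub : (Function.support fun n => t n - t (n - 1)).Finite :=
    (hfin.union hfin').subset (Function.support_sub _ _)
  rw [finsum_add_distrib (support_finite' hK W _) hsub, finsum_sub_distrib hfin hfin', hshift]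
  ring

variable [∀ n : ℤ, (shiftFunctor C n).Linear ℂ]

lemma finrank_shift_both (X Y : C) (n : ℤ) :
    Module.finrank ℂ (X⟦n⟧ ⟶ Y⟦n⟧) = Module.finrank ℂ (X ⟶ Y) := by
  let E : (X ⟶ Y) →ₗ[ℂ] (X⟦n⟧ ⟶ Y⟦n⟧) := (shiftFunctor C n).mapLinearMap ℂ
  have hE : Function.Bijective E := ⟨fun a b h => (shiftFunctor C n).map_injective h,
    fun b => ⟨(shiftFunctor C n).preimage b, (shiftFunctor C n).map_preimage b⟩⟩
  exact (LinearEquiv.finrank_eq (LinearEquiv.ofBijective E hE)).symm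

/-- `dim Hom(X, Y[n]) = dim Hom(Y, X[2-n])`. -/
lemma finrank_duality (hK : IsK3 C) (X Y : C) (n : ℤ) :
    Module.finrank ℂ (X ⟶ Y⟦n⟧) = Module.finrank ℂ (Y ⟶ X⟦2 - n⟧) := by
  rw [hK.serre X (Y⟦n⟧), ← finrank_shift_both Y (X⟦2 - n⟧) n,
    finrank_shift_obj (Y⟦n⟧) X (show 2 - n + n = 2 by ring)]

lemma eulerChar_symm (hK : IsK3 C) (X Y : C) : eulerChar X Y = eulerChar Y X := by
  rw [eulerChar, eulerChar]
  rw [← finsum_comp_equiv (f := fun m : ℤ => (m.negOnePow : ℤ) *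
    (Module.finrank ℂ (Y ⟶ X⟦m⟧) : ℤ)) (Equiv.subLeft (2 : ℤ))]
  refine finsum_congr ?_
  intro n
  simp only [Equiv.subLeft_apply]
  rw [finrank_duality hK X Y n, Int.negOnePow_sub,
    Int.negOnePow_even 2 (by decide), one_mul]

/-- The Euler form on `K0 C`. -/
noncomputable def eulerForm (hK : IsK3 C) : K0 C →+ K0 C →+ ℤ :=
  K0.lift (fun X => K0.lift (fun Y => eulerChar X Y) (fun T hT => eulerChar_triangle hK X T hT))
    (by
      intro T hT
      ext y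
      obtain ⟨Y, rfl⟩ := exists_cls y
      simp only [K0.lift_cls, AddMonoidHom.add_apply]
      rw [eulerChar_symm hK T.obj₂ Y, eulerChar_triangle hK Y T hT,
        eulerChar_symm hK T.obj₁ Y, eulerChar_symm hK T.obj₃ Y])

@[simp] lemma eulerForm_cls (hK : IsK3 C) (X Y : C) :
    eulerForm hK (cls X) (cls Y) = eulerChar X Y := by
  simp [eulerForm]

lemma eulerForm_symm (hK : IsK3 C) (x y : K0 C) : eulerForm hK x y = eulerForm hK y x := by
  obtain ⟨X, rfl⟩ := exists_cls x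
  obtain ⟨Y, rfl⟩ := exists_cls y
  simp [eulerChar_symm hK X Y]

end

end Pool.Stab
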