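import Mathlib
import Pool.Agent.Work.MP_841263_st.Basic

/-!
# Truncation with respect to a slicing
-/

open CategoryTheory CategoryTheory.Limits CategoryTheory.Pretriangulated
open scoped ZeroObject

set_option backward.isDefEq.respectTransparency false
set_option backward.defeqAttrib.useBackward true
set_option linter.unusedSectionVars false

namespace Pool.Stab

universe v u

variable {C : Type u} [Category.{v} C] [Preadditive C] [HasZeroObject C] [HasShift C ℤ]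
  [∀ n : ℤ, (shiftFunctor C n).Additive] [Pretriangulated C]

lemma HN.iso {P : ℝ → ObjectProperty C} {X Y : C} {l : List ℝ} (h : HN P X l) (e : X ≅ Y) :
    HN P Y l := by
  cases h with
  | zero hX => exact HN.zero (hX.of_iso e.symm)
  | @step X' _ A φ l hX hφ hA hA0 f g k hT =>
    refine HN.step hX hφ hA hA0 (f ≫ e.hom) (e.inv ≫ g) k ?_
    refine isomorphic_distinguished _ hT _ ?_
    exact Triangle.isoMk _ _ (Iso.refl _) e.symm (Iso.refl _) (by simp) (by simp) (by simp)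

variable (S : Slicing C)

/-- Objects whose HN factors have phases in `I`. -/
def Slicing.In (I : Set ℝ) (X : C) : Prop := ∃ l : List ℝ, HN S.P X l ∧ ∀ φ ∈ l, φ ∈ I

variable {S}

lemma Slicing.In.iso {I : Set ℝ} {X Y : C} (h : S.In I X) (e : X ≅ Y) : S.In I Y := by
  obtain ⟨l, hl, hI⟩ := h
  exact ⟨l, hl.iso e, hI⟩

lemma Slicing.In.mono {I J : Set ℝ} {X : C} (h : S.In I X) (hIJ : I ⊆ J) : S.In J X := by
  obtain ⟨l, hl, hI⟩ := h
  exact ⟨l, hl, fun φ hφ => hIJ (hI φ hφ)⟩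

lemma Slicing.in_of_isZero (I : Set ℝ) {X : C} (hX : IsZero X) : S.In I X :=
  ⟨[], HN.zero hX, by simp⟩

lemma Slicing.in_univ (X : C) : S.In Set.univ X := by
  obtain ⟨l, hl⟩ := S.exists_HN X
  exact ⟨l, hl, fun _ _ => trivial⟩

lemma Slicing.hn_single {φ : ℝ} {X : C} (hX : S.P φ X) (h0 : ¬ IsZero X) : HN S.P X [φ] := by
  have hT : Triangle.mk (0 : (0 : C) ⟶ X) (𝟙 X) (0 : X ⟶ (0 : C)⟦(1 : ℤ)⟧) ∈ distTriang C :=
    contractible_distinguished₁ X
  exact HN.step (HN.zero (isZero_zero C)) (by simp) hX h0 _ _ _ hT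

lemma Slicing.in_of_P {I : Set ℝ} {φ : ℝ} {X : C} (hX : S.P φ X) (hφ : φ ∈ I) : S.In I X := by
  by_cases h0 : IsZero X
  · exact Slicing.in_of_isZero I h0
  · exact ⟨[φ], Slicing.hn_single hX h0, by simpa using hφ⟩

/-- Hom vanishing from larger phases to smaller phases, semistable source. -/
lemma Slicing.hom_zero_aux {φ : ℝ} {X : C} (hX : S.P φ X) {Y : C} {l : List ℝ}
    (hY : HN S.P Y l) (hl : ∀ ψ ∈ l, ψ < φ) (f : X ⟶ Y) : f = 0 := by
  induction hY with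
  | zero h => exact h.eq_of_tgt _ _
  | @step Y' Y A ψ l hY' hψ hA hA0 a b c hT ih =>
    have h1 : ∀ a : X ⟶ Y', a = 0 := fun a => ih (fun χ hχ => hl χ (by simp [hχ])) a
    have h2 : ∀ a : X ⟶ A, a = 0 := fun a => S.hom_zero (hl ψ (by simp)) hX hA a
    exact hom_zero_of_ext₂ hT h1 h2 f

lemma Slicing.hom_zero' {X Y : C} {l m : List ℝ} (hX : HN S.P X l) (hY : HN S.P Y m)
    (h : ∀ φ ∈ l, ∀ ψ ∈ m, ψ < φ) (f : X ⟶ Y) : f = 0 := by
  induction hX with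
  | zero h0 => exact h0.eq_of_src _ _
  | @step X' X A φ l hX' hφ hA hA0 a b c hT ih =>
    have h1 : ∀ a : X' ⟶ Y, a = 0 :=
      fun a => ih (fun χ hχ ψ hψ => h χ (by simp [hχ]) ψ hψ) a
    have h2 : ∀ a : A ⟶ Y, a = 0 :=
      fun a => Slicing.hom_zero_aux hA hY (fun ψ hψ => h φ (by simp) ψ hψ) a
    exact hom_zero_of_ext₁ hT h1 h2 f

lemma Slicing.In.hom_zero {I J : Set ℝ} {X Y : C} (hX : S.In I X) (hY : S.In J Y)
    (h : ∀ φ ∈ I, ∀ ψ ∈ J, ψ < φ) (f : X ⟶ Y) : f = 0 := by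
  obtain ⟨l, hl, hI⟩ := hX
  obtain ⟨m, hm, hJ⟩ := hY
  exact Slicing.hom_zero' hl hm (fun φ hφ ψ hψ => h φ (hI φ hφ) ψ (hJ ψ hψ)) f

lemma HN.shift_one {X : C} {l : List ℝ} (h : HN S.P X l) :
    HN S.P (X⟦(1 : ℤ)⟧) (l.map (· + 1)) := by
  induction h with
  | zero hX => exact HN.zero ((isZero_shift_iff _ _).2 hX)
  | @step X Y A φ l hX hφ hA hA0 f g k hT ih =>
    have hT' := Triangle.shift_distinguished _ hT (1 : ℤ)
    refine HN.step ih ?_ ((S.shift_mem φ A).1 hA) (fun h => hA0 ((isZero_shift_iff _ _).1 h))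
      _ _ _ hT'
    intro ψ hψ
    obtain ⟨χ, hχ, rfl⟩ := List.mem_map.1 hψ
    have := hφ χ hχ
    linarith

lemma Slicing.In.shift_one {I : Set ℝ} {X : C} (h : S.In I X) :
    S.In ((· + 1) '' I) (X⟦(1 : ℤ)⟧) := by
  obtain ⟨l, hl, hI⟩ := h
  refine ⟨_, hl.shift_one, ?_⟩
  intro ψ hψ
  obtain ⟨χ, hχ, rfl⟩ := List.mem_map.1 hψ
  exact ⟨χ, hI χ hχ, rfl⟩

lemma Slicing.P_shift_neg_one (φ : ℝ) (X : C) (hX : S.P φ X) :
    S.P (φ - 1) (X⟦(-1 : ℤ)⟧) := by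
  rw [S.shift_mem]
  have e : X ≅ (X⟦(-1 : ℤ)⟧)⟦(1 : ℤ)⟧ := ((shiftFunctorCompIsoId C (-1 : ℤ) 1 (by simp)).app X).symm
  have := S.iso_mem φ e hX
  simpa using this

lemma HN.shift_neg_one {X : C} {l : List ℝ} (h : HN S.P X l) :
    HN S.P (X⟦(-1 : ℤ)⟧) (l.map (· - 1)) := by
  induction h with
  | zero hX => exact HN.zero ((isZero_shift_iff _ _).2 hX)
  | @step X Y A φ l hX hφ hA hA0 f g k hT ih =>
    have hT' := Triangle.shift_distinguished _ hT (-1 : ℤ)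
    refine HN.step ih ?_ (S.P_shift_neg_one φ A hA)
      (fun h => hA0 ((isZero_shift_iff _ _).1 h)) _ _ _ hT'
    intro ψ hψ
    obtain ⟨χ, hχ, rfl⟩ := List.mem_map.1 hψ
    have := hφ χ hχ
    linarith

lemma Slicing.In.shift_neg_one {I : Set ℝ} {X : C} (h : S.In I X) :
    S.In ((· - 1) '' I) (X⟦(-1 : ℤ)⟧) := by
  obtain ⟨l, hl, hI⟩ := h
  refine ⟨_, hl.shift_neg_one, ?_⟩
  intro ψ hψ
  obtain ⟨χ, hχ, rfl⟩ := List.mem_map.1 hψ
  exact ⟨χ, hI χ hχ, rfl⟩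

lemma exists_octa [IsTriangulated C] {X Y Z U V W : C} {f : X ⟶ Y} {g : Y ⟶ Z}
    {a : Y ⟶ U} {b : U ⟶ X⟦(1 : ℤ)⟧} (h12 : Triangle.mk f a b ∈ distTriang C)
    {c : Z ⟶ V} {d : V ⟶ Y⟦(1 : ℤ)⟧} (h23 : Triangle.mk g c d ∈ distTriang C)
    {p : Z ⟶ W} {q : W ⟶ X⟦(1 : ℤ)⟧} (h13 : Triangle.mk (f ≫ g) p q ∈ distTriang C) :
    ∃ (m : U ⟶ W) (n : W ⟶ V) (r : V ⟶ U⟦(1 : ℤ)⟧), Triangle.mk m n r ∈ distTriang C ∧
      a ≫ m = g ≫ p ∧ m ≫ q = b ∧ p ≫ n = c ∧ q ≫ f⟦(1 : ℤ)⟧' = n ≫ d := by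
  let O := Triangulated.someOctahedron rfl h12 h23 h13
  exact ⟨O.m₁, O.m₃, _, O.mem, O.comm₁, O.comm₂, O.comm₃, O.comm₄⟩

open Classical in
/-- Truncation of an object with a given HN filtration at an upper set of phases. -/
lemma HN.trunc [IsTriangulated C] {X : C} {l : List ℝ} (hX : HN S.P X l) (U : Set ℝ)
    (hU : IsUpperSet U) :
    ∃ (X' X'' : C) (f : X' ⟶ X) (g : X ⟶ X'') (h : X'' ⟶ X'⟦(1 : ℤ)⟧),
      Triangle.mk f g h ∈ distTriang C ∧ HN S.P X' (l.filter (· ∈ U)) ∧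
      HN S.P X'' (l.filter (· ∉ U)) := by
  induction hX with
  | @zero X h0 =>
    refine ⟨X, 0, 𝟙 X, 0, 0, contractible_distinguished X, ?_, ?_⟩
    · simpa using HN.zero h0
    · simpa using HN.zero (isZero_zero C)
  | @step X Y A φ l hX hφ hA hA0 f g k hT ih =>
    by_cases hU' : φ ∈ U
    · refine ⟨Y, 0, 𝟙 Y, 0, 0, contractible_distinguished Y, ?_, ?_⟩
      · rw [List.filter_eq_self.2]
        · exact HN.step hX hφ hA hA0 f g k hT
        · intro ψ hψ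
          simp only [decide_eq_true_eq]
          rcases List.mem_cons.1 hψ with rfl | h
          · exact hU'
          · exact hU (hφ ψ h).le hU'
      · rw [List.filter_eq_nil_iff.2]
        · exact HN.zero (isZero_zero C)
        · intro ψ hψ
          simp only [decide_eq_true_eq, not_not]
          rcases List.mem_cons.1 hψ with rfl | h
          · exact hU'
          · exact hU (hφ ψ h).le hU'
    · obtain ⟨X1, X2, a, b, c, hT1, hX1, hX2⟩ := ih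
      obtain ⟨W, p, q, hW⟩ := distinguished_cocone_triangle (a ≫ f)
      obtain ⟨m, n, r, hmn, -⟩ := exists_octa hT1 hT hW
      refine ⟨X1, W, a ≫ f, p, q, hW, ?_, ?_⟩
      · rw [List.filter_cons_of_neg (by simpa using hU')]
        exact hX1
      · rw [List.filter_cons_of_pos (by simpa using hU')]
        refine HN.step hX2 ?_ hA hA0 m n r hmn
        intro ψ hψ
        exact hφ ψ (List.mem_filter.1 hψ).1

lemma HN.eq_nil {X : C} {l : List ℝ} (hX : HN S.P X l) (h0 : IsZero X) : l = [] := by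
  cases hX with
  | zero _ => rfl
  | @step X' _ A φ l hX' hφ hA hA0 f g k hT =>
    exfalso
    apply hA0
    refine isZero₃_of_mor₂ hT (h0.eq_of_src _ _) ?_
    intro r
    refine Slicing.hom_zero' hX'.shift_one (Slicing.hn_single hA hA0) ?_ r
    intro χ hχ ψ hψ
    obtain ⟨ω, hω, rfl⟩ := List.mem_map.1 hχ
    have := hφ ω hω
    simp only [List.mem_singleton] at hψ
    subst hψ
    show _ < ω + 1
    linarith

open Classical in
lemma HN.mem_upper [IsTriangulated C] {X : C} {l : List ℝ} (hX : HN S.P X l) {U : Set ℝ}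
    (hU : IsUpperSet U) (h : S.In U X) : ∀ φ ∈ l, φ ∈ U := by
  obtain ⟨X', X'', f, g, k, hT, h1, h2⟩ := hX.trunc U hU
  have hX'' : S.In Uᶜ X'' := ⟨_, h2, fun φ hφ => by simpa using (List.mem_filter.1 hφ).2⟩
  have hX' : S.In U X' := ⟨_, h1, fun φ hφ => by simpa using (List.mem_filter.1 hφ).2⟩
  have hsep : ∀ φ ∈ U, ∀ ψ ∈ Uᶜ, ψ < φ := by
    intro φ hφ ψ hψ
    by_contra hcon
    exact hψ (hU (not_lt.1 hcon) hφ)
  have hg : g = 0 := h.hom_zero hX'' hsep g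
  have hz : IsZero X'' := by
    refine isZero₃_of_mor₂ hT hg ?_
    intro r
    refine Slicing.In.hom_zero (I := U) (J := Uᶜ) ?_ hX'' hsep r
    refine (hX'.shift_one).mono ?_
    rintro _ ⟨χ, hχ, rfl⟩
    exact hU (by simp) hχ
  have := h2.eq_nil hz
  intro φ hφ
  by_contra hcon
  have : φ ∈ l.filter (· ∉ U) := List.mem_filter.2 ⟨hφ, by simpa using hcon⟩
  simp_all

open Classical in
lemma HN.mem_lower [IsTriangulated C] {X : C} {l : List ℝ} (hX : HN S.P X l) {U : Set ℝ}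
    (hU : IsUpperSet U) (h : S.In Uᶜ X) : ∀ φ ∈ l, φ ∉ U := by
  obtain ⟨X', X'', f, g, k, hT, h1, h2⟩ := hX.trunc U hU
  have hX'' : S.In Uᶜ X'' := ⟨_, h2, fun φ hφ => by simpa using (List.mem_filter.1 hφ).2⟩
  have hX' : S.In U X' := ⟨_, h1, fun φ hφ => by simpa using (List.mem_filter.1 hφ).2⟩
  have hsep : ∀ φ ∈ U, ∀ ψ ∈ Uᶜ, ψ < φ := by
    intro φ hφ ψ hψ
    by_contra hcon
    exact hψ (hU (not_lt.1 hcon) hφ)
  have hf : f = 0 := hX'.hom_zero h hsep f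
  have hz : IsZero X' := by
    refine isZero₁_of_mor₁ hT hf ?_
    intro r
    refine Slicing.In.hom_zero (I := U) (J := Uᶜ) ?_ hX'' hsep r
    refine (hX'.shift_one).mono ?_
    rintro _ ⟨χ, hχ, rfl⟩
    exact hU (by simp) hχ
  have := h1.eq_nil hz
  intro φ hφ hcon
  have : φ ∈ l.filter (· ∈ U) := List.mem_filter.2 ⟨hφ, by simpa using hcon⟩
  simp_all

/-- The truncation triangle of an object at an upper set of phases. -/
lemma Slicing.exists_trunc [IsTriangulated C] (S : Slicing C) (X : C) {U : Set ℝ}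
    (hU : IsUpperSet U) :
    ∃ (X' X'' : C) (f : X' ⟶ X) (g : X ⟶ X'') (h : X'' ⟶ X'⟦(1 : ℤ)⟧),
      Triangle.mk f g h ∈ distTriang C ∧ S.In U X' ∧ S.In Uᶜ X'' := by
  classical
  obtain ⟨l, hl⟩ := S.exists_HN X
  obtain ⟨X', X'', f, g, k, hT, h1, h2⟩ := hl.trunc U hU
  exact ⟨X', X'', f, g, k, hT, ⟨_, h1, fun φ hφ => by simpa using (List.mem_filter.1 hφ).2⟩,
    ⟨_, h2, fun φ hφ => by simpa using (List.mem_filter.1 hφ).2⟩⟩

lemma IsUpperSet.sep {U : Set ℝ} (hU : IsUpperSet U) : ∀ φ ∈ U, ∀ ψ ∈ Uᶜ, ψ < φ := by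
  intro φ hφ ψ hψ
  by_contra hcon
  exact hψ (hU (not_lt.1 hcon) hφ)

lemma Slicing.In.shift_upper {U : Set ℝ} (hU : IsUpperSet U) {X : C} (h : S.In U X) :
    S.In U (X⟦(1 : ℤ)⟧) := by
  refine (h.shift_one).mono ?_
  rintro _ ⟨χ, hχ, rfl⟩
  exact hU (by simp) hχ

lemma Slicing.In.shift_lower {U : Set ℝ} (hU : IsUpperSet U) {X : C} (h : S.In Uᶜ X) :
    S.In Uᶜ (X⟦(-1 : ℤ)⟧) := by
  refine (h.shift_neg_one).mono ?_
  rintro _ ⟨χ, hχ, rfl⟩ hcon
  exact hχ (hU (by simp) hcon)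

/-- `P(U)` is closed under extensions for an upper set `U`. -/
lemma Slicing.In.ext_upper [IsTriangulated C] {U : Set ℝ} (hU : IsUpperSet U) {X Y Z : C}
    {f : X ⟶ Y} {g : Y ⟶ Z} {h : Z ⟶ X⟦(1 : ℤ)⟧} (hT : Triangle.mk f g h ∈ distTriang C)
    (hX : S.In U X) (hZ : S.In U Z) : S.In U Y := by
  obtain ⟨Y', Y'', a, b, c, hT', h1, h2⟩ := S.exists_trunc Y hU
  have hb : b = 0 := hom_zero_of_ext₁ hT (fun a => hX.hom_zero h2 (IsUpperSet.sep hU) a)
    (fun a => hZ.hom_zero h2 (IsUpperSet.sep hU) a) b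
  have hz : IsZero Y'' := isZero₃_of_mor₂ hT' hb
    (fun r => (h1.shift_upper hU).hom_zero h2 (IsUpperSet.sep hU) r)
  have := iso_of_isZero₃ hT' hz
  exact h1.iso (asIso a)

/-- `P(Uᶜ)` is closed under extensions for an upper set `U`. -/
lemma Slicing.In.ext_lower [IsTriangulated C] {U : Set ℝ} (hU : IsUpperSet U) {X Y Z : C}
    {f : X ⟶ Y} {g : Y ⟶ Z} {h : Z ⟶ X⟦(1 : ℤ)⟧} (hT : Triangle.mk f g h ∈ distTriang C)
    (hX : S.In Uᶜ X) (hZ : S.In Uᶜ Z) : S.In Uᶜ Y := by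
  obtain ⟨Y', Y'', a, b, c, hT', h1, h2⟩ := S.exists_trunc Y hU
  have hb : a = 0 := hom_zero_of_ext₂ hT (fun a => h1.hom_zero hX (IsUpperSet.sep hU) a)
    (fun a => h1.hom_zero hZ (IsUpperSet.sep hU) a) a
  have hz : IsZero Y' := isZero₁_of_mor₁ hT' hb
    (fun r => (h1.shift_upper hU).hom_zero h2 (IsUpperSet.sep hU) r)
  have := iso_of_isZero₁ hT' hz
  exact h2.iso (asIso b).symm

/-- Intersections. -/
lemma Slicing.In.inter [IsTriangulated C] {U V : Set ℝ} (hU : IsUpperSet U)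
    (hV : IsUpperSet V) {X : C} (h1 : S.In U X) (h2 : S.In Vᶜ X) : S.In (U ∩ Vᶜ) X := by
  obtain ⟨l, hl⟩ := S.exists_HN X
  exact ⟨l, hl, fun φ hφ => ⟨hl.mem_upper hU h1 φ hφ, hl.mem_lower hV h2 φ hφ⟩⟩

/-- `P(φ)` from `In {φ}`. -/
lemma Slicing.In.P_of_singleton {φ : ℝ} {X : C} (h : S.In {φ} X) : S.P φ X := by
  obtain ⟨l, hl, hI⟩ := h
  cases hl with
  | zero h0 => exact S.iso_mem φ (h0.isoZero).symm (S.zero_mem φ)
  | @step X' _ A ψ l hX' hψ hA hA0 f g k hT =>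
    have h1 : ψ = φ := by simpa using hI ψ (by simp)
    subst h1
    have h2 : l = [] := by
      rw [List.eq_nil_iff_forall_not_mem]
      intro χ hχ
      have h3 := hψ χ hχ
      have h4 : χ = ψ := by simpa using hI χ (by simp [hχ])
      linarith
    subst h2
    have hX0 : IsZero X' := by
      cases hX' with
      | zero h0 => exact h0
    have := iso_of_isZero₁ hT hX0
    exact S.iso_mem _ (asIso g).symm hA

end Pool.Stab
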