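import Mathlib
import Pool.Agent.Work.MP_841263_st.Slice

/-!
# The heart `P(t, t+1]`: kernel, image and cokernel of a morphism
-/

open CategoryTheory CategoryTheory.Limits CategoryTheory.Pretriangulated
open scoped ZeroObject

set_option backward.isDefEq.respectTransparency false
set_option backward.defeqAttrib.useBackward true
set_option linter.unusedSectionVars false

namespace Pool.Stab

universe v u

variable {C : Type u} [Category.{v} C] [Preadditive C] [HasZeroObject C] [HasShift C ℤ]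
  [∀ n : ℤ, (shiftFunctor C n).Additive] [Pretriangulated C]

variable {S : Slicing C}

lemma Slicing.In.shift {I : Set ℝ} {X : C} (h : S.In I X) (n : ℤ) :
    S.In ((· + (n : ℝ)) '' I) (X⟦n⟧) := by
  induction n using Int.induction_on with
  | zero =>
    refine (h.iso ((shiftFunctorZero C ℤ).app X).symm).mono ?_
    intro x hx
    exact ⟨x, hx, by simp⟩
  | succ n ih =>
    have e : X⟦((n : ℤ) + 1)⟧ ≅ (X⟦(n : ℤ)⟧)⟦(1 : ℤ)⟧ := (shiftFunctorAdd C (n : ℤ) 1).app X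
    refine (ih.shift_one.iso e.symm).mono ?_
    rintro _ ⟨_, ⟨x, hx, rfl⟩, rfl⟩
    exact ⟨x, hx, by push_cast; ring⟩
  | pred n ih =>
    have e : X⟦(-(n : ℤ) - 1)⟧ ≅ (X⟦(-(n : ℤ))⟧)⟦(-1 : ℤ)⟧ :=
      (shiftFunctorAdd' C (-(n : ℤ)) (-1) (-(n : ℤ) - 1) (by ring)).app X
    refine (ih.shift_neg_one.iso e.symm).mono ?_
    rintro _ ⟨_, ⟨x, hx, rfl⟩, rfl⟩
    exact ⟨x, hx, by push_cast; ring⟩

variable (S) in
/-- The heart `P(t, t+1]`. -/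
def Slicing.Heart (t : ℝ) (X : C) : Prop := S.In (Set.Ioc t (t + 1)) X

lemma isUpper_Ioi (t : ℝ) : IsUpperSet (Set.Ioi t) := isUpperSet_Ioi t

lemma Slicing.In.heart [IsTriangulated C] {t : ℝ} {X : C} (h1 : S.In (Set.Ioi t) X)
    (h2 : S.In (Set.Ioi (t + 1))ᶜ X) : S.Heart t X := by
  refine (Slicing.In.inter (isUpperSet_Ioi t) (isUpperSet_Ioi (t + 1)) h1 h2).mono ?_
  rintro x ⟨hx1, hx2⟩
  exact ⟨hx1, not_lt.1 hx2⟩

lemma Slicing.Heart.upper {t : ℝ} {X : C} (h : S.Heart t X) : S.In (Set.Ioi t) X :=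
  h.mono (fun _ hx => hx.1)

lemma Slicing.Heart.lower {t : ℝ} {X : C} (h : S.Heart t X) : S.In (Set.Ioi (t + 1))ᶜ X :=
  h.mono (fun _ hx => not_lt.2 hx.2)

lemma Slicing.Heart.iso {t : ℝ} {X Y : C} (h : S.Heart t X) (e : X ≅ Y) : S.Heart t Y :=
  Slicing.In.iso h e

lemma Slicing.heart_of_isZero {t : ℝ} {X : C} (h : IsZero X) : S.Heart t X :=
  Slicing.in_of_isZero _ h

lemma Slicing.heart_of_P {t φ : ℝ} {X : C} (h : S.P φ X) (h1 : t < φ) (h2 : φ ≤ t + 1) :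
    S.Heart t X := Slicing.in_of_P h ⟨h1, h2⟩

lemma Slicing.Heart.ext [IsTriangulated C] {t : ℝ} {X Y Z : C} {f : X ⟶ Y} {g : Y ⟶ Z}
    {h : Z ⟶ X⟦(1 : ℤ)⟧} (hT : Triangle.mk f g h ∈ distTriang C) (hX : S.Heart t X)
    (hZ : S.Heart t Z) : S.Heart t Y :=
  Slicing.In.heart (Slicing.In.ext_upper (isUpperSet_Ioi _) hT hX.upper hZ.upper)
    (Slicing.In.ext_lower (isUpperSet_Ioi _) hT hX.lower hZ.lower)

/-- No negative extensions in the heart. -/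
lemma Slicing.Heart.hom_neg {t : ℝ} {X Y : C} (hX : S.Heart t X) (hY : S.Heart t Y) {n : ℤ}
    (hn : n < 0) (f : X ⟶ Y⟦n⟧) : f = 0 := by
  refine Slicing.In.hom_zero hX (Slicing.In.shift hY n) ?_ f
  rintro φ ⟨h1, h2⟩ _ ⟨ψ, ⟨h3, h4⟩, rfl⟩
  have : (n : ℝ) ≤ -1 := by exact_mod_cast Int.le_sub_one_of_lt hn
  show ψ + (n : ℝ) < φ
  linarith

/-- Kernel, image and cokernel in the heart `P(t, t+1]`. -/
lemma Slicing.exists_KIQ [IsTriangulated C] {t : ℝ} {X Y : C} (hX : S.Heart t X)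
    (hY : S.Heart t Y) (f : X ⟶ Y) :
    ∃ (K I Q : C) (i : K ⟶ X) (p : X ⟶ I) (d : I ⟶ K⟦(1 : ℤ)⟧) (j : I ⟶ Y) (q : Y ⟶ Q)
      (e : Q ⟶ I⟦(1 : ℤ)⟧), Triangle.mk i p d ∈ distTriang C ∧ Triangle.mk j q e ∈ distTriang C ∧
      S.Heart t K ∧ S.Heart t I ∧ S.Heart t Q ∧ p ≫ j = f := by
  obtain ⟨Z, a, b, hZ⟩ := distinguished_cocone_triangle f
  have hZrot := rot_mk hZ
  have hXs1 : S.In (Set.Ioi (t + 1)) (X⟦(1 : ℤ)⟧) := by
    refine (hX.upper.shift_one).mono ?_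
    rintro _ ⟨x, hx, rfl⟩
    have : t < x := hx
    show t + 1 < x + 1
    linarith
  have hXs2 : S.In (Set.Ioi (t + 2))ᶜ (X⟦(1 : ℤ)⟧) := by
    refine (hX.lower.shift_one).mono ?_
    rintro _ ⟨x, hx, rfl⟩
    have : x ≤ t + 1 := not_lt.1 hx
    show ¬ (t + 2 < x + 1)
    linarith
  have hZ1 : S.In (Set.Ioi t) Z := Slicing.In.ext_upper (isUpperSet_Ioi _) hZrot hY.upper
    (hXs1.mono (Set.Ioi_subset_Ioi (by linarith)))
  have hZ2 : S.In (Set.Ioi (t + 2))ᶜ Z := Slicing.In.ext_lower (isUpperSet_Ioi _) hZrot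
    (hY.lower.mono (Set.compl_subset_compl.2 (Set.Ioi_subset_Ioi (by linarith)))) hXs2
  obtain ⟨K', Q, k, c, e, hKQ, hK', hQ'⟩ := S.exists_trunc Z (isUpperSet_Ioi (t + 1))
  have hKQrot := rot_mk hKQ
  have hQ1 : S.In (Set.Ioi t) Q := Slicing.In.ext_upper (isUpperSet_Ioi _) hKQrot hZ1
    ((hK'.mono (Set.Ioi_subset_Ioi (by linarith))).shift_upper (isUpperSet_Ioi _))
  have hQ : S.Heart t Q := Slicing.In.heart hQ1 hQ'
  obtain ⟨a', c', hKinv⟩ := exists_invrot hKQ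
  have hK2 : S.In (Set.Ioi (t + 2))ᶜ K' := by
    refine Slicing.In.ext_lower (isUpperSet_Ioi _) hKinv ?_ hZ2
    exact (hQ'.shift_lower (isUpperSet_Ioi _)).mono
      (Set.compl_subset_compl.2 (Set.Ioi_subset_Ioi (by linarith)))
  obtain ⟨W, p, q', hW⟩ := distinguished_cocone_triangle (a ≫ c)
  obtain ⟨m, n, r, hmn, h1, h2, h3, h4⟩ := exists_octa hZrot hKQrot hW
  let eI : (W⟦(-1 : ℤ)⟧)⟦(1 : ℤ)⟧ ≅ W := (shiftFunctorCompIsoId C (-1 : ℤ) 1 (by simp)).app W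
  obtain ⟨p0, hp0⟩ : ∃ p0 : X ⟶ W⟦(-1 : ℤ)⟧, p0⟦(1 : ℤ)⟧' = m ≫ eI.inv :=
    ⟨(shiftFunctor C (1 : ℤ)).preimage (m ≫ eI.inv), Functor.map_preimage _ _⟩
  obtain ⟨j, hj⟩ : ∃ j : W⟦(-1 : ℤ)⟧ ⟶ Y, j⟦(1 : ℤ)⟧' = -(eI.hom ≫ q') :=
    ⟨(shiftFunctor C (1 : ℤ)).preimage (-(eI.hom ≫ q')), Functor.map_preimage _ _⟩
  -- the triangle I → Y → Q
  have hT2 : Triangle.mk j (a ≫ c) (p ≫ eI.inv) ∈ distTriang C := by
    rw [rotate_distinguished_triangle]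
    refine isomorphic_distinguished _ hW _ ?_
    refine Triangle.isoMk _ _ (Iso.refl _) (Iso.refl _) eI (by simp) (by simp) ?_
    simp [hj]
  -- the triangle K → X → I
  obtain ⟨K, i, d, hT1⟩ := distinguished_cocone_triangle₁ p0
  have hKiso : Nonempty (K ≅ K'⟦(-1 : ℤ)⟧) := by
    have hT1s := Triangle.shift_distinguished _ (rot_mk hT1) (1 : ℤ)
    have eW : (W⟦(-1 : ℤ)⟧)⟦(1 : ℤ)⟧ ≅ W := eI
    obtain ⟨e', -⟩ := exists_iso_of_arrow_iso _ _ hT1s hmn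
      (Arrow.isoMk (Iso.refl _) (-eI) (by simp [hp0]))
    have e3 : (K⟦(1 : ℤ)⟧)⟦(1 : ℤ)⟧ ≅ K'⟦(1 : ℤ)⟧ := Triangle.π₃.mapIso e'
    have e4 : K⟦(1 : ℤ)⟧ ≅ K' := (shiftFunctor C (1 : ℤ)).preimageIso e3
    have e5 : (K⟦(1 : ℤ)⟧)⟦(-1 : ℤ)⟧ ≅ K :=
      (shiftFunctorCompIsoId C (1 : ℤ) (-1) (by simp)).app K
    exact ⟨e5.symm ≪≫ (shiftFunctor C (-1 : ℤ)).mapIso e4⟩
  obtain ⟨eK⟩ := hKiso
  have hK : S.Heart t K := by
    refine Slicing.Heart.iso (Slicing.In.heart ?_ ?_) eK.symm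
    · refine (hK'.shift_neg_one).mono ?_
      rintro _ ⟨x, hx, rfl⟩
      have : t + 1 < x := hx
      show t < x - 1
      linarith
    · refine (hK2.shift_neg_one).mono ?_
      rintro _ ⟨x, hx, rfl⟩
      have : x ≤ t + 2 := not_lt.1 hx
      show ¬ (t + 1 < x - 1)
      linarith
  have hI : S.Heart t (W⟦(-1 : ℤ)⟧) := by
    refine Slicing.In.heart ?_ ?_
    · exact Slicing.In.ext_upper (isUpperSet_Ioi _) (rot_mk hT1) hX.upper
        (hK.upper.shift_upper (isUpperSet_Ioi _))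
    · obtain ⟨a'', c'', hinv⟩ := exists_invrot hT2
      exact Slicing.In.ext_lower (isUpperSet_Ioi _) hinv
        (hQ.lower.shift_lower (isUpperSet_Ioi _)) hY.lower
  refine ⟨K, W⟦(-1 : ℤ)⟧, Q, i, p0, d, j, a ≫ c, p ≫ eI.inv, hT1, hT2, hK, hI, hQ, ?_⟩
  apply (shiftFunctor C (1 : ℤ)).map_injective
  rw [Functor.map_comp, hp0, hj]
  simp [h2]

end Pool.Stab
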