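import Mathlib
import Pool.Agent.Work.MP_841263_st.Heart
import Pool.Agent.Work.MP_841263_st.Euler
import Pool.Agent.Work.MP_841263_st.Lattice

/-!
# Iterated extensions and orthogonal decompositions
-/

open CategoryTheory CategoryTheory.Limits CategoryTheory.Pretriangulated
open scoped ZeroObject

set_option backward.isDefEq.respectTransparency false
set_option backward.defeqAttrib.useBackward true
set_option linter.unusedSectionVars false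

namespace Pool.Stab

universe v u

variable {C : Type u} [Category.{v} C] [Preadditive C] [HasZeroObject C] [HasShift C ℤ]
  [∀ n : ℤ, (shiftFunctor C n).Additive] [Pretriangulated C]

/-- Iterated extensions of objects satisfying `G`. -/
inductive Gen (G : C → Prop) : C → Prop
  | zero {X : C} (hX : IsZero X) : Gen G X
  | of {X : C} (hX : G X) : Gen G X
  | ext {X Y Z : C} {f : X ⟶ Y} {g : Y ⟶ Z} {h : Z ⟶ X⟦(1 : ℤ)⟧}
      (hT : Triangle.mk f g h ∈ distTriang C) (hX : Gen G X) (hZ : Gen G Z) : Gen G Y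

lemma tri_of_iso {X Y : C} (e : X ≅ Y) :
    Triangle.mk e.hom (0 : Y ⟶ (0 : C)) 0 ∈ distTriang C := by
  refine isomorphic_distinguished _ (contractible_distinguished Y) _ ?_
  exact Triangle.isoMk _ _ e (Iso.refl _) (Iso.refl _) (by simp) (by simp) (by simp)

lemma tri_mid_iso {X Y Z Y' : C} {f : X ⟶ Y} {g : Y ⟶ Z} {h : Z ⟶ X⟦(1 : ℤ)⟧}
    (hT : Triangle.mk f g h ∈ distTriang C) (e : Y ≅ Y') :
    Triangle.mk (f ≫ e.hom) (e.inv ≫ g) h ∈ distTriang C := by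
  refine isomorphic_distinguished _ hT _ ?_
  exact Triangle.isoMk _ _ (Iso.refl _) e.symm (Iso.refl _) (by simp) (by simp) (by simp)

lemma tri_last_iso {X Y Z Z' : C} {f : X ⟶ Y} {g : Y ⟶ Z} {h : Z ⟶ X⟦(1 : ℤ)⟧}
    (hT : Triangle.mk f g h ∈ distTriang C) (e : Z ≅ Z') :
    Triangle.mk f (g ≫ e.hom) (e.inv ≫ h) ∈ distTriang C := by
  refine isomorphic_distinguished _ hT _ ?_
  exact Triangle.isoMk _ _ (Iso.refl _) (Iso.refl _) e.symm (by simp) (by simp) (by simp)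

lemma Gen.iso {G : C → Prop} {X Y : C} (h : Gen G X) (e : X ≅ Y) : Gen G Y :=
  Gen.ext (tri_of_iso e) h (Gen.zero (isZero_zero C))

lemma Gen.mono {G G' : C → Prop} (hG : ∀ X, G X → G' X) {X : C} (h : Gen G X) : Gen G' X := by
  induction h with
  | zero h => exact Gen.zero h
  | of h => exact Gen.of (hG _ h)
  | ext hT _ _ h1 h2 => exact Gen.ext hT h1 h2

lemma Gen.trans {G : C → Prop} {X : C} (h : Gen (Gen G) X) : Gen G X := by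
  induction h with
  | zero h => exact Gen.zero h
  | of h => exact h
  | ext hT _ _ h1 h2 => exact Gen.ext hT h1 h2

lemma Gen.shift {G : C → Prop} (hG : ∀ X (n : ℤ), G X → G (X⟦n⟧)) {X : C} (h : Gen G X) (n : ℤ) :
    Gen G (X⟦n⟧) := by
  induction h with
  | zero h => exact Gen.zero ((isZero_shift_iff _ _).2 h)
  | of h => exact Gen.of (hG _ _ h)
  | ext hT _ _ h1 h2 => exact Gen.ext (Triangle.shift_distinguished _ hT n) h1 h2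

/-- Same for a property whose shifts satisfy another property. -/
lemma Gen.shift' {G G' : C → Prop} (n : ℤ) (hG : ∀ X, G X → G' (X⟦n⟧)) {X : C} (h : Gen G X) :
    Gen G' (X⟦n⟧) := by
  induction h with
  | zero h => exact Gen.zero ((isZero_shift_iff _ _).2 h)
  | of h => exact Gen.of (hG _ h)
  | ext hT _ _ h1 h2 => exact Gen.ext (Triangle.shift_distinguished _ hT n) h1 h2

lemma Gen.hom_zero {G G' : C → Prop} (hG : ∀ X Y, G X → G' Y → ∀ f : X ⟶ Y, f = 0) {X Y : C}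
    (hX : Gen G X) (hY : Gen G' Y) (f : X ⟶ Y) : f = 0 := by
  induction hX with
  | zero h => exact h.eq_of_src _ _
  | @of X hX =>
    induction hY with
    | zero h => exact h.eq_of_tgt _ _
    | of hY => exact hG _ _ hX hY f
    | ext hT _ _ h1 h2 => exact hom_zero_of_ext₂ hT h1 h2 f
  | ext hT _ _ h1 h2 => exact hom_zero_of_ext₁ hT h1 h2 f

lemma Gen.cls_mem {G : C → Prop} {R : AddSubgroup (K0 C)} (hG : ∀ X, G X → cls X ∈ R) {X : C}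
    (h : Gen G X) : cls X ∈ R := by
  induction h with
  | zero h => rw [cls_of_isZero h]; exact R.zero_mem
  | of h => exact hG _ h
  | ext hT _ _ h1 h2 => rw [cls_mk hT]; exact R.add_mem h1 h2

/-- The octahedral axiom for cocones. -/
lemma exists_octa_cocone [IsTriangulated C] {E₁ E E₂ Y₂ X₂ F : C} {i₁ : E₁ ⟶ E} {g : E ⟶ E₂}
    {d₁ : E₂ ⟶ E₁⟦(1 : ℤ)⟧} (h1 : Triangle.mk i₁ g d₁ ∈ distTriang C) {i₂ : X₂ ⟶ E₂}
    {g₂ : E₂ ⟶ Y₂} {d₂ : Y₂ ⟶ X₂⟦(1 : ℤ)⟧} (h2 : Triangle.mk i₂ g₂ d₂ ∈ distTriang C)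
    {i₃ : F ⟶ E} {d₃ : Y₂ ⟶ F⟦(1 : ℤ)⟧} (h3 : Triangle.mk i₃ (g ≫ g₂) d₃ ∈ distTriang C) :
    ∃ (m : E₁ ⟶ F) (n : F ⟶ X₂) (r : X₂ ⟶ E₁⟦(1 : ℤ)⟧), Triangle.mk m n r ∈ distTriang C ∧
      m ≫ i₃ = i₁ := by
  obtain ⟨m', n', r', hmn, c1, c2, c3, c4⟩ := exists_octa (rot_mk h1) (rot_mk h2) (rot_mk h3)
  obtain ⟨m, hm⟩ : ∃ m : E₁ ⟶ F, m⟦(1 : ℤ)⟧' = m' :=
    ⟨(shiftFunctor C (1 : ℤ)).preimage m', Functor.map_preimage _ _⟩
  obtain ⟨X', n, r, hT⟩ := distinguished_cocone_triangle m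
  have hTs := Triangle.shift_distinguished _ hT (1 : ℤ)
  obtain ⟨e', -⟩ := exists_iso_of_arrow_iso _ _ hTs hmn
    (Arrow.isoMk (Iso.refl _) (-(Iso.refl _)) (by simp [hm]))
  have e3 : X'⟦(1 : ℤ)⟧ ≅ X₂⟦(1 : ℤ)⟧ := Triangle.π₃.mapIso e'
  have e4 : X' ≅ X₂ := (shiftFunctor C (1 : ℤ)).preimageIso e3
  refine ⟨m, _, _, tri_last_iso hT e4, ?_⟩
  apply (shiftFunctor C (1 : ℤ)).map_injective
  rw [Functor.map_comp, hm]
  simpa using c2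

/-- Orthogonal decompositions are stable under extensions. -/
lemma exists_decomp_ext [IsTriangulated C] {P Q : C → Prop}
    (hPext : ∀ {X Y Z : C} {f : X ⟶ Y} {g : Y ⟶ Z} {h : Z ⟶ X⟦(1 : ℤ)⟧},
      Triangle.mk f g h ∈ distTriang C → P X → P Z → P Y)
    (hQext : ∀ {X Y Z : C} {f : X ⟶ Y} {g : Y ⟶ Z} {h : Z ⟶ X⟦(1 : ℤ)⟧},
      Triangle.mk f g h ∈ distTriang C → Q X → Q Z → Q Y)
    (hQsh : ∀ X, Q X → Q (X⟦(1 : ℤ)⟧)) (hPQ : ∀ X Y, P X → Q Y → ∀ f : X ⟶ Y, f = 0)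
    {E₁ E E₂ X₁ Y₁ X₂ Y₂ : C} {i : E₁ ⟶ E} {g : E ⟶ E₂} {d : E₂ ⟶ E₁⟦(1 : ℤ)⟧}
    (hE : Triangle.mk i g d ∈ distTriang C)
    {a₁ : X₁ ⟶ E₁} {b₁ : E₁ ⟶ Y₁} {c₁ : Y₁ ⟶ X₁⟦(1 : ℤ)⟧}
    (h1 : Triangle.mk a₁ b₁ c₁ ∈ distTriang C) (hX₁ : P X₁) (hY₁ : Q Y₁)
    {a₂ : X₂ ⟶ E₂} {b₂ : E₂ ⟶ Y₂} {c₂ : Y₂ ⟶ X₂⟦(1 : ℤ)⟧}
    (h2 : Triangle.mk a₂ b₂ c₂ ∈ distTriang C) (hX₂ : P X₂) (hY₂ : Q Y₂) :
    ∃ (X Y : C) (a : X ⟶ E) (b : E ⟶ Y) (c : Y ⟶ X⟦(1 : ℤ)⟧),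
      Triangle.mk a b c ∈ distTriang C ∧ P X ∧ Q Y := by
  obtain ⟨F, i₃, d₃, hF⟩ := distinguished_cocone_triangle₁ (g ≫ b₂)
  obtain ⟨m, n, r, hm, -⟩ := exists_octa_cocone hE h2 hF
  -- E₁ → F → X₂ ; X₁ → E₁ → Y₁
  obtain ⟨H', p, q, hH'⟩ := distinguished_cocone_triangle (a₁ ≫ m)
  obtain ⟨u, w, s, hu, -⟩ := exists_octa h1 hm hH'
  -- Y₁ → H' → X₂ → Y₁[1]
  have hs : s = 0 := hPQ _ _ hX₂ (hQsh _ hY₁) s
  obtain ⟨e, -⟩ := exists_iso_binaryBiproduct_of_distTriang _ hu hs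
  have hH2 := tri_mid_iso (binaryBiproductTriangle_distinguished X₂ Y₁)
    ((biprod.braiding X₂ Y₁) ≪≫ e.symm)
  set w' : H' ⟶ Y₁ := ((biprod.braiding X₂ Y₁) ≪≫ e.symm).inv ≫
    (binaryBiproductTriangle X₂ Y₁).mor₂ with hw'
  obtain ⟨G, j, k, hG⟩ := distinguished_cocone_triangle₁ (p ≫ w')
  obtain ⟨m2, n2, r2, hm2, -⟩ := exists_octa_cocone hH' hH2 hG
  have hGP : P G := hPext hm2 hX₁ hX₂
  obtain ⟨H, p3, q3, hH⟩ := distinguished_cocone_triangle (j ≫ i₃)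
  obtain ⟨u3, w3, s3, hu3, -⟩ := exists_octa hG hF hH
  exact ⟨G, H, j ≫ i₃, p3, q3, hH, hGP, hQext hu3 hY₁ hY₂⟩

/-- If every object is an iterated extension of objects in two mutually orthogonal classes
closed under shifts, then every object is a direct sum. -/
lemma exists_biprod_of_gen [IsTriangulated C] {G G' : C → Prop}
    (hGs : ∀ X (n : ℤ), G X → G (X⟦n⟧)) (hGs' : ∀ X (n : ℤ), G' X → G' (X⟦n⟧))
    (h12 : ∀ X Y, G X → G' Y → ∀ f : X ⟶ Y, f = 0)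
    (h21 : ∀ X Y, G X → G' Y → ∀ f : Y ⟶ X, f = 0) {E : C}
    (hE : Gen (fun X => G X ∨ G' X) E) :
    ∃ X Y : C, Gen G X ∧ Gen G' Y ∧ Nonempty (E ≅ X ⊞ Y) := by
  have key : ∃ (X Y : C) (a : X ⟶ E) (b : E ⟶ Y) (c : Y ⟶ X⟦(1 : ℤ)⟧),
      Triangle.mk a b c ∈ distTriang C ∧ Gen G X ∧ Gen G' Y := by
    induction hE with
    | @zero E h =>
      exact ⟨E, 0, 𝟙 E, 0, 0, contractible_distinguished E, Gen.zero h, Gen.zero (isZero_zero C)⟩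
    | @of E h =>
      rcases h with h | h
      · exact ⟨E, 0, 𝟙 E, 0, 0, contractible_distinguished E, Gen.of h,
          Gen.zero (isZero_zero C)⟩
      · exact ⟨0, E, 0, 𝟙 E, 0, contractible_distinguished₁ E, Gen.zero (isZero_zero C),
          Gen.of h⟩
    | ext hT _ _ h1 h2 =>
      obtain ⟨X₁, Y₁, a₁, b₁, c₁, t1, p1, q1⟩ := h1
      obtain ⟨X₂, Y₂, a₂, b₂, c₂, t2, p2, q2⟩ := h2
      exact exists_decomp_ext (P := Gen G) (Q := Gen G') (fun hT h1 h2 => Gen.ext hT h1 h2)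
        (fun hT h1 h2 => Gen.ext hT h1 h2) (fun X h => h.shift hGs' 1)
        (fun X Y hX hY f => hX.hom_zero h12 hY f) hT t1 p1 q1 t2 p2 q2
  obtain ⟨X, Y, a, b, c, hT, hX, hY⟩ := key
  have hc : c = 0 := Gen.hom_zero (G := G') (G' := G) (fun X Y hX hY f => h21 Y X hY hX f) hY
    (hX.shift hGs 1) c
  obtain ⟨e, -⟩ := exists_iso_binaryBiproduct_of_distTriang _ hT hc
  exact ⟨X, Y, hX, hY, ⟨e⟩⟩

end Pool.Stab
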