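import Mathlib
import Pool.Agent.Work.MP_841263_st.Gen

/-!
# Simple objects of the heart, the rank theorem
-/

open CategoryTheory CategoryTheory.Limits CategoryTheory.Pretriangulated
open scoped ZeroObject

set_option backward.isDefEq.respectTransparency false
set_option backward.defeqAttrib.useBackward true
set_option linter.unusedSectionVars false

namespace Pool.Stab

universe v u

variable {C : Type u} [Category.{v} C] [Preadditive C] [HasZeroObject C] [HasShift C ℤ]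
  [∀ n : ℤ, (shiftFunctor C n).Additive] [Pretriangulated C]

/-- `X` is a simple object of the class `A`: it is nonzero and has no nontrivial decomposition
`Y → X → Z` with `Y` and `Z` in `A`. -/
def SimpleIn (A : C → Prop) (X : C) : Prop :=
  A X ∧ ¬ IsZero X ∧ ∀ (Y Z : C) (f : Y ⟶ X) (g : X ⟶ Z) (h : Z ⟶ Y⟦(1 : ℤ)⟧),
    Triangle.mk f g h ∈ distTriang C → A Y → A Z → IsZero Y ∨ IsZero Z

variable {S : Slicing C}

/-- Schur's lemma. -/
lemma SimpleIn.isIso [IsTriangulated C] {t : ℝ} {X Y : C} (hX : SimpleIn (S.Heart t) X)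
    (hY : SimpleIn (S.Heart t) Y) (f : X ⟶ Y) (hf : f ≠ 0) : IsIso f := by
  obtain ⟨K, I, Q, i, p, d, j, q, e, hT1, hT2, hK, hI, hQ, hpj⟩ :=
    Slicing.exists_KIQ hX.1 hY.1 f
  have hI0 : ¬ IsZero I := by
    intro h
    apply hf
    rw [← hpj, h.eq_of_tgt p 0, zero_comp]
  have hK0 : IsZero K := (hX.2.2 _ _ _ _ _ hT1 hK hI).resolve_right hI0
  have hQ0 : IsZero Q := (hY.2.2 _ _ _ _ _ hT2 hI hQ).resolve_left hI0
  have := iso_of_isZero₁ hT1 hK0
  have := iso_of_isZero₃ hT2 hQ0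
  rw [← hpj]
  infer_instance

lemma SimpleIn.hom_zero [IsTriangulated C] {t : ℝ} {X Y : C} (hX : SimpleIn (S.Heart t) X)
    (hY : SimpleIn (S.Heart t) Y) (hne : cls X ≠ cls Y) (f : X ⟶ Y) : f = 0 := by
  by_contra hf
  have := hX.isIso hY f hf
  exact hne (cls_iso (asIso f))

section Linear

variable [Linear ℂ C]

lemma finrank_of_forall_zero {X Y : C} (h : ∀ f : X ⟶ Y, f = 0) :
    Module.finrank ℂ (X ⟶ Y) = 0 := by
  have : Subsingleton (X ⟶ Y) := ⟨fun a b => by rw [h a, h b]⟩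
  exact Module.finrank_zero_of_subsingleton

lemma forall_zero_of_finrank (hK : IsK3 C) {X Y : C} (h : Module.finrank ℂ (X ⟶ Y) = 0) :
    ∀ f : X ⟶ Y, f = 0 := by
  have := hK.homFinite X Y
  have h1 := Module.finrank_zero_iff.1 h
  intro f
  exact Subsingleton.elim _ _

lemma SimpleIn.finrank_end [IsTriangulated C] (hK : IsK3 C) {t : ℝ} {X : C}
    (hX : SimpleIn (S.Heart t) X) : Module.finrank ℂ (X ⟶ X) = 1 := by
  have := hK.homFinite X X
  refine finrank_endomorphism_eq_one ℂ ?_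
  intro f
  refine ⟨fun h h0 => ?_, fun h => hX.isIso hX f h⟩
  subst h0
  have h1 : (𝟙 X : X ⟶ X) = 0 := by
    rw [← IsIso.hom_inv_id (0 : X ⟶ X), zero_comp]
  exact hX.2.1 (by rwa [IsZero.iff_id_eq_zero])

variable [∀ n : ℤ, (shiftFunctor C n).Linear ℂ]

/-- Vanishing of `Hom(X, Y[n])` for `X, Y` in the heart and `n ≠ 0, 1, 2`. -/
lemma Slicing.Heart.finrank_zero (hK : IsK3 C) {t : ℝ} {X Y : C} (hX : S.Heart t X)
    (hY : S.Heart t Y) {n : ℤ} (hn : n < 0 ∨ 2 < n) : Module.finrank ℂ (X ⟶ Y⟦n⟧) = 0 := by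
  rcases hn with hn | hn
  · exact finrank_of_forall_zero (fun f => hX.hom_neg hY hn f)
  · rw [finrank_duality hK]
    exact finrank_of_forall_zero (fun f => hY.hom_neg hX (by omega) f)

lemma finrank_shift_zero (X Y : C) :
    Module.finrank ℂ (X ⟶ Y⟦(0 : ℤ)⟧) = Module.finrank ℂ (X ⟶ Y) :=
  LinearEquiv.finrank_eq (Linear.homCongr ℂ (Iso.refl X) ((shiftFunctorZero C ℤ).app Y))

/-- The key formula. -/
lemma Slicing.Heart.eulerChar (hK : IsK3 C) {t : ℝ} {X Y : C} (hX : S.Heart t X)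
    (hY : S.Heart t Y) : eulerChar X Y = (Module.finrank ℂ (X ⟶ Y) : ℤ) +
      (Module.finrank ℂ (Y ⟶ X) : ℤ) - (Module.finrank ℂ (X ⟶ Y⟦(1 : ℤ)⟧) : ℤ) := by
  rw [Pool.Stab.eulerChar]
  rw [finsum_eq_sum_of_support_subset (s := {0, 1, 2})]
  · rw [Finset.sum_insert (by decide), Finset.sum_insert (by decide), Finset.sum_singleton]
    rw [finrank_shift_zero, ← hK.serre Y X, Int.negOnePow_zero, Int.negOnePow_one,
      Int.negOnePow_even 2 (by decide)]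
    push_cast
    ring
  · intro n hn
    by_contra hcon
    apply hn
    have h : n < 0 ∨ 2 < n := by
      by_contra h'
      push Not at h'
      apply hcon
      obtain ⟨h1, h2⟩ := h'
      interval_cases n <;> simp
    show (n.negOnePow : ℤ) * (Module.finrank ℂ (X ⟶ Y⟦n⟧) : ℤ) = 0
    rw [hX.finrank_zero hK hY h]
    simp

/-- Simple objects of different class have nonpositive Euler product. -/
lemma SimpleIn.eulerChar_le [IsTriangulated C] (hK : IsK3 C) {t : ℝ} {X Y : C}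
    (hX : SimpleIn (S.Heart t) X) (hY : SimpleIn (S.Heart t) Y) (hne : cls X ≠ cls Y) :
    eulerChar X Y = -(Module.finrank ℂ (X ⟶ Y⟦(1 : ℤ)⟧) : ℤ) := by
  rw [hX.1.eulerChar hK hY.1, finrank_of_forall_zero (hX.hom_zero hY hne),
    finrank_of_forall_zero (hY.hom_zero hX hne.symm)]
  simp

/-- `B([X],[X]) ≤ 2` for simple objects. -/
lemma SimpleIn.eulerChar_self_le [IsTriangulated C] (hK : IsK3 C) {t : ℝ} {X : C}
    (hX : SimpleIn (S.Heart t) X) : eulerChar X X ≤ 2 := by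
  rw [hX.1.eulerChar hK hX.1, hX.finrank_end hK]
  have : (0 : ℤ) ≤ (Module.finrank ℂ (X ⟶ X⟦(1 : ℤ)⟧) : ℤ) := by positivity
  push_cast
  linarith

/-- Orthogonality of simple objects with zero Euler product, in all degrees. -/
lemma SimpleIn.orth [IsTriangulated C] (hK : IsK3 C) {t : ℝ} {X Y : C}
    (hX : SimpleIn (S.Heart t) X) (hY : SimpleIn (S.Heart t) Y) (hne : cls X ≠ cls Y)
    (h0 : eulerChar X Y = 0) (n : ℤ) (f : X ⟶ Y⟦n⟧) : f = 0 := by
  refine forall_zero_of_finrank hK ?_ f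
  by_cases hn : n < 0 ∨ 2 < n
  · exact hX.1.finrank_zero hK hY.1 hn
  · push Not at hn
    obtain ⟨h1, h2⟩ := hn
    have h3 := hX.eulerChar_le hK hY hne
    rw [h0] at h3
    interval_cases n
    · rw [finrank_shift_zero]
      exact finrank_of_forall_zero (hX.hom_zero hY hne)
    · omega
    · rw [← hK.serre Y X]
      exact finrank_of_forall_zero (hY.hom_zero hX hne.symm)

lemma orth_shift {X Y : C} (h : ∀ (n : ℤ) (f : X ⟶ Y⟦n⟧), f = 0) (a b : ℤ)
    (f : X⟦a⟧ ⟶ Y⟦b⟧) : f = 0 := by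
  have e : (Y⟦b - a⟧)⟦a⟧ ≅ Y⟦b⟧ := ((shiftFunctorAdd' C (b - a) a b (by ring)).app Y).symm
  obtain ⟨g, hg⟩ : ∃ g : X ⟶ Y⟦b - a⟧, g⟦a⟧' = f ≫ e.inv :=
    ⟨(shiftFunctor C a).preimage _, Functor.map_preimage _ _⟩
  rw [h _ g, Functor.map_zero] at hg
  rw [← cancel_mono e.inv, ← hg, zero_comp]

/-- Every semistable object is a shift of a semistable object of the heart. -/
lemma Slicing.exists_shift_heart (t φ : ℝ) {X : C} (hX : S.P φ X) :
    ∃ n : ℤ, S.Heart t (X⟦n⟧) := by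
  have h1 : S.In ((· + ((⌊t - φ⌋ + 1 : ℤ) : ℝ)) '' {φ}) (X⟦⌊t - φ⌋ + 1⟧) :=
    Slicing.In.shift (Slicing.in_of_P hX (Set.mem_singleton φ)) _
  refine ⟨⌊t - φ⌋ + 1, h1.mono ?_⟩
  rintro _ ⟨x, hx, rfl⟩
  have hx' : x = φ := hx
  subst hx'
  have h2 := Int.floor_le (t - x)
  have h3 := Int.lt_floor_add_one (t - x)
  push_cast
  constructor
  · show t < x + (_ + 1)
    linarith
  · show x + (_ + 1) ≤ t + 1
    linarith

/-- Every object is an iterated extension of shifts of `A`-simple objects, if every object of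
the heart is an iterated extension of simple objects. -/
lemma Slicing.gen_shift_simple {t : ℝ}
    (hFL : ∀ X, S.Heart t X → Gen (SimpleIn (S.Heart t)) X) (X : C) :
    Gen (fun Y : C => ∃ (Z : C) (n : ℤ), SimpleIn (S.Heart t) Z ∧ Nonempty (Y ≅ Z⟦n⟧)) X := by
  obtain ⟨l, hl⟩ := S.exists_HN X
  induction hl with
  | zero h => exact Gen.zero h
  | @step X Y A φ l hX hφ hA hA0 f g k hT ih =>
    refine Gen.ext hT ih ?_
    obtain ⟨n, hn⟩ := S.exists_shift_heart t φ hA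
    have h1 := hFL _ hn
    have h2 : Gen (fun Y : C => ∃ (Z : C) (n : ℤ), SimpleIn (S.Heart t) Z ∧
        Nonempty (Y ≅ Z⟦n⟧)) ((A⟦n⟧)⟦-n⟧) :=
      h1.shift' (-n) (fun Z hZ => ⟨Z, -n, hZ, ⟨Iso.refl _⟩⟩)
    exact h2.iso ((shiftFunctorCompIsoId C n (-n) (by ring)).app A)

/-- **Rank theorem.** If the heart `P(t, t+1]` has finite length then the radical of the
(positive semidefinite) Euler form of an indecomposable K3 category has rank at most one. -/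
theorem Slicing.rank_theorem [IsTriangulated C] (hK : IsK3 C) (hB : IsPSD (eulerForm hK))
    (hind : Indecomposable C) {t : ℝ}
    (hFL : ∀ X, S.Heart t X → Gen (SimpleIn (S.Heart t)) X) :
    ∀ x ∈ radical (eulerForm hK), ∀ y ∈ radical (eulerForm hK),
      ∃ n m : ℤ, (n ≠ 0 ∨ m ≠ 0) ∧ n • x = m • y := by
  set R : Set (K0 C) := {v | ∃ X, SimpleIn (S.Heart t) X ∧ cls X = v} with hRdef
  refine rank_lemma (R := R) ?_ hB ?_ ?_
  · rintro _ ⟨X, hX, rfl⟩ _ ⟨Y, hY, rfl⟩ hne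
    rw [eulerForm_cls, hX.eulerChar_le hK hY hne]
    have : (0 : ℤ) ≤ (Module.finrank ℂ (X ⟶ Y⟦(1 : ℤ)⟧) : ℤ) := by positivity
    linarith
  · rw [eq_top_iff]
    intro x _
    obtain ⟨X, rfl⟩ := exists_cls x
    refine (S.gen_shift_simple hFL X).cls_mem ?_
    rintro Y ⟨Z, n, hZ, ⟨e⟩⟩
    rw [cls_iso e, cls_shift]
    exact AddSubgroup.zsmul_mem _
      (AddSubgroup.subset_closure (show cls Z ∈ R from ⟨Z, hZ, rfl⟩)) _
  · intro J hJ hJne hJ0
    by_contra hcon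
    obtain ⟨w, hwR, hwJ⟩ : ∃ w ∈ R, w ∉ J := by
      by_contra h
      push Not at h
      exact hcon (Set.Subset.antisymm hJ h)
    obtain ⟨v, hvJ⟩ := hJne
    let G1 : C → Prop := fun Y => ∃ (Z : C) (n : ℤ), SimpleIn (S.Heart t) Z ∧ cls Z ∈ J ∧
      Nonempty (Y ≅ Z⟦n⟧)
    let G2 : C → Prop := fun Y => ∃ (Z : C) (n : ℤ), SimpleIn (S.Heart t) Z ∧ cls Z ∉ J ∧
      Nonempty (Y ≅ Z⟦n⟧)
    have hs1 : ∀ X (n : ℤ), G1 X → G1 (X⟦n⟧) := by
      rintro X n ⟨Z, m, hZ, hZJ, ⟨e⟩⟩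
      exact ⟨Z, m + n, hZ, hZJ, ⟨(shiftFunctor C n).mapIso e ≪≫
        ((shiftFunctorAdd C m n).app Z).symm⟩⟩
    have hs2 : ∀ X (n : ℤ), G2 X → G2 (X⟦n⟧) := by
      rintro X n ⟨Z, m, hZ, hZJ, ⟨e⟩⟩
      exact ⟨Z, m + n, hZ, hZJ, ⟨(shiftFunctor C n).mapIso e ≪≫
        ((shiftFunctorAdd C m n).app Z).symm⟩⟩
    have h12 : ∀ X Y, G1 X → G2 Y → ∀ f : X ⟶ Y, f = 0 := by
      rintro X Y ⟨Z, a, hZ, hZJ, ⟨e⟩⟩ ⟨Z', b, hZ', hZJ', ⟨e'⟩⟩ f
      have hne : cls Z ≠ cls Z' := fun h => hZJ' (h ▸ hZJ)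
      have h0 : eulerChar Z Z' = 0 := by
        rw [← eulerForm_cls hK]
        exact hJ0 (cls Z) hZJ (cls Z') (show cls Z' ∈ R from ⟨Z', hZ', rfl⟩) hZJ'
      have h1 := orth_shift (hZ.orth hK hZ' hne h0) a b (e.inv ≫ f ≫ e'.hom)
      rw [← cancel_mono e'.hom, ← cancel_epi e.inv, h1]
      simp
    have h21 : ∀ X Y, G1 X → G2 Y → ∀ f : Y ⟶ X, f = 0 := by
      rintro X Y ⟨Z, a, hZ, hZJ, ⟨e⟩⟩ ⟨Z', b, hZ', hZJ', ⟨e'⟩⟩ f
      have hne : cls Z' ≠ cls Z := fun h => hZJ' (h ▸ hZJ)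
      have h0 : eulerChar Z' Z = 0 := by
        rw [eulerChar_symm hK, ← eulerForm_cls hK]
        exact hJ0 (cls Z) hZJ (cls Z') (show cls Z' ∈ R from ⟨Z', hZ', rfl⟩) hZJ'
      have h1 := orth_shift (hZ'.orth hK hZ hne h0) b a (e'.inv ≫ f ≫ e.hom)
      rw [← cancel_mono e.hom, ← cancel_epi e'.inv, h1]
      simp
    have hall : ∀ E : C, ∃ X Y : C, Gen G1 X ∧ Gen G2 Y ∧ Nonempty (E ≅ X ⊞ Y) := by
      intro E
      refine exists_biprod_of_gen hs1 hs2 h12 h21 ?_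
      refine (S.gen_shift_simple hFL E).mono ?_
      rintro Y ⟨Z, n, hZ, he⟩
      by_cases h : cls Z ∈ J
      · exact Or.inl ⟨Z, n, hZ, h, he⟩
      · exact Or.inr ⟨Z, n, hZ, h, he⟩
    have := hind (fun X => Gen G1 X) (fun X => Gen G2 X) (fun X Y e h => h.iso e)
      (fun X Y e h => h.iso e) (fun X n h => h.shift hs1 n) (fun X n h => h.shift hs2 n)
      (fun X Y hX hY f => hX.hom_zero h12 hY f)
      (fun X Y hX hY f => hY.hom_zero (fun Y X hY hX f => h21 X Y hX hY f) hX f) hall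
    rcases this with h | h
    · obtain ⟨Z, hZ, hZv⟩ := hJ hvJ
      refine hZ.2.1 (h Z (Gen.of ⟨Z, 0, hZ, by rw [hZv]; exact hvJ,
        ⟨((shiftFunctorZero C ℤ).app Z).symm⟩⟩))
    · obtain ⟨Z, hZ, hZw⟩ := hwR
      refine hZ.2.1 (h Z (Gen.of ⟨Z, 0, hZ, by rw [hZw]; exact hwJ,
        ⟨((shiftFunctorZero C ℤ).app Z).symm⟩⟩))

end Linear

end Pool.Stab
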