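import Mathlib

/-!
# A lattice has finitely many points of bounded norm
-/

open scoped TensorProduct

namespace Pool.Stab

lemma finite_of_norm_le {K : Type*} [AddCommGroup K] [Module.Finite ℤ K] [Module.Free ℤ K]
    (N : Seminorm ℝ (ℝ ⊗[ℤ] K)) (hN : ∀ x, N x = 0 → x = 0) (M : ℝ) :
    {x : K | N (1 ⊗ₜ[ℤ] x) ≤ M}.Finite := by
  classical
  let ι := Module.Free.ChooseBasisIndex ℤ K
  let b : Module.Basis ι ℤ K := Module.Free.chooseBasis ℤ K
  let bV : Module.Basis ι ℝ (ℝ ⊗[ℤ] K) := Algebra.TensorProduct.basis ℝ b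
  let L : (ι → ℝ) →ₗ[ℝ] (ℝ ⊗[ℤ] K) := (bV.equivFun.symm : (ι → ℝ) →ₗ[ℝ] (ℝ ⊗[ℤ] K))
  have hLinj : Function.Injective L := bV.equivFun.symm.injective
  let N' : Seminorm ℝ (ι → ℝ) := N.comp L
  have hN' : ∀ f, N' f = 0 → f = 0 := by
    intro f hf
    have h1 : L f = 0 := hN _ hf
    exact hLinj (by rw [h1, map_zero])
  have hbound : ∀ f, N' f ≤ (∑ i, N' (Pi.single i 1)) * ‖f‖ := by
    intro f
    have h1 : f = ∑ i, f i • (Pi.single i (1 : ℝ) : ι → ℝ) := by
      ext j
      simp [Finset.sum_apply, Pi.single_apply]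
    calc N' f = N' (∑ i, f i • (Pi.single i (1 : ℝ) : ι → ℝ)) := by rw [← h1]
      _ ≤ ∑ i, N' (f i • (Pi.single i (1 : ℝ) : ι → ℝ)) := by
        exact Finset.le_sum_of_subadditive N' (map_zero N').le (map_add_le_add N') _ _
      _ ≤ ∑ i, N' (Pi.single i 1) * ‖f‖ := by
        refine Finset.sum_le_sum ?_
        intro i _
        rw [map_smul_eq_mul, mul_comm]
        exact mul_le_mul_of_nonneg_left (norm_le_pi_norm f i) (apply_nonneg N' _)
      _ = _ := by rw [Finset.sum_mul]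
  have hcont : Continuous N' := by
    set D := ∑ i, N' (Pi.single i 1) with hD
    have hD0 : 0 ≤ D := Finset.sum_nonneg (fun i _ => apply_nonneg N' _)
    refine (LipschitzWith.of_dist_le_mul (K := D.toNNReal) ?_).continuous
    intro f g
    rw [Real.dist_eq, dist_eq_norm]
    have h1 : N' f ≤ N' g + N' (f - g) := by
      have := map_add_le_add N' g (f - g)
      simpa using this
    have h2 : N' g ≤ N' f + N' (f - g) := by
      have := map_add_le_add N' f (g - f)
      rw [map_sub_rev N' g f] at this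
      simpa using this
    have h3 := hbound (f - g)
    rw [abs_le, Real.coe_toNNReal D hD0]
    constructor <;> linarith
  obtain ⟨c, hc, hcN⟩ : ∃ c : ℝ, 0 < c ∧ ∀ f, c * ‖f‖ ≤ N' f := by
    by_cases hne : (Metric.sphere (0 : ι → ℝ) 1).Nonempty
    · obtain ⟨f0, hf0, hmin⟩ := (isCompact_sphere (0 : ι → ℝ) 1).exists_isMinOn hne
        hcont.continuousOn
      have hf0' : f0 ≠ 0 := by
        rintro rfl
        simp at hf0
      refine ⟨N' f0, lt_of_le_of_ne (apply_nonneg N' _) (fun h => hf0' (hN' _ h.symm)), ?_⟩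
      intro f
      by_cases hf : f = 0
      · simp [hf]
      · have hpos : 0 < ‖f‖ := norm_pos_iff.2 hf
        have h1 : (‖f‖⁻¹ • f) ∈ Metric.sphere (0 : ι → ℝ) 1 := by
          simp [norm_smul, hpos.ne']
        have h2 : N' f0 ≤ N' (‖f‖⁻¹ • f) := hmin h1
        rw [map_smul_eq_mul, norm_inv, norm_norm] at h2
        rw [← le_div_iff₀ hpos]
        rw [div_eq_inv_mul]
        exact h2
    · refine ⟨1, one_pos, ?_⟩
      intro f
      have : f = 0 := by
        by_contra hf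
        apply hne
        have hpos : 0 < ‖f‖ := norm_pos_iff.2 hf
        exact ⟨‖f‖⁻¹ • f, by simp [norm_smul, hpos.ne']⟩
      simp [this]
  -- integer points
  let B : ℤ := ⌈M / c⌉
  let T : Set (ι → ℤ) := Set.pi Set.univ (fun _ => Set.Icc (-B) B)
  have hT : T.Finite := Set.Finite.pi (fun _ => Set.finite_Icc _ _)
  refine Set.Finite.subset (hT.preimage (b.equivFun.injective.injOn)) ?_
  intro x hx
  have hx' : N (1 ⊗ₜ[ℤ] x) ≤ M := hx
  let f : ι → ℝ := fun i => (b.repr x i : ℝ)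
  have hf : L f = 1 ⊗ₜ[ℤ] x := by
    have h1 : bV.equivFun (1 ⊗ₜ[ℤ] x) = f := by
      ext i
      simp [bV, f, Algebra.TensorProduct.basis_repr_tmul]
    show bV.equivFun.symm f = _
    rw [← h1, LinearEquiv.symm_apply_apply]
  have h2 : c * ‖f‖ ≤ M := by
    have h3 := hcN f
    have h4 : N' f = N (1 ⊗ₜ[ℤ] x) := by
      show N (L f) = _
      rw [hf]
    linarith
  show b.equivFun x ∈ T
  intro i _
  have h5 : |(b.repr x i : ℝ)| ≤ M / c := by
    rw [le_div_iff₀ hc, mul_comm]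
    exact (mul_le_mul_of_nonneg_left (norm_le_pi_norm f i) hc.le).trans h2
  have h6 : |(b.repr x i : ℝ)| ≤ (B : ℝ) := h5.trans (Int.le_ceil _)
  have h7 : |b.repr x i| ≤ B := by exact_mod_cast h6
  exact abs_le.1 h7

end Pool.Stab
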