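import Mathlib
import Pool.Agent.Work.MP_841263_st.Simple
import Pool.Agent.Work.MP_841263_st.FinLat

/-!
# The central charge on the hearts `P(t, t+1]`
-/

open CategoryTheory CategoryTheory.Limits CategoryTheory.Pretriangulated
open scoped ZeroObject TensorProduct

set_option backward.isDefEq.respectTransparency false
set_option backward.defeqAttrib.useBackward true
set_option linter.unusedSectionVars false

namespace Pool.Stab

universe v u

variable {C : Type u} [Category.{v} C] [Preadditive C] [HasZeroObject C] [HasShift C ℤ]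
  [∀ n : ℤ, (shiftFunctor C n).Additive] [Pretriangulated C]

/-- The imaginary part of the central charge rotated by `-π t`. -/
noncomputable def StabCond.im (σ : StabCond C) (t : ℝ) : K0 C →+ ℝ :=
  (Complex.imAddGroupHom.comp (AddMonoidHom.mulRight (Complex.exp (-(Real.pi * t * Complex.I))))).comp
    σ.Z

/-- The real part of the central charge rotated by `-π t`. -/
noncomputable def StabCond.re (σ : StabCond C) (t : ℝ) : K0 C →+ ℝ :=
  (Complex.reAddGroupHom.comp (AddMonoidHom.mulRight (Complex.exp (-(Real.pi * t * Complex.I))))).comp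
    σ.Z

lemma StabCond.im_apply (σ : StabCond C) (t : ℝ) (x : K0 C) :
    σ.im t x = (σ.Z x * Complex.exp (-(Real.pi * t * Complex.I))).im := rfl

lemma StabCond.re_apply (σ : StabCond C) (t : ℝ) (x : K0 C) :
    σ.re t x = (σ.Z x * Complex.exp (-(Real.pi * t * Complex.I))).re := rfl

lemma StabCond.Z_eq (σ : StabCond C) (t : ℝ) (x : K0 C) :
    σ.Z x * Complex.exp (-(Real.pi * t * Complex.I)) = ⟨σ.re t x, σ.im t x⟩ := rfl

lemma norm_exp_rot (t : ℝ) : ‖Complex.exp (-(Real.pi * t * Complex.I))‖ = 1 := by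
  have : (-(Real.pi * t * Complex.I) : ℂ) = ((-(Real.pi * t) : ℝ) : ℂ) * Complex.I := by
    push_cast; ring
  rw [this, Complex.norm_exp_ofReal_mul_I]

lemma StabCond.norm_sq (σ : StabCond C) (t : ℝ) (x : K0 C) :
    ‖σ.Z x‖ ^ 2 = σ.re t x ^ 2 + σ.im t x ^ 2 := by
  have h1 : ‖σ.Z x‖ = ‖σ.Z x * Complex.exp (-(Real.pi * t * Complex.I))‖ := by
    rw [norm_mul, norm_exp_rot, mul_one]
  rw [h1, σ.Z_eq, ← Complex.normSq_eq_norm_sq, Complex.normSq_mk]
  ring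

lemma StabCond.abs_im_le (σ : StabCond C) (t : ℝ) (x : K0 C) : |σ.im t x| ≤ ‖σ.Z x‖ := by
  have h := σ.norm_sq t x
  exact abs_le_of_sq_le_sq (by nlinarith [sq_nonneg (σ.re t x)]) (norm_nonneg _)

lemma re_aux (m a b : ℝ) : ((m : ℂ) * ((a : ℂ) + (b : ℂ) * Complex.I)).re = m * a := by simp

lemma im_aux (m a b : ℝ) : ((m : ℂ) * ((a : ℂ) + (b : ℂ) * Complex.I)).im = m * b := by simp

/-- Real and imaginary part of the rotated charge of a semistable object. -/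
lemma StabCond.polar (σ : StabCond C) (t : ℝ) {φ : ℝ} {X : C} (hX : σ.sl.P φ X)
    (h0 : ¬ IsZero X) : 0 < ‖σ.Z (cls X)‖ ∧
      σ.re t (cls X) = ‖σ.Z (cls X)‖ * Real.cos (Real.pi * (φ - t)) ∧
      σ.im t (cls X) = ‖σ.Z (cls X)‖ * Real.sin (Real.pi * (φ - t)) := by
  obtain ⟨m, hm, hZ⟩ := σ.compat φ X hX h0
  have h1 : (Real.pi * φ * Complex.I : ℂ) = ((Real.pi * φ : ℝ) : ℂ) * Complex.I := by
    push_cast; ring
  have hnorm : ‖σ.Z (cls X)‖ = m := by
    rw [hZ, norm_mul, h1, Complex.norm_exp_ofReal_mul_I, Complex.norm_real, mul_one,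
      Real.norm_eq_abs, abs_of_pos hm]
  have h2 : σ.Z (cls X) * Complex.exp (-(Real.pi * t * Complex.I)) =
      m * (Real.cos (Real.pi * (φ - t)) + Real.sin (Real.pi * (φ - t)) * Complex.I) := by
    rw [hZ, mul_assoc, ← Complex.exp_add]
    have : (Real.pi * φ * Complex.I + -(Real.pi * t * Complex.I) : ℂ) =
        ((Real.pi * (φ - t) : ℝ) : ℂ) * Complex.I := by push_cast; ring
    rw [this, Complex.exp_mul_I, Complex.ofReal_cos, Complex.ofReal_sin]
  refine ⟨by rw [hnorm]; exact hm, ?_, ?_⟩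
  · rw [σ.re_apply, h2, hnorm, re_aux]
  · rw [σ.im_apply, h2, hnorm, im_aux]

lemma StabCond.im_nonneg_of_P (σ : StabCond C) {t φ : ℝ} {X : C} (hX : σ.sl.P φ X)
    (h1 : t < φ) (h2 : φ ≤ t + 1) : 0 ≤ σ.im t (cls X) := by
  by_cases h0 : IsZero X
  · rw [cls_of_isZero h0, map_zero]
  · obtain ⟨hpos, -, him⟩ := σ.polar t hX h0
    rw [him]
    refine mul_nonneg hpos.le (Real.sin_nonneg_of_nonneg_of_le_pi ?_ ?_)
    · exact mul_nonneg Real.pi_pos.le (by linarith)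
    · nlinarith [Real.pi_pos]

lemma StabCond.im_pos_of_P (σ : StabCond C) {t φ : ℝ} {X : C} (hX : σ.sl.P φ X)
    (h0 : ¬ IsZero X) (h1 : t < φ) (h2 : φ < t + 1) : 0 < σ.im t (cls X) := by
  obtain ⟨hpos, -, him⟩ := σ.polar t hX h0
  rw [him]
  refine mul_pos hpos (Real.sin_pos_of_pos_of_lt_pi ?_ ?_)
  · exact mul_pos Real.pi_pos (by linarith)
  · nlinarith [Real.pi_pos]

lemma StabCond.im_nonneg_of_HN (σ : StabCond C) {t : ℝ} {X : C} {l : List ℝ}
    (hX : HN σ.sl.P X l) (hl : ∀ φ ∈ l, φ ∈ Set.Ioc t (t + 1)) : 0 ≤ σ.im t (cls X) := by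
  induction hX with
  | zero h => rw [cls_of_isZero h, map_zero]
  | @step X Y A φ l hX hφ hA hA0 f g k hT ih =>
    rw [cls_mk hT, map_add]
    have h1 := ih (fun ψ hψ => hl ψ (by simp [hψ]))
    have h2 := hl φ (by simp)
    have h3 := σ.im_nonneg_of_P hA h2.1 h2.2
    linarith

lemma StabCond.im_nonneg (σ : StabCond C) {t : ℝ} {X : C} (hX : σ.sl.Heart t X) :
    0 ≤ σ.im t (cls X) := by
  obtain ⟨l, hl, hI⟩ := hX
  exact σ.im_nonneg_of_HN hl hI

lemma StabCond.P_of_im_HN (σ : StabCond C) {t : ℝ} {X : C} {l : List ℝ}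
    (hX : HN σ.sl.P X l) (hl : ∀ φ ∈ l, φ ∈ Set.Ioc t (t + 1)) (h0 : σ.im t (cls X) ≤ 0) :
    ∀ φ ∈ l, φ = t + 1 := by
  induction hX with
  | zero h => simp
  | @step X Y A φ l hX hφ hA hA0 f g k hT ih =>
    rw [cls_mk hT, map_add] at h0
    have h1 := σ.im_nonneg_of_HN hX (fun ψ hψ => hl ψ (by simp [hψ]))
    have h2 := hl φ (by simp)
    have h3 := σ.im_nonneg_of_P hA h2.1 h2.2
    have h4 := ih (fun ψ hψ => hl ψ (by simp [hψ])) (by linarith)
    intro ψ hψ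
    rcases List.mem_cons.1 hψ with rfl | h
    · by_contra hne
      have h5 := σ.im_pos_of_P hA hA0 h2.1 (lt_of_le_of_ne h2.2 hne)
      linarith
    · exact h4 ψ h

/-- An object of the heart with zero imaginary part is semistable of phase `t + 1`. -/
lemma StabCond.P_of_im (σ : StabCond C) {t : ℝ} {X : C} (hX : σ.sl.Heart t X)
    (h0 : σ.im t (cls X) = 0) : σ.sl.P (t + 1) X := by
  obtain ⟨l, hl, hI⟩ := hX
  exact Slicing.In.P_of_singleton ⟨l, hl, fun φ hφ => σ.P_of_im_HN hl hI h0.le φ hφ⟩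

lemma StabCond.im_of_P (σ : StabCond C) {t : ℝ} {X : C} (hX : σ.sl.P (t + 1) X) :
    σ.im t (cls X) = 0 := by
  by_cases h0 : IsZero X
  · rw [cls_of_isZero h0, map_zero]
  · obtain ⟨-, -, him⟩ := σ.polar t hX h0
    rw [him]
    have : Real.pi * (t + 1 - t) = Real.pi := by ring
    rw [this, Real.sin_pi, mul_zero]

lemma StabCond.re_neg_of_P (σ : StabCond C) {t : ℝ} {X : C} (hX : σ.sl.P (t + 1) X)
    (h0 : ¬ IsZero X) : σ.re t (cls X) < 0 := by
  obtain ⟨hpos, hre, -⟩ := σ.polar t hX h0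
  rw [hre]
  have : Real.pi * (t + 1 - t) = Real.pi := by ring
  rw [this, Real.cos_pi]
  linarith

/-- `P(t+1)` is closed under subobjects and quotients in the heart `P(t, t+1]`. -/
lemma StabCond.P_sub_quot (σ : StabCond C) {t : ℝ} {X Y Z : C} {f : X ⟶ Y} {g : Y ⟶ Z}
    {h : Z ⟶ X⟦(1 : ℤ)⟧} (hT : Triangle.mk f g h ∈ distTriang C) (hX : σ.sl.Heart t X)
    (hZ : σ.sl.Heart t Z) (hY : σ.sl.P (t + 1) Y) : σ.sl.P (t + 1) X ∧ σ.sl.P (t + 1) Z := by
  have h1 := σ.im_of_P hY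
  rw [cls_mk hT, map_add] at h1
  have h2 := σ.im_nonneg hX
  have h3 := σ.im_nonneg hZ
  exact ⟨σ.P_of_im hX (by linarith), σ.P_of_im hZ (by linarith)⟩

/-- Stable objects: simple objects of `P(φ)`. -/
def StabCond.Stable (σ : StabCond C) (φ : ℝ) (X : C) : Prop := SimpleIn (σ.sl.P φ) X

lemma StabCond.Stable.simple {σ : StabCond C} {t : ℝ} {X : C} (hX : σ.Stable (t + 1) X) :
    SimpleIn (σ.sl.Heart t) X := by
  refine ⟨Slicing.heart_of_P hX.1 (by linarith) le_rfl, hX.2.1, ?_⟩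
  intro Y Z f g h hT hY hZ
  obtain ⟨h1, h2⟩ := σ.P_sub_quot hT hY hZ hX.1
  exact hX.2.2 Y Z f g h hT h1 h2

/-- Semistable objects have charge bounded away from zero. -/
lemma StabCond.finite_classes [Module.Finite ℤ (K0 C)] [Module.Free ℤ (K0 C)] (σ : StabCond C)
    (M : ℝ) : {x : K0 C | (∃ φ X, σ.sl.P φ X ∧ cls X = x) ∧ ‖σ.Z x‖ ≤ M}.Finite := by
  obtain ⟨N, c, hN, hc, hs⟩ := σ.support
  refine (finite_of_norm_le N hN (c * M)).subset ?_
  rintro x ⟨⟨φ, X, hX, rfl⟩, hM⟩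
  exact (hs φ X hX).trans (mul_le_mul_of_nonneg_left hM hc.le)

lemma StabCond.exists_eps [Module.Finite ℤ (K0 C)] [Module.Free ℤ (K0 C)] (σ : StabCond C) :
    ∃ ε : ℝ, 0 < ε ∧ ∀ φ X, σ.sl.P φ X → ¬ IsZero X → ε ≤ ‖σ.Z (cls X)‖ := by
  have hfin := σ.finite_classes 1
  set T : Set ℝ := (fun x => ‖σ.Z x‖) '' {x : K0 C | (∃ φ X, σ.sl.P φ X ∧ cls X = x) ∧
    ‖σ.Z x‖ ≤ 1} ∩ Set.Ioi 0 with hTdef
  have hTfin : T.Finite := (hfin.image _).inter_of_left _
  by_cases hne : T.Nonempty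
  · obtain ⟨ε, hε, hmin⟩ := Set.exists_min_image T id hTfin hne
    refine ⟨ε, hε.2, ?_⟩
    intro φ X hX h0
    have hpos := (σ.polar 0 hX h0).1
    by_cases h1 : ‖σ.Z (cls X)‖ ≤ 1
    · exact hmin _ ⟨⟨cls X, ⟨⟨φ, X, hX, rfl⟩, h1⟩, rfl⟩, hpos⟩
    · obtain ⟨⟨x, hx, hxe⟩, -⟩ := hε
      have : ε ≤ 1 := by rw [← hxe]; exact hx.2
      linarith
  · refine ⟨1, one_pos, ?_⟩
    intro φ X hX h0
    by_contra h1
    push Not at h1
    exact hne ⟨_, ⟨cls X, ⟨⟨φ, X, hX, rfl⟩, h1.le⟩, rfl⟩, (σ.polar 0 hX h0).1⟩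

end Pool.Stab
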