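import Mathlib
import Pool.Agent.Work.MP_841263_st.Charge

/-!
# Density of phases and injectivity of the central charge on the radical
-/

open CategoryTheory CategoryTheory.Limits CategoryTheory.Pretriangulated
open scoped ZeroObject TensorProduct

set_option backward.isDefEq.respectTransparency false
set_option backward.defeqAttrib.useBackward true
set_option linter.unusedSectionVars false

namespace Pool.Stab

universe v u

variable {C : Type u} [Category.{v} C] [Preadditive C] [HasZeroObject C] [HasShift C ℤ]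
  [∀ n : ℤ, (shiftFunctor C n).Additive] [Pretriangulated C]

/-- `re φ` is the norm of the charge on `P(φ)`. -/
lemma StabCond.re_eq_norm (σ : StabCond C) {φ : ℝ} {X : C} (hX : σ.sl.P φ X) :
    σ.re φ (cls X) = ‖σ.Z (cls X)‖ := by
  by_cases h0 : IsZero X
  · rw [cls_of_isZero h0, map_zero, map_zero, norm_zero]
  · obtain ⟨-, hre, -⟩ := σ.polar φ hX h0
    rw [hre, sub_self, mul_zero, Real.cos_zero, mul_one]

/-- A heart on which the imaginary part is bounded below has finite length. -/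
lemma gen_simple_of_bound {A : C → Prop} {F : K0 C →+ ℝ} {ε : ℝ} (hε : 0 < ε)
    (hb : ∀ X, A X → ¬ IsZero X → ε ≤ F (cls X)) (X : C) (hX : A X) :
    Gen (SimpleIn A) X := by
  have key : ∀ (n : ℕ) (X : C), A X → F (cls X) < n * ε → Gen (SimpleIn A) X := by
    intro n
    induction n with
    | zero =>
      intro X hX hlt
      by_cases h0 : IsZero X
      · exact Gen.zero h0
      · have := hb X hX h0
        simp only [CharP.cast_eq_zero, zero_mul] at hlt
        linarith
    | succ n ih =>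
      intro X hX hlt
      by_cases h0 : IsZero X
      · exact Gen.zero h0
      by_cases hs : SimpleIn A X
      · exact Gen.of hs
      have hex : ∃ (Y Z : C) (f : Y ⟶ X) (g : X ⟶ Z) (h : Z ⟶ Y⟦(1 : ℤ)⟧),
          Triangle.mk f g h ∈ distTriang C ∧ A Y ∧ A Z ∧ ¬ IsZero Y ∧ ¬ IsZero Z := by
        by_contra hcon
        apply hs
        refine ⟨hX, h0, ?_⟩
        intro Y Z f g h hT hY hZ
        by_contra h'
        rw [not_or] at h'
        exact hcon ⟨Y, Z, f, g, h, hT, hY, hZ, h'.1, h'.2⟩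
      obtain ⟨Y, Z, f, g, h, hT, hY, hZ, hY0, hZ0⟩ := hex
      have h1 := hb Y hY hY0
      have h2 := hb Z hZ hZ0
      have h3 : F (cls X) = F (cls Y) + F (cls Z) := by rw [cls_mk hT, map_add]
      push_cast at hlt
      refine Gen.ext hT (ih Y hY ?_) (ih Z hZ ?_) <;> linarith
  obtain ⟨n, hn⟩ := exists_nat_gt (F (cls X) / ε)
  exact key n X hX (by rwa [div_lt_iff₀ hε] at hn)

/-- Every semistable object is an iterated extension of stable objects of the same phase. -/
lemma StabCond.gen_stable [Module.Finite ℤ (K0 C)] [Module.Free ℤ (K0 C)] (σ : StabCond C)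
    {φ : ℝ} {X : C} (hX : σ.sl.P φ X) : Gen (σ.Stable φ) X := by
  obtain ⟨ε, hε, hb⟩ := σ.exists_eps
  refine gen_simple_of_bound (F := σ.re φ) hε ?_ X hX
  intro Y hY h0
  rw [σ.re_eq_norm hY]
  exact hb φ Y hY h0

lemma Gen.exists_of {G : C → Prop} {X : C} (h : Gen G X) (h0 : ¬ IsZero X) : ∃ Y, G Y := by
  by_contra hcon
  push Not at hcon
  apply h0
  clear h0
  induction h with
  | zero h => exact h
  | of h => exact absurd h (hcon _)
  | ext hT _ _ h1 h2 => exact Triangle.isZero₂_of_isZero₁₃ _ hT h1 h2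

lemma StabCond.exists_stable [Module.Finite ℤ (K0 C)] [Module.Free ℤ (K0 C)] (σ : StabCond C)
    {φ : ℝ} {X : C} (hX : σ.sl.P φ X) (h0 : ¬ IsZero X) : ∃ Y, σ.Stable φ Y :=
  (σ.gen_stable hX).exists_of h0

lemma sin_ge_of_mem {d x : ℝ} (hd0 : 0 ≤ d) (hd : d ≤ Real.pi / 2) (h1 : d ≤ x)
    (h2 : x ≤ Real.pi - d) : Real.sin d ≤ Real.sin x := by
  rcases le_total x (Real.pi / 2) with h | h
  · exact Real.sin_le_sin_of_le_of_le_pi_div_two (by linarith [Real.pi_pos]) h h1
  · rw [← Real.sin_pi_sub x]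
    exact Real.sin_le_sin_of_le_of_le_pi_div_two (by linarith [Real.pi_pos]) (by linarith)
      (by linarith)

section Linear

variable [Linear ℂ C] [∀ n : ℤ, (shiftFunctor C n).Linear ℂ]

/-- The radical has rank at least two. -/
def RankTwoLe (hK : IsK3 C) : Prop :=
  ∃ x ∈ radical (eulerForm hK), ∃ y ∈ radical (eulerForm hK),
    ∀ n m : ℤ, n • x = m • y → n = 0 ∧ m = 0

/-- No heart `P(t, t+1]` has finite length. -/
theorem not_finite_length [IsTriangulated C] {S : Slicing C} (hK : IsK3 C)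
    (hB : IsPSD (eulerForm hK)) (hind : Indecomposable C) (h2 : RankTwoLe hK) (t : ℝ) :
    ¬ ∀ X, S.Heart t X → Gen (SimpleIn (S.Heart t)) X := by
  intro hFL
  obtain ⟨x, hx, y, hy, hxy⟩ := h2
  obtain ⟨n, m, hne, h⟩ := Slicing.rank_theorem hK hB hind hFL x hx y hy
  obtain ⟨h1, h2⟩ := hxy n m h
  rcases hne with h | h
  · exact h h1
  · exact h h2

/-- The phases of semistable objects are dense. -/
theorem StabCond.phases_dense [IsTriangulated C] [Module.Finite ℤ (K0 C)]
    [Module.Free ℤ (K0 C)] (σ : StabCond C) (hK : IsK3 C) (hB : IsPSD (eulerForm hK))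
    (hind : Indecomposable C) (h2 : RankTwoLe hK) {a b : ℝ} (hab : a < b) :
    ∃ φ ∈ Set.Ioo a b, ∃ X, σ.sl.P φ X ∧ ¬ IsZero X := by
  by_contra hcon
  push Not at hcon
  obtain ⟨ε, hε, hb⟩ := σ.exists_eps
  -- shrink the interval
  set d : ℝ := min ((b - a) / 2) (1 / 2) with hd
  have hd0 : 0 < d := lt_min (by linarith) (by norm_num)
  have hd1 : d ≤ 1 / 2 := min_le_right _ _
  have hd2 : d ≤ (b - a) / 2 := min_le_left _ _
  set t : ℝ := (a + b) / 2 with ht
  have hzero : ∀ φ ∈ Set.Ioo (t - d) (t + d), ∀ X, σ.sl.P φ X → IsZero X := by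
    intro φ hφ X hX
    refine hcon φ ⟨?_, ?_⟩ X hX
    · have := hφ.1; linarith
    · have := hφ.2; linarith
  have hphase : ∀ φ ∈ Set.Ioc t (t + 1), ∀ X, σ.sl.P φ X → ¬ IsZero X →
      t + d ≤ φ ∧ φ ≤ t + 1 - d := by
    intro φ hφ X hX h0
    constructor
    · by_contra h
      push Not at h
      exact h0 (hzero φ ⟨by linarith [hφ.1], h⟩ X hX)
    · by_contra h
      push Not at h
      have h1 := σ.sl.P_shift_neg_one φ X hX
      have h3 := hzero (φ - 1) ⟨by linarith, by linarith [hφ.2]⟩ _ h1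
      exact h0 ((isZero_shift_iff _ _).1 h3)
  have hsin : 0 < Real.sin (Real.pi * d) :=
    Real.sin_pos_of_pos_of_lt_pi (by positivity) (by nlinarith [Real.pi_pos])
  have hlow : ∀ φ ∈ Set.Ioc t (t + 1), ∀ X, σ.sl.P φ X → ¬ IsZero X →
      ε * Real.sin (Real.pi * d) ≤ σ.im t (cls X) := by
    intro φ hφ X hX h0
    obtain ⟨h1, h3⟩ := hphase φ hφ X hX h0
    obtain ⟨hpos, -, him⟩ := σ.polar t hX h0
    rw [him]
    have h4 := hb φ X hX h0
    have h5 : Real.sin (Real.pi * d) ≤ Real.sin (Real.pi * (φ - t)) := by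
      apply sin_ge_of_mem
      · positivity
      · nlinarith [Real.pi_pos]
      · nlinarith [Real.pi_pos]
      · nlinarith [Real.pi_pos]
    exact mul_le_mul h4 h5 hsin.le hpos.le
  refine not_finite_length hK hB hind h2 t (S := σ.sl) ?_
  intro X hX
  refine gen_simple_of_bound (F := σ.im t) (mul_pos hε hsin) ?_ X hX
  intro Y hY h0
  obtain ⟨l, hl, hI⟩ := hY
  cases hl with
  | zero h => exact absurd h h0
  | @step Y' Y A φ l hX' hφ hA hA0 f g k hT =>
    rw [cls_mk hT, map_add]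
    have h1 := σ.im_nonneg_of_HN hX' (fun ψ hψ => hI ψ (by simp [hψ]))
    have h3 := hlow φ (hI φ (by simp)) A hA hA0
    linarith

/-- Two objects of `P(φ)`, `P(ψ)` of the same class with close phases have equal phases. -/
lemma StabCond.phase_unique (σ : StabCond C) {φ ψ : ℝ} {X Y : C} (hX : σ.sl.P φ X)
    (hY : σ.sl.P ψ Y) (h0 : ¬ IsZero X) (h0' : ¬ IsZero Y) (hc : cls X = cls Y)
    (lam : ℝ) (h1 : φ ∈ Set.Icc lam (lam + 1)) (h2 : ψ ∈ Set.Icc lam (lam + 1)) : φ = ψ := by
  obtain ⟨hp, hre, -⟩ := σ.polar lam hX h0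
  obtain ⟨-, hre', -⟩ := σ.polar lam hY h0'
  rw [← hc, hre] at hre'
  have h3 := mul_left_cancel₀ hp.ne' hre'
  have h4 := Real.injOn_cos
    (⟨by nlinarith [Real.pi_pos, h1.1], by nlinarith [Real.pi_pos, h1.2]⟩ :
      Real.pi * (φ - lam) ∈ Set.Icc 0 Real.pi)
    (⟨by nlinarith [Real.pi_pos, h2.1], by nlinarith [Real.pi_pos, h2.2]⟩ :
      Real.pi * (ψ - lam) ∈ Set.Icc 0 Real.pi) h3
  have h5 := mul_left_cancel₀ Real.pi_pos.ne' h4
  linarith

/-- There is no line containing the image of the radical. -/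
theorem StabCond.radical_not_line [IsTriangulated C] [Module.Finite ℤ (K0 C)]
    [Module.Free ℤ (K0 C)] (σ : StabCond C) (hK : IsK3 C) (hB : IsPSD (eulerForm hK))
    (hind : Indecomposable C) (h2 : RankTwoLe hK) (lam : ℝ) :
    ¬ ∀ x ∈ radical (eulerForm hK), σ.im lam x = 0 := by
  intro hline
  obtain ⟨F, hF⟩ := hB.finite_mod_radical 2
  -- a bound for the distance to the line
  set D : ℝ := ∑ f ∈ F, |σ.im lam f| with hD
  have hbound : ∀ φ X, σ.Stable φ X → |σ.im lam (cls X)| ≤ D := by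
    intro φ X hX
    have hX' : SimpleIn (σ.sl.Heart (φ - 1)) X :=
      StabCond.Stable.simple (by simpa using hX)
    obtain ⟨f, hfF, hf⟩ := hF (cls X) (by
      rw [eulerForm_cls]; exact hX'.eulerChar_self_le hK)
    have h1 : σ.im lam (cls X) = σ.im lam f := by
      have := hline _ hf
      rw [map_sub] at this
      linarith
    rw [h1]
    exact Finset.single_le_sum (f := fun f => |σ.im lam f|) (fun i _ => abs_nonneg _) hfF
  set I : Set ℝ := Set.Ioo (lam + 1 / 4) (lam + 3 / 4) with hI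
  set Ph : Set ℝ := {φ | φ ∈ I ∧ ∃ X, σ.Stable φ X} with hPh
  have hPhfin : Ph.Finite := by
    have hch : ∀ φ : ℝ, ∃ X : C, (∃ Y, σ.Stable φ Y) → σ.Stable φ X := by
      intro φ
      by_cases h : ∃ Y, σ.Stable φ Y
      · obtain ⟨Y, hY⟩ := h
        exact ⟨Y, fun _ => hY⟩
      · exact ⟨0, fun h' => absurd h' h⟩
    choose r hr using hch
    refine Set.Finite.of_finite_image (f := fun φ => cls (r φ)) ?_ ?_
    · refine (σ.finite_classes (2 * D)).subset ?_
      rintro _ ⟨φ, ⟨hφI, hφ⟩, rfl⟩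
      have hst := hr φ hφ
      refine ⟨⟨φ, r φ, hst.1, rfl⟩, ?_⟩
      have h1 := hbound φ _ hst
      obtain ⟨hpos, -, him⟩ := σ.polar lam hst.1 hst.2.1
      have h3 : 1 / 2 ≤ Real.sin (Real.pi * (φ - lam)) := by
        have h4 : Real.sin (Real.pi / 6) ≤ Real.sin (Real.pi * (φ - lam)) := by
          apply sin_ge_of_mem
          · positivity
          · linarith [Real.pi_pos]
          · nlinarith [Real.pi_pos, hφI.1]
          · nlinarith [Real.pi_pos, hφI.2]
        rwa [Real.sin_pi_div_six] at h4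
      have h5 : ‖σ.Z (cls (r φ))‖ * (1 / 2) ≤ |σ.im lam (cls (r φ))| := by
        rw [him, abs_of_nonneg (mul_nonneg hpos.le (by linarith))]
        exact mul_le_mul_of_nonneg_left h3 hpos.le
      linarith
    · rintro φ ⟨hφI, hφ⟩ ψ ⟨hψI, hψ⟩ heq
      have h1 := hr φ hφ
      have h3 := hr ψ hψ
      exact σ.phase_unique h1.1 h3.1 h1.2.1 h3.2.1 heq lam
        ⟨by linarith [hφI.1], by linarith [hφI.2]⟩ ⟨by linarith [hψI.1], by linarith [hψI.2]⟩
  -- an open interval in `I` avoiding `Ph`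
  have hopen : IsOpen (I ∩ Phᶜ) := isOpen_Ioo.inter hPhfin.isClosed.isOpen_compl
  have hne : (I ∩ Phᶜ).Nonempty := by
    have hinf : I.Infinite := Set.Ioo_infinite (by linarith)
    exact (hinf.diff hPhfin).nonempty
  obtain ⟨x, hx⟩ := hne
  obtain ⟨δ, hδ, hball⟩ := Metric.isOpen_iff.1 hopen x hx
  obtain ⟨φ, hφ, X, hX, h0⟩ := σ.phases_dense hK hB hind h2
    (show x - δ < x + δ by linarith)
  obtain ⟨Y, hY⟩ := σ.exists_stable hX h0
  have h3 : φ ∈ I ∩ Phᶜ := hball (by
    rw [Real.ball_eq_Ioo]; exact hφ)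
  exact h3.2 ⟨h3.1, Y, hY⟩

end Linear

end Pool.Stab
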