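import Mathlib
import Pool.Agent.Work.MP_841263_st.Dense

/-!
# Configurations of least mass
-/

open CategoryTheory CategoryTheory.Limits CategoryTheory.Pretriangulated
open scoped ZeroObject TensorProduct

set_option backward.isDefEq.respectTransparency false
set_option backward.defeqAttrib.useBackward true
set_option linter.unusedSectionVars false

namespace Pool.Stab

universe v u

variable {C : Type u} [Category.{v} C] [Preadditive C] [HasZeroObject C] [HasShift C ℤ]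
  [∀ n : ℤ, (shiftFunctor C n).Additive] [Pretriangulated C]

/-- The classes of nonzero semistable objects. -/
def StabCond.SS (σ : StabCond C) : Set (K0 C) :=
  {x | ∃ φ X, σ.sl.P φ X ∧ ¬ IsZero X ∧ cls X = x}

/-- The mass of a multiset of classes. -/
noncomputable def StabCond.mass (σ : StabCond C) (s : Multiset (K0 C)) : ℝ :=
  (s.map (fun x => ‖σ.Z x‖)).sum

lemma StabCond.mass_zero (σ : StabCond C) : σ.mass 0 = 0 := by simp [StabCond.mass]

lemma StabCond.mass_add (σ : StabCond C) (s t : Multiset (K0 C)) :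
    σ.mass (s + t) = σ.mass s + σ.mass t := by simp [StabCond.mass]

lemma StabCond.mass_singleton (σ : StabCond C) (x : K0 C) : σ.mass {x} = ‖σ.Z x‖ := by
  simp [StabCond.mass]

lemma StabCond.mass_cons (σ : StabCond C) (x : K0 C) (s : Multiset (K0 C)) :
    σ.mass (x ::ₘ s) = ‖σ.Z x‖ + σ.mass s := by simp [StabCond.mass]

lemma StabCond.mass_neg (σ : StabCond C) (s : Multiset (K0 C)) :
    σ.mass (s.map (fun x => -x)) = σ.mass s := by
  simp [StabCond.mass, Multiset.map_map, map_neg, norm_neg]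

lemma StabCond.SS_neg (σ : StabCond C) {x : K0 C} (hx : x ∈ σ.SS) : -x ∈ σ.SS := by
  obtain ⟨φ, X, hX, h0, rfl⟩ := hx
  exact ⟨φ + 1, X⟦(1 : ℤ)⟧, (σ.sl.shift_mem φ X).1 hX, fun h => h0 ((isZero_shift_iff _ _).1 h),
    cls_shift_one X⟩

lemma StabCond.Z_ne_zero (σ : StabCond C) {φ : ℝ} {X : C} (hX : σ.sl.P φ X)
    (hZ : σ.Z (cls X) = 0) : IsZero X := by
  by_contra h0
  have := (σ.polar 0 hX h0).1
  rw [hZ, norm_zero] at this
  exact lt_irrefl _ this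

/-- The HN factors of an object form a configuration. -/
lemma StabCond.config_of_HN (σ : StabCond C) {X : C} {l : List ℝ} (hX : HN σ.sl.P X l) :
    ∃ s : Multiset (K0 C), (∀ x ∈ s, x ∈ σ.SS) ∧ s.sum = cls X := by
  induction hX with
  | zero h => exact ⟨0, by simp, by simp [cls_of_isZero h]⟩
  | @step X Y A φ l hX hφ hA hA0 f g k hT ih =>
    obtain ⟨s, hs, hsum⟩ := ih
    refine ⟨cls A ::ₘ s, ?_, ?_⟩
    · intro x hx
      rcases Multiset.mem_cons.1 hx with rfl | h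
      · exact ⟨φ, A, hA, hA0, rfl⟩
      · exact hs x h
    · rw [Multiset.sum_cons, hsum, cls_mk hT, add_comm]

lemma StabCond.exists_config (σ : StabCond C) (α : K0 C) :
    ∃ s : Multiset (K0 C), (∀ x ∈ s, x ∈ σ.SS) ∧ s.sum = α := by
  obtain ⟨X, rfl⟩ := exists_cls α
  obtain ⟨l, hl⟩ := σ.sl.exists_HN X
  exact σ.config_of_HN hl

/-- The mass estimate for an object with HN phases in `[φ₂, φ₁]`. -/
lemma StabCond.mass_le (σ : StabCond C) {φ₁ φ₂ : ℝ} (h12 : φ₂ < φ₁) (h12' : φ₁ < φ₂ + 1)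
    {X : C} {l : List ℝ} (hX : HN σ.sl.P X l) (hl : ∀ ψ ∈ l, ψ ∈ Set.Icc φ₂ φ₁) :
    ∃ s : Multiset (K0 C), (∀ x ∈ s, x ∈ σ.SS) ∧ s.sum = cls X ∧
      σ.mass s * Real.cos (Real.pi * (φ₁ - φ₂) / 2) ≤ σ.re ((φ₁ + φ₂) / 2) (cls X) ∧
      ((∃ ψ ∈ l, ψ ≠ φ₁ ∧ ψ ≠ φ₂) →
        σ.mass s * Real.cos (Real.pi * (φ₁ - φ₂) / 2) < σ.re ((φ₁ + φ₂) / 2) (cls X)) := by
  have hpi := Real.pi_pos
  induction hX with
  | zero h => exact ⟨0, by simp, by simp [cls_of_isZero h], by simp [cls_of_isZero h,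
      StabCond.mass_zero], by simp⟩
  | @step X Y A ψ l hX hφ hA hA0 f g k hT ih =>
    obtain ⟨s, hs, hsum, hle, hlt⟩ := ih (fun χ hχ => hl χ (by simp [hχ]))
    have hψ := hl ψ (by simp)
    obtain ⟨hpos, hre, -⟩ := σ.polar ((φ₁ + φ₂) / 2) hA hA0
    have habs : |Real.pi * (ψ - (φ₁ + φ₂) / 2)| ≤ Real.pi * (φ₁ - φ₂) / 2 := by
      rw [abs_le]
      constructor <;> nlinarith [hψ.1, hψ.2]
    have hcos : Real.cos (Real.pi * (φ₁ - φ₂) / 2) ≤
        Real.cos (Real.pi * (ψ - (φ₁ + φ₂) / 2)) := by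
      rw [← Real.cos_abs (Real.pi * (ψ - (φ₁ + φ₂) / 2))]
      exact Real.cos_le_cos_of_nonneg_of_le_pi (abs_nonneg _) (by nlinarith) habs
    have hA1 : ‖σ.Z (cls A)‖ * Real.cos (Real.pi * (φ₁ - φ₂) / 2) ≤
        σ.re ((φ₁ + φ₂) / 2) (cls A) := by
      rw [hre]
      exact mul_le_mul_of_nonneg_left hcos hpos.le
    refine ⟨cls A ::ₘ s, ?_, ?_, ?_, ?_⟩
    · intro x hx
      rcases Multiset.mem_cons.1 hx with rfl | h
      · exact ⟨ψ, A, hA, hA0, rfl⟩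
      · exact hs x h
    · rw [Multiset.sum_cons, hsum, cls_mk hT, add_comm]
    · rw [StabCond.mass_cons, cls_mk hT, map_add, add_mul]
      linarith
    · rintro ⟨χ, hχ, hχ1, hχ2⟩
      rw [StabCond.mass_cons, cls_mk hT, map_add, add_mul]
      rcases List.mem_cons.1 hχ with rfl | h
      · have habs' : |Real.pi * (χ - (φ₁ + φ₂) / 2)| < Real.pi * (φ₁ - φ₂) / 2 := by
          have h1 : χ < φ₁ := lt_of_le_of_ne hψ.2 hχ1
          have h2 : φ₂ < χ := lt_of_le_of_ne hψ.1 (Ne.symm hχ2)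
          rw [abs_lt]
          constructor <;> nlinarith
        have hcos' : Real.cos (Real.pi * (φ₁ - φ₂) / 2) <
            Real.cos (Real.pi * (χ - (φ₁ + φ₂) / 2)) := by
          rw [← Real.cos_abs (Real.pi * (χ - (φ₁ + φ₂) / 2))]
          exact Real.cos_lt_cos_of_nonneg_of_le_pi (abs_nonneg _) (by nlinarith) habs'
        have hA2 : ‖σ.Z (cls A)‖ * Real.cos (Real.pi * (φ₁ - φ₂) / 2) <
            σ.re ((φ₁ + φ₂) / 2) (cls A) := by
          rw [hre]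
          exact mul_lt_mul_of_pos_left hcos' hpos
        linarith
      · have := hlt ⟨χ, h, hχ1, hχ2⟩
        linarith

/-- An extension of `U` by `V` (phases `φ₁ > φ₂`) with HN phases in `{φ₁, φ₂}` splits. -/
lemma StabCond.split_of_phases [IsTriangulated C] (σ : StabCond C) {φ₁ φ₂ : ℝ} (h12 : φ₂ < φ₁)
    (h12' : φ₁ < φ₂ + 1) {U V G : C} (hU : σ.sl.P φ₁ U) (hV : σ.sl.P φ₂ V)
    {a : V ⟶ G} {b : G ⟶ U} {h : U ⟶ V⟦(1 : ℤ)⟧} (hT : Triangle.mk a b h ∈ distTriang C)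
    {l : List ℝ} (hl : HN σ.sl.P G l) (hlI : ∀ ψ ∈ l, ψ = φ₁ ∨ ψ = φ₂) : h = 0 := by
  classical
  obtain ⟨H₁, H₂, c, d, e, hT', hH₁, hH₂⟩ := hl.trunc (Set.Ici φ₁) (isUpperSet_Ici _)
  have hH₁P : σ.sl.P φ₁ H₁ := by
    refine Slicing.In.P_of_singleton ⟨_, hH₁, ?_⟩
    intro φ hφ
    obtain ⟨h1, h2⟩ := List.mem_filter.1 hφ
    have h3 : φ₁ ≤ φ := by simpa using h2
    rcases hlI φ h1 with h | h
    · exact h
    · exfalso; linarith
  have hH₂P : σ.sl.P φ₂ H₂ := by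
    refine Slicing.In.P_of_singleton ⟨_, hH₂, ?_⟩
    intro φ hφ
    obtain ⟨h1, h2⟩ := List.mem_filter.1 hφ
    have h3 : φ < φ₁ := by simpa using h2
    rcases hlI φ h1 with h | h
    · exfalso; linarith
    · exact h
  have e1 : φ₁ - 1 + 1 = φ₁ := by ring
  have hH₁' : σ.sl.P (φ₁ - 1 + 1) H₁ := by rw [e1]; exact hH₁P
  have hU' : σ.sl.P (φ₁ - 1 + 1) U := by rw [e1]; exact hU
  obtain ⟨K, I, Q, i, p, δ, j, q, ε, hT1, hT2, hK, hI, hQ, hpj⟩ :=
    Slicing.exists_KIQ (S := σ.sl) (t := φ₁ - 1)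
      (Slicing.heart_of_P hH₁P (by linarith) (by linarith))
      (Slicing.heart_of_P hU (by linarith) (by linarith)) (c ≫ b)
  have hKP := (σ.P_sub_quot hT1 hK hI hH₁').1
  have hQP := (σ.P_sub_quot hT2 hI hQ hU').2
  rw [e1] at hKP hQP
  -- K = 0
  have hKc : i ≫ c = 0 := by
    have h1 : (i ≫ c) ≫ b = 0 := by
      have h2 : i ≫ p = 0 := comp_distTriang_mor_zero₁₂ _ hT1
      rw [Category.assoc, ← hpj, reassoc_of% h2, zero_comp]
    obtain ⟨r, hr⟩ := Triangle.coyoneda_exact₂ _ hT (i ≫ c) h1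
    have hr' : i ≫ c = r ≫ a := hr
    rw [hr', σ.sl.hom_zero h12 hKP hV r, zero_comp]
  have hi : i = 0 := by
    obtain ⟨a', c', hT3⟩ := exists_invrot hT'
    obtain ⟨r, hr⟩ := Triangle.coyoneda_exact₂ _ hT3 i hKc
    have hr' : i = r ≫ a' := hr
    rw [hr', σ.sl.hom_zero (show φ₂ - 1 < φ₁ by linarith) hKP
      (σ.sl.P_shift_neg_one _ _ hH₂P) r, zero_comp]
  have hK0 : IsZero K := isZero₁_of_mor₁ hT1 hi (fun r => σ.sl.hom_zero
    (show φ₁ < φ₁ + 1 by linarith) ((σ.sl.shift_mem _ _).1 hKP)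
    (by
      have := (σ.P_sub_quot hT1 hK hI hH₁').2
      rwa [e1] at this) r)
  have hp : IsIso p := iso_of_isZero₁ hT1 hK0
  -- charges
  have hsinpos : 0 < Real.sin (Real.pi * (φ₁ - φ₂)) :=
    Real.sin_pos_of_pos_of_lt_pi (mul_pos Real.pi_pos (by linarith))
      (by nlinarith [Real.pi_pos])
  have hZ : σ.im φ₂ (cls H₁) = σ.im φ₂ (cls U) := by
    have h1 : cls G = cls V + cls U := cls_mk hT
    have h2 : cls G = cls H₁ + cls H₂ := cls_mk hT'
    have h3 : σ.im φ₂ (cls V) = 0 := by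
      have := σ.im_of_P (t := φ₂ - 1) (X := V) (by rw [sub_add_cancel]; exact hV)
      by_cases h0 : IsZero V
      · rw [cls_of_isZero h0, map_zero]
      · obtain ⟨-, -, h⟩ := σ.polar φ₂ hV h0
        rw [h]; simp
    have h4 : σ.im φ₂ (cls H₂) = 0 := by
      by_cases h0 : IsZero H₂
      · rw [cls_of_isZero h0, map_zero]
      · obtain ⟨-, -, h⟩ := σ.polar φ₂ hH₂P h0
        rw [h]; simp
    have h5 := congrArg (σ.im φ₂) (h2.symm.trans h1)
    rw [map_add, map_add, h3, h4] at h5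
    linarith
  have hQim : σ.im φ₂ (cls Q) = 0 := by
    have h1 : cls U = cls I + cls Q := cls_mk hT2
    have h2 : cls H₁ = cls K + cls I := cls_mk hT1
    rw [cls_of_isZero hK0, zero_add] at h2
    have h3 := congrArg (σ.im φ₂) h1
    rw [map_add, ← h2, hZ] at h3
    linarith
  have hQ0 : IsZero Q := by
    by_contra h0
    obtain ⟨hpos, -, him⟩ := σ.polar φ₂ hQP h0
    rw [hQim] at him
    have := mul_pos hpos hsinpos
    linarith
  have hj : IsIso j := iso_of_isZero₃ hT2 hQ0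
  have hcb : IsIso (c ≫ b) := by rw [← hpj]; infer_instance
  have hbh : b ≫ h = 0 := comp_distTriang_mor_zero₂₃ _ hT
  have hfin : (c ≫ b) ≫ h = 0 := by rw [Category.assoc, hbh, comp_zero]
  rw [← cancel_epi (c ≫ b), hfin, comp_zero]

/-- **Strict mass inequality** for nonsplit extensions. -/
lemma StabCond.strict_mass [IsTriangulated C] (σ : StabCond C) {φ₁ φ₂ : ℝ} (h12 : φ₂ < φ₁)
    (h12' : φ₁ < φ₂ + 1) {U V : C} (hU : σ.sl.P φ₁ U) (hV : σ.sl.P φ₂ V)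
    (h : U ⟶ V⟦(1 : ℤ)⟧) (hh : h ≠ 0) :
    ∃ s : Multiset (K0 C), (∀ x ∈ s, x ∈ σ.SS) ∧ s.sum = cls U + cls V ∧
      σ.mass s < ‖σ.Z (cls U)‖ + ‖σ.Z (cls V)‖ := by
  have hpi := Real.pi_pos
  obtain ⟨G, a, b, hT⟩ := distinguished_cocone_triangle₂ h
  obtain ⟨l, hl⟩ := σ.sl.exists_HN G
  have hup : σ.sl.In (Set.Ici φ₂) G := Slicing.In.ext_upper (isUpperSet_Ici _) hT
    (Slicing.in_of_P hV Set.self_mem_Ici) (Slicing.in_of_P hU (show φ₂ ≤ φ₁ from h12.le))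
  have hlow : σ.sl.In (Set.Ioi φ₁)ᶜ G := Slicing.In.ext_lower (isUpperSet_Ioi _) hT
    (Slicing.in_of_P hV (not_lt.2 h12.le)) (Slicing.in_of_P hU (by simp))
  have h1 := hl.mem_upper (isUpperSet_Ici _) hup
  have h2 := hl.mem_lower (isUpperSet_Ioi _) hlow
  have hI : ∀ ψ ∈ l, ψ ∈ Set.Icc φ₂ φ₁ := fun ψ hψ => ⟨h1 ψ hψ, not_lt.1 (h2 ψ hψ)⟩
  obtain ⟨s, hs, hsum, -, hlt⟩ := σ.mass_le h12 h12' hl hI
  have hex : ∃ ψ ∈ l, ψ ≠ φ₁ ∧ ψ ≠ φ₂ := by
    by_contra hcon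
    push Not at hcon
    refine hh (σ.split_of_phases h12 h12' hU hV hT hl ?_)
    intro ψ hψ
    by_cases h : ψ = φ₁
    · exact Or.inl h
    · exact Or.inr (hcon ψ hψ h)
  have hcospos : 0 < Real.cos (Real.pi * (φ₁ - φ₂) / 2) :=
    Real.cos_pos_of_mem_Ioo ⟨by nlinarith, by nlinarith⟩
  refine ⟨s, hs, ?_, ?_⟩
  · rw [hsum, cls_mk hT, add_comm]
  · have h3 := hlt hex
    have h4 : cls G = cls V + cls U := cls_mk hT
    have hUre : σ.re ((φ₁ + φ₂) / 2) (cls U) =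
        ‖σ.Z (cls U)‖ * Real.cos (Real.pi * (φ₁ - φ₂) / 2) := by
      by_cases h0 : IsZero U
      · rw [cls_of_isZero h0, map_zero, map_zero, norm_zero, zero_mul]
      · obtain ⟨-, h, -⟩ := σ.polar ((φ₁ + φ₂) / 2) hU h0
        rw [h]
        congr 2
        ring
    have hVre : σ.re ((φ₁ + φ₂) / 2) (cls V) =
        ‖σ.Z (cls V)‖ * Real.cos (Real.pi * (φ₁ - φ₂) / 2) := by
      by_cases h0 : IsZero V
      · rw [cls_of_isZero h0, map_zero, map_zero, norm_zero, zero_mul]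
      · obtain ⟨-, h, -⟩ := σ.polar ((φ₁ + φ₂) / 2) hV h0
        rw [h, ← Real.cos_neg]
        congr 2
        ring
    rw [h4, map_add, hUre, hVre, ← add_mul] at h3
    have := lt_of_mul_lt_mul_right h3 hcospos.le
    linarith

end Pool.Stab
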