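import Mathlib
import Pool.Agent.Work.MP_841263_st.Mass

/-!
# Root classes modulo the radical carry semistable objects
-/

open CategoryTheory CategoryTheory.Limits CategoryTheory.Pretriangulated
open scoped ZeroObject TensorProduct

set_option backward.isDefEq.respectTransparency false
set_option backward.defeqAttrib.useBackward true
set_option linter.unusedSectionVars false

namespace Pool.Stab

universe v u

variable {C : Type u} [Category.{v} C] [Preadditive C] [HasZeroObject C] [HasShift C ℤ]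
  [∀ n : ℤ, (shiftFunctor C n).Additive] [Pretriangulated C]

lemma StabCond.jh_multiset [Module.Finite ℤ (K0 C)] [Module.Free ℤ (K0 C)] (σ : StabCond C)
    {φ : ℝ} {X : C} (hX : σ.sl.P φ X) :
    ∃ m : Multiset (K0 C), (∀ a ∈ m, ∃ T, σ.Stable φ T ∧ cls T = a) ∧ m.sum = cls X ∧
      σ.mass m = ‖σ.Z (cls X)‖ := by
  rw [← σ.re_eq_norm hX]
  have hg := σ.gen_stable hX
  clear hX
  induction hg with
  | zero h => exact ⟨0, by simp, by simp [cls_of_isZero h], by simp [cls_of_isZero h,
      StabCond.mass_zero]⟩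
  | @of T h =>
    refine ⟨{cls T}, ?_, by simp, ?_⟩
    · intro a ha
      rw [Multiset.mem_singleton] at ha
      exact ⟨T, h, ha.symm⟩
    · rw [StabCond.mass_singleton, σ.re_eq_norm h.1]
  | ext hT _ _ h1 h2 =>
    obtain ⟨m1, a1, b1, c1⟩ := h1
    obtain ⟨m2, a2, b2, c2⟩ := h2
    refine ⟨m1 + m2, ?_, ?_, ?_⟩
    · intro a ha
      rcases Multiset.mem_add.1 ha with h | h
      · exact a1 a h
      · exact a2 a h
    · rw [Multiset.sum_add, b1, b2, cls_mk hT]
    · rw [StabCond.mass_add, c1, c2, cls_mk hT, map_add]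

lemma form_multiset_nonpos {K : Type*} [AddCommGroup K] (B : K →+ K →+ ℤ) (m n : Multiset K)
    (h : ∀ a ∈ m, ∀ b ∈ n, B a b ≤ 0) : B m.sum n.sum ≤ 0 := by
  induction m using Multiset.induction_on with
  | empty => simp
  | cons a m ih =>
    rw [Multiset.sum_cons, map_add, AddMonoidHom.add_apply]
    have h1 := ih (fun x hx b hb => h x (Multiset.mem_cons_of_mem hx) b hb)
    have h2 : B a n.sum ≤ 0 := by
      have h3 : ∀ b ∈ n, B a b ≤ 0 := fun b hb => h a (Multiset.mem_cons_self a m) b hb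
      clear h ih h1
      induction n using Multiset.induction_on with
      | empty => simp
      | cons b n ih =>
        rw [Multiset.sum_cons, map_add]
        have h4 := ih (fun x hx => h3 x (Multiset.mem_cons_of_mem hx))
        have h5 := h3 b (Multiset.mem_cons_self b n)
        linarith
    linarith

section Linear

variable [Linear ℂ C] [∀ n : ℤ, (shiftFunctor C n).Linear ℂ]
variable [Module.Finite ℤ (K0 C)] [Module.Free ℤ (K0 C)] [IsTriangulated C]

lemma exists_ne_zero_of_finrank {X Y : C} (h : Module.finrank ℂ (X ⟶ Y) ≠ 0) :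
    ∃ f : X ⟶ Y, f ≠ 0 := by
  by_contra hcon
  push Not at hcon
  exact h (finrank_of_forall_zero hcon)

/-- Reduction of a pair of semistable classes with negative product. -/
lemma StabCond.pair_reduce (σ : StabCond C) (hK : IsK3 C) {x y : K0 C} (hx : x ∈ σ.SS)
    (hy : y ∈ σ.SS) (hxy : eulerForm hK x y < 0) :
    ∃ s : Multiset (K0 C), (∀ z ∈ s, z ∈ σ.SS) ∧ s.sum = x + y ∧
      (σ.mass s < ‖σ.Z x‖ + ‖σ.Z y‖ ∨ (σ.mass s = ‖σ.Z x‖ + ‖σ.Z y‖ ∧ s.card ≤ 1)) := by
  obtain ⟨φ, X, hX, hX0, rfl⟩ := hx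
  obtain ⟨ψ, Y, hY, hY0, rfl⟩ := hy
  set n : ℤ := ⌈ψ - φ⌉ with hn
  have hPX : σ.sl.P (φ + n) (X⟦n⟧) := by
    have h1 : σ.sl.In ((· + (n : ℝ)) '' {φ}) (X⟦n⟧) :=
      Slicing.In.shift (Slicing.in_of_P hX (Set.mem_singleton φ)) _
    refine Slicing.In.P_of_singleton (h1.mono ?_)
    rintro _ ⟨a, ha, rfl⟩
    have : a = φ := ha
    rw [this]
    rfl
  have hX0' : ¬ IsZero (X⟦n⟧) := fun h => hX0 ((isZero_shift_iff _ _).1 h)
  have hle : ψ ≤ φ + n := by
    have := Int.le_ceil (ψ - φ)
    linarith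
  have hlt : φ + n < ψ + 1 := by
    have := Int.ceil_lt_add_one (ψ - φ)
    linarith
  have hHX : σ.sl.Heart (φ + n - 1) (X⟦n⟧) := Slicing.heart_of_P hPX (by linarith) (by linarith)
  have hHY : σ.sl.Heart (φ + n - 1) Y := Slicing.heart_of_P hY (by linarith) (by linarith)
  rcases Int.even_or_odd n with hev | hodd
  · -- even shift
    have hc : cls (X⟦n⟧) = cls X := by
      rw [cls_shift, Int.negOnePow_even n hev]; simp
    rcases hle.eq_or_lt with heq | hlt'
    · -- same ray
      have hPX' : σ.sl.P ψ (X⟦n⟧) := by rw [heq]; exact hPX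
      have hsum := σ.sl.biprod_mem ψ hPX' hY
      refine ⟨{cls X + cls Y}, ?_, by simp, Or.inr ⟨?_, by simp⟩⟩
      · intro z hz
        rw [Multiset.mem_singleton] at hz
        refine ⟨ψ, X⟦n⟧ ⊞ Y, hsum, ?_, by rw [cls_biprod, hc, hz]⟩
        intro h0
        apply hX0'
        rw [IsZero.iff_id_eq_zero, ← biprod.inl_fst (X := X⟦n⟧) (Y := Y),
          h0.eq_of_tgt (biprod.inl : X⟦n⟧ ⟶ X⟦n⟧ ⊞ Y) 0, zero_comp]
      · rw [StabCond.mass_singleton, ← hc, ← cls_biprod, ← σ.re_eq_norm hsum, cls_biprod,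
          map_add, σ.re_eq_norm hPX', σ.re_eq_norm hY]
    · -- strict
      have hkey := hHX.eulerChar hK hHY
      rw [← eulerForm_cls hK, hc] at hkey
      have h1 : Module.finrank ℂ (X⟦n⟧ ⟶ Y⟦(1 : ℤ)⟧) ≠ 0 := by
        intro h0
        rw [h0] at hkey
        have h2 : (0 : ℤ) ≤ (Module.finrank ℂ (X⟦n⟧ ⟶ Y) : ℤ) := by positivity
        have h3 : (0 : ℤ) ≤ (Module.finrank ℂ (Y ⟶ X⟦n⟧) : ℤ) := by positivity
        push_cast at hkey
        linarith
      obtain ⟨f, hf⟩ := exists_ne_zero_of_finrank h1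
      obtain ⟨s, hs, hsum, hmass⟩ := σ.strict_mass hlt' hlt hPX hY f hf
      rw [hc] at hsum hmass
      exact ⟨s, hs, hsum, Or.inl hmass⟩
  · -- odd shift
    have hc : cls (X⟦n⟧) = -cls X := by
      rw [cls_shift, Int.negOnePow_odd n hodd]; simp
    rcases hle.eq_or_lt with heq | hlt'
    · -- opposite rays
      have hPX' : σ.sl.P ψ (X⟦n⟧) := by rw [heq]; exact hPX
      obtain ⟨m1, a1, b1, c1⟩ := σ.jh_multiset hPX'
      obtain ⟨m2, a2, b2, c2⟩ := σ.jh_multiset hY
      have hpos : 0 < eulerForm hK m1.sum m2.sum := by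
        rw [b1, b2, hc, map_neg, AddMonoidHom.neg_apply]
        linarith
      have hex : ∃ a ∈ m1, ∃ b ∈ m2, 0 < eulerForm hK a b := by
        by_contra hcon
        push Not at hcon
        have := form_multiset_nonpos (eulerForm hK) m1 m2 hcon
        linarith
      obtain ⟨a, ha, b, hb, hab⟩ := hex
      obtain ⟨T, hT, rfl⟩ := a1 a ha
      obtain ⟨T', hT', rfl⟩ := a2 b hb
      have heq' : cls T = cls T' := by
        by_contra hne
        have e1 : ψ - 1 + 1 = ψ := by ring
        have hs1 : SimpleIn (σ.sl.Heart (ψ - 1)) T := StabCond.Stable.simple (by rw [e1]; exact hT)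
        have hs2 : SimpleIn (σ.sl.Heart (ψ - 1)) T' :=
          StabCond.Stable.simple (by rw [e1]; exact hT')
        rw [eulerForm_cls, hs1.eulerChar_le hK hs2 hne] at hab
        have : (0 : ℤ) ≤ (Module.finrank ℂ (T ⟶ T'⟦(1 : ℤ)⟧) : ℤ) := by positivity
        linarith
      rw [← heq'] at hb
      obtain ⟨m1', hm1⟩ := Multiset.exists_cons_of_mem ha
      obtain ⟨m2', hm2⟩ := Multiset.exists_cons_of_mem hb
      have hTpos := (σ.polar 0 hT.1 hT.2.1).1
      refine ⟨m1'.map (fun z => -z) + m2', ?_, ?_, Or.inl ?_⟩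
      · intro z hz
        rcases Multiset.mem_add.1 hz with h | h
        · obtain ⟨w, hw, rfl⟩ := Multiset.mem_map.1 h
          obtain ⟨W, hW, rfl⟩ := a1 w (by rw [hm1]; exact Multiset.mem_cons_of_mem hw)
          exact σ.SS_neg ⟨ψ, W, hW.1, hW.2.1, rfl⟩
        · obtain ⟨W, hW, rfl⟩ := a2 z (by rw [hm2]; exact Multiset.mem_cons_of_mem h)
          exact ⟨ψ, W, hW.1, hW.2.1, rfl⟩
      · rw [Multiset.sum_add, Multiset.sum_map_neg']
        rw [hm1, Multiset.sum_cons, hc] at b1
        rw [hm2, Multiset.sum_cons] at b2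
        have h1 : m1'.sum = -cls X - cls T := by rw [← b1]; abel
        have h2 : m2'.sum = cls Y - cls T := by rw [← b2]; abel
        rw [h1, h2]; abel
      · rw [StabCond.mass_add, StabCond.mass_neg]
        rw [hm1, StabCond.mass_cons, hc, map_neg, norm_neg] at c1
        rw [hm2, StabCond.mass_cons] at c2
        linarith
    · -- strict
      have hkey := hHY.eulerChar hK hHX
      rw [← eulerForm_cls hK, hc, map_neg, eulerForm_symm hK (cls Y) (cls X)] at hkey
      have hz : Module.finrank ℂ (X⟦n⟧ ⟶ Y) = 0 :=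
        finrank_of_forall_zero (fun f => σ.sl.hom_zero hlt' hPX hY f)
      have h1 : Module.finrank ℂ (Y ⟶ X⟦n⟧) ≠ 0 := by
        intro h0
        rw [h0, hz] at hkey
        have h2 : (0 : ℤ) ≤ (Module.finrank ℂ (Y ⟶ X⟦n⟧⟦(1 : ℤ)⟧) : ℤ) := by positivity
        push_cast at hkey
        linarith
      obtain ⟨g, hg⟩ := exists_ne_zero_of_finrank h1
      have hg' : g⟦(1 : ℤ)⟧' ≠ 0 := by
        intro h0
        apply hg
        apply (shiftFunctor C (1 : ℤ)).map_injective
        rw [h0, Functor.map_zero]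
      obtain ⟨s, hs, hsum, hmass⟩ := σ.strict_mass (φ₁ := ψ + 1) (φ₂ := φ + n) hlt
        (by linarith) ((σ.sl.shift_mem ψ Y).1 hY) hPX (g⟦(1 : ℤ)⟧') hg'
      refine ⟨s.map (fun z => -z), ?_, ?_, Or.inl ?_⟩
      · intro z hz
        obtain ⟨w, hw, rfl⟩ := Multiset.mem_map.1 hz
        exact σ.SS_neg (hs w hw)
      · rw [Multiset.sum_map_neg', hsum, cls_shift_one, hc]; abel
      · rw [StabCond.mass_neg]
        rw [cls_shift_one, hc, map_neg, map_neg, norm_neg, norm_neg] at hmass
        linarith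

/-- Finitely many configurations of bounded mass. -/
lemma StabCond.finite_configs (σ : StabCond C) (M : ℝ) :
    {s : Multiset (K0 C) | (∀ x ∈ s, x ∈ σ.SS) ∧ σ.mass s ≤ M}.Finite := by
  classical
  obtain ⟨ε, hε, hb⟩ := σ.exists_eps
  have hF := σ.finite_classes M
  set F : Finset (K0 C) := hF.toFinset with hFdef
  set N : ℕ := ⌈M / ε⌉₊ with hN
  refine (Set.finite_Iic (N • F.val)).subset ?_
  rintro s ⟨hs, hM⟩
  have hcard : (s.card : ℝ) * ε ≤ σ.mass s := by
    clear hM
    induction s using Multiset.induction_on with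
    | empty => simp [StabCond.mass_zero]
    | cons a s ih =>
      rw [StabCond.mass_cons, Multiset.card_cons]
      have h1 := ih (fun x hx => hs x (Multiset.mem_cons_of_mem hx))
      obtain ⟨φ, X, hX, h0, hXa⟩ := hs a (Multiset.mem_cons_self a s)
      have h2 := hb φ X hX h0
      rw [hXa] at h2
      push_cast
      linarith
  have hcardN : s.card ≤ N := by
    have h1 : (s.card : ℝ) ≤ M / ε := by
      rw [le_div_iff₀ hε]; linarith
    exact_mod_cast h1.trans (Nat.le_ceil _)
  have hmem : ∀ x ∈ s, x ∈ F := by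
    intro x hx
    rw [hFdef, Set.Finite.mem_toFinset]
    obtain ⟨φ, X, hX, h0, hXa⟩ := hs x hx
    refine ⟨⟨φ, X, hX, hXa⟩, ?_⟩
    refine le_trans ?_ hM
    obtain ⟨s', rfl⟩ := Multiset.exists_cons_of_mem hx
    rw [StabCond.mass_cons]
    have : 0 ≤ σ.mass s' := by
      refine Multiset.sum_nonneg ?_
      intro r hr
      obtain ⟨w, -, rfl⟩ := Multiset.mem_map.1 hr
      exact norm_nonneg _
    linarith
  show s ≤ N • F.val
  rw [Multiset.le_iff_count]
  intro a
  by_cases ha : a ∈ s
  · rw [Multiset.count_nsmul, Multiset.count_eq_one_of_mem F.nodup (hmem a ha), mul_one]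
    exact (Multiset.count_le_card a s).trans hcardN
  · rw [Multiset.count_eq_zero_of_notMem ha]
    exact Nat.zero_le _

/-- A configuration of least mass: all products of pairs are nonnegative. -/
lemma StabCond.exists_min_config (σ : StabCond C) (hK : IsK3 C) (α : K0 C) :
    ∃ s : Multiset (K0 C), (∀ x ∈ s, x ∈ σ.SS) ∧ s.sum = α ∧
      ∀ x y s', s = x ::ₘ y ::ₘ s' → 0 ≤ eulerForm hK x y := by
  obtain ⟨s0, hs0, hsum0⟩ := σ.exists_config α
  set T : Set (Multiset (K0 C)) := {s | (∀ x ∈ s, x ∈ σ.SS) ∧ σ.mass s ≤ σ.mass s0} ∩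
    {s | s.sum = α} with hT
  have hTfin : T.Finite := (σ.finite_configs _).inter_of_left _
  obtain ⟨s, hsT, hmin⟩ := Set.exists_min_image T
    (fun s => toLex (σ.mass s, s.card)) hTfin ⟨s0, ⟨hs0, le_rfl⟩, hsum0⟩
  refine ⟨s, hsT.1.1, hsT.2, ?_⟩
  intro x y s' hs
  by_contra hneg
  push Not at hneg
  have hx : x ∈ σ.SS := hsT.1.1 x (by rw [hs]; simp)
  have hy : y ∈ σ.SS := hsT.1.1 y (by rw [hs]; simp)
  obtain ⟨r, hr, hrsum, hor⟩ := σ.pair_reduce hK hx hy hneg
  have hmass : σ.mass s = ‖σ.Z x‖ + (‖σ.Z y‖ + σ.mass s') := by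
    rw [hs, StabCond.mass_cons, StabCond.mass_cons]
  have hcard : s.card = s'.card + 1 + 1 := by rw [hs]; simp
  have hnew : σ.mass (r + s') ≤ σ.mass s := by
    rw [StabCond.mass_add, hmass]
    rcases hor with h | h
    · linarith
    · linarith [h.1]
  have hmem : r + s' ∈ T := by
    refine ⟨⟨?_, hnew.trans hsT.1.2⟩, ?_⟩
    · intro z hz
      rcases Multiset.mem_add.1 hz with h | h
      · exact hr z h
      · exact hsT.1.1 z (by rw [hs]; simp [h])
    · show (r + s').sum = α
      rw [Multiset.sum_add, hrsum, ← (show s.sum = α from hsT.2), hs]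
      simp [add_assoc]
  have h1 := hmin _ hmem
  rw [Prod.Lex.toLex_le_toLex] at h1
  rcases h1 with h1 | h1
  · have h2 : σ.mass s < σ.mass (r + s') := h1
    linarith
  · have h2 : σ.mass s = σ.mass (r + s') := h1.1
    have h3 : s.card ≤ (r + s').card := h1.2
    rcases hor with h | h
    · rw [StabCond.mass_add, hmass] at h2
      linarith
    · rw [Multiset.card_add] at h3
      omega

lemma form_nonneg_of_pairs {K : Type*} [AddCommGroup K] (B : K →+ K →+ ℤ) (x : K)
    (s : Multiset K) (h : ∀ y ∈ s, 0 ≤ B x y) : 0 ≤ B x s.sum := by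
  induction s using Multiset.induction_on with
  | empty => simp
  | cons b n ih =>
    rw [Multiset.sum_cons, map_add]
    have h4 := ih (fun x hx => h x (Multiset.mem_cons_of_mem hx))
    have h5 := h b (Multiset.mem_cons_self b n)
    linarith

/-- **Root classes.** An element of least positive norm is congruent modulo the radical to the
class of a semistable object. -/
theorem StabCond.root_semistable (σ : StabCond C) (hK : IsK3 C) (hB : IsPSD (eulerForm hK))
    {α : K0 C} (hα : 0 < eulerForm hK α α)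
    (hmin : ∀ x : K0 C, 0 < eulerForm hK x x → eulerForm hK α α ≤ eulerForm hK x x) :
    ∃ x ∈ σ.SS, α - x ∈ radical (eulerForm hK) := by
  obtain ⟨s, hs, hsum, hpair⟩ := σ.exists_min_config hK α
  have hex : ∃ x ∈ s, 0 < eulerForm hK x x := by
    by_contra hcon
    push Not at hcon
    have hrad : s.sum ∈ radical (eulerForm hK) := by
      refine multiset_sum_mem _ ?_
      intro x hx
      exact hB.mem_radical_of_self (le_antisymm (hcon x hx) (hB.nonneg x))
    rw [hsum] at hrad
    have := hrad α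
    linarith
  obtain ⟨x, hx, hxpos⟩ := hex
  refine ⟨x, hs x hx, ?_⟩
  obtain ⟨s', hs'⟩ := Multiset.exists_cons_of_mem hx
  have hα' : α = x + s'.sum := by rw [← hsum, hs', Multiset.sum_cons]
  have h1 : 0 ≤ eulerForm hK x s'.sum := by
    refine form_nonneg_of_pairs _ _ _ ?_
    intro y hy
    obtain ⟨s'', hs''⟩ := Multiset.exists_cons_of_mem hy
    exact hpair x y s'' (by rw [hs', hs''])
  have h2 : eulerForm hK α α = eulerForm hK x x + 2 * eulerForm hK x s'.sum +
      eulerForm hK s'.sum s'.sum := by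
    rw [hα']
    simp only [map_add, AddMonoidHom.add_apply]
    rw [eulerForm_symm hK s'.sum x]
    ring
  have h3 := hmin x hxpos
  have h4 := hB.nonneg s'.sum
  have h5 : α - x = s'.sum := by rw [hα']; abel
  rw [h5]
  exact hB.mem_radical_of_self (by linarith)

end Linear

end Pool.Stab
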