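import Mathlib
import Pool.Agent.Work.MP_841263_st.Dense

/-!
# Semistable objects in all radical directions
-/

open CategoryTheory CategoryTheory.Limits CategoryTheory.Pretriangulated
open scoped ZeroObject TensorProduct

set_option backward.isDefEq.respectTransparency false
set_option backward.defeqAttrib.useBackward true
set_option linter.unusedSectionVars false

namespace Pool.Stab

universe v u

lemma finite_Ioc_progression (c η : ℝ) :
    {v : ℝ | v ∈ Set.Ioc (0 : ℝ) 1 ∧ ∃ n : ℤ, v = c + n * η}.Finite := by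
  by_cases hη : η = 0
  · refine (Set.finite_singleton c).subset ?_
    rintro v ⟨-, n, rfl⟩
    simp [hη]
  · set M : ℤ := ⌈(1 + |c|) / |η|⌉ with hM
    refine ((Set.finite_Icc (-M) M).image (fun n : ℤ => c + n * η)).subset ?_
    rintro v ⟨hv, n, rfl⟩
    refine ⟨n, ?_, rfl⟩
    have h1 : |(n : ℝ)| * |η| ≤ 1 + |c| := by
      rw [← abs_mul]
      have h2 : |(n : ℝ) * η| = |(c + n * η) - c| := by congr 1; ring
      rw [h2]
      refine (abs_sub _ _).trans ?_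
      rw [abs_of_pos hv.1]
      linarith [hv.2]
    have h3 : |(n : ℝ)| ≤ M := by
      refine le_trans ?_ (Int.le_ceil _)
      rwa [le_div_iff₀ (abs_pos.2 hη)]
    have h4 : |n| ≤ M := by exact_mod_cast h3
    exact abs_le.1 h4

variable {C : Type u} [Category.{v} C] [Preadditive C] [HasZeroObject C] [HasShift C ℤ]
  [∀ n : ℤ, (shiftFunctor C n).Additive] [Pretriangulated C]

/-- Decomposition of an object of the heart: phase `t + 1` and smaller phases. -/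
lemma Slicing.Heart.exists_torsion [IsTriangulated C] {S : Slicing C} {t : ℝ} {E : C}
    (hE : S.Heart t E) :
    ∃ (X Y : C) (f : X ⟶ E) (g : E ⟶ Y) (h : Y ⟶ X⟦(1 : ℤ)⟧),
      Triangle.mk f g h ∈ distTriang C ∧ S.P (t + 1) X ∧ S.In (Set.Ioo t (t + 1)) Y := by
  classical
  obtain ⟨l, hl, hI⟩ := hE
  obtain ⟨X, Y, f, g, h, hT, hX, hY⟩ := hl.trunc (Set.Ici (t + 1)) (isUpperSet_Ici _)
  refine ⟨X, Y, f, g, h, hT, ?_, ?_⟩
  · refine Slicing.In.P_of_singleton ⟨_, hX, ?_⟩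
    intro φ hφ
    obtain ⟨h1, h2⟩ := List.mem_filter.1 hφ
    have h3 : t + 1 ≤ φ := by simpa using h2
    exact le_antisymm (hI φ h1).2 h3
  · refine ⟨_, hY, ?_⟩
    intro φ hφ
    obtain ⟨h1, h2⟩ := List.mem_filter.1 hφ
    have h3 : φ < t + 1 := by simpa using h2
    exact ⟨(hI φ h1).1, h3⟩

/-- Torsion free objects of the heart `P(t, t+1]` (torsion: `P(t+1)`). -/
def StabCond.TF (σ : StabCond C) (t : ℝ) (X : C) : Prop :=
  σ.sl.Heart t X ∧ ¬ IsZero X ∧ ∀ T, σ.sl.P (t + 1) T → ∀ f : T ⟶ X, f = 0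

/-- Atomic torsion free objects. -/
def StabCond.Atomic (σ : StabCond C) (t : ℝ) (X : C) : Prop :=
  σ.TF t X ∧ ∀ (Y Z : C) (f : Y ⟶ X) (g : X ⟶ Z) (h : Z ⟶ Y⟦(1 : ℤ)⟧),
    Triangle.mk f g h ∈ distTriang C → σ.sl.Heart t Y → σ.sl.Heart t Z →
      IsZero Y ∨ σ.sl.P (t + 1) Z

lemma StabCond.tf_of_in (σ : StabCond C) {t : ℝ} {X : C} (hX : σ.sl.In (Set.Ioo t (t + 1)) X)
    (h0 : ¬ IsZero X) : σ.TF t X := by
  refine ⟨hX.mono (fun φ hφ => ⟨hφ.1, hφ.2.le⟩), h0, ?_⟩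
  intro T hT f
  refine Slicing.In.hom_zero (Slicing.in_of_P hT (Set.mem_singleton _)) hX ?_ f
  rintro φ hφ ψ hψ
  have : φ = t + 1 := hφ
  rw [this]
  exact hψ.2

lemma StabCond.hom_shift_zero (σ : StabCond C) {t : ℝ} {X Y : C} (hX : σ.sl.Heart t X)
    (hY : σ.sl.Heart t Y) (r : X⟦(1 : ℤ)⟧ ⟶ Y) : r = 0 := by
  refine Slicing.In.hom_zero (hX.shift_one) hY ?_ r
  rintro _ ⟨φ, hφ, rfl⟩ ψ hψ
  have h1 := hφ.1
  have h2 := hψ.2
  show ψ < φ + 1
  linarith

lemma StabCond.TF.in [IsTriangulated C] {σ : StabCond C} {t : ℝ} {X : C} (hX : σ.TF t X) :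
    σ.sl.In (Set.Ioo t (t + 1)) X := by
  obtain ⟨T, Y, f, g, h, hT, hTP, hY⟩ := hX.1.exists_torsion
  have hz : IsZero T := isZero₁_of_mor₁ hT (hX.2.2 T hTP f)
    (fun r => σ.hom_shift_zero (Slicing.heart_of_P hTP (by linarith) le_rfl)
      (hY.mono (fun φ hφ => ⟨hφ.1, hφ.2.le⟩)) r)
  have := iso_of_isZero₁ hT hz
  exact hY.iso (asIso g).symm

/-- A subobject of a torsion free object is torsion free. -/
lemma StabCond.TF.sub {σ : StabCond C} {t : ℝ} {X E Y : C} {f : X ⟶ E} {g : E ⟶ Y}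
    {h : Y ⟶ X⟦(1 : ℤ)⟧} (hT : Triangle.mk f g h ∈ distTriang C) (hE : σ.TF t E)
    (hX : σ.sl.Heart t X) (hY : σ.sl.Heart t Y) (h0 : ¬ IsZero X) : σ.TF t X := by
  refine ⟨hX, h0, ?_⟩
  intro T hTP a
  obtain ⟨b, c, hT'⟩ := exists_invrot hT
  have hYs : σ.sl.In (Set.Ioi t)ᶜ (Y⟦(-1 : ℤ)⟧) := by
    refine (hY.shift_neg_one).mono ?_
    rintro _ ⟨φ, hφ, rfl⟩
    have := hφ.2
    show ¬ (t < φ - 1)
    linarith
  refine hom_zero_of_ext₂ (W := T) hT' ?_ ?_ a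
  · intro a
    refine Slicing.In.hom_zero (Slicing.in_of_P hTP (Set.mem_singleton _)) hYs ?_ a
    rintro φ hφ ψ hψ
    have h1 : φ = t + 1 := hφ
    have h2 : ψ ≤ t := not_lt.1 hψ
    linarith
  · exact fun a => hE.2.2 T hTP a

lemma StabCond.Atomic.sub [IsTriangulated C] {σ : StabCond C} {t : ℝ} {X E Y : C} {f : X ⟶ E}
    {g : E ⟶ Y} {h : Y ⟶ X⟦(1 : ℤ)⟧} (hT : Triangle.mk f g h ∈ distTriang C)
    (hE : σ.Atomic t E) (hX : σ.sl.Heart t X) (hY : σ.sl.Heart t Y) (h0 : ¬ IsZero X) :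
    σ.Atomic t X := by
  refine ⟨hE.1.sub hT hX hY h0, ?_⟩
  intro X' X'' a b c hT' hX' hX''
  by_cases hz : IsZero X'
  · exact Or.inl hz
  right
  obtain ⟨W, p, q, hW⟩ := distinguished_cocone_triangle (a ≫ f)
  obtain ⟨m, n, r, hmn, -⟩ := exists_octa hT' hT hW
  have hWH : σ.sl.Heart t W := Slicing.Heart.ext hmn hX'' hY
  have h1 := (hE.2 _ _ _ _ _ hW hX' hWH).resolve_left hz
  exact (σ.P_sub_quot hmn hX'' hY h1).1

section Linear

variable [Linear ℂ C]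

lemma StabCond.Atomic.isIso [IsTriangulated C] {σ : StabCond C} (hK : IsK3 C) {t : ℝ} {X : C}
    (hX : σ.Atomic t X) (f : X ⟶ X) (hf : f ≠ 0) : IsIso f := by
  have key : ∀ f : X ⟶ X, f ≠ 0 → ∃ g : X ⟶ X, g ≫ f = 𝟙 X := by
    intro f hf
    obtain ⟨K, I, Q, i, p, d, j, q, e, hT1, hT2, hK', hI, hQ, hpj⟩ :=
      Slicing.exists_KIQ hX.1.1 hX.1.1 f
    have hI0 : ¬ IsZero I := by
      intro h
      apply hf
      rw [← hpj, h.eq_of_tgt p 0, zero_comp]
    have hQP := (hX.2 _ _ _ _ _ hT2 hI hQ).resolve_left hI0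
    have h1 : σ.im t (cls X) = σ.im t (cls K) + σ.im t (cls I) := by rw [cls_mk hT1, map_add]
    have h2 : σ.im t (cls X) = σ.im t (cls I) + σ.im t (cls Q) := by rw [cls_mk hT2, map_add]
    have h3 := σ.im_of_P hQP
    have hKP : σ.sl.P (t + 1) K := σ.P_of_im hK' (by linarith)
    have hi : i = 0 := hX.1.2.2 K hKP i
    have hK0 : IsZero K := isZero₁_of_mor₁ hT1 hi (fun r => σ.hom_shift_zero hK' hI r)
    have hp : IsIso p := iso_of_isZero₁ hT1 hK0
    obtain ⟨a, c, hT3⟩ := exists_invrot hT2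
    have hinj : Function.Injective (Linear.rightComp ℂ X f) := by
      rw [← LinearMap.ker_eq_bot, LinearMap.ker_eq_bot']
      intro g hg
      have hg' : (g ≫ p) ≫ j = 0 := by
        rw [Category.assoc, hpj]; exact hg
      obtain ⟨b, hb⟩ := Triangle.coyoneda_exact₂ _ hT3 (g ≫ p) hg'
      have hb0 : b = 0 := by
        refine Slicing.In.hom_zero (S := σ.sl) hX.1.1
          (Slicing.in_of_P (σ.sl.P_shift_neg_one _ _ hQP) (Set.mem_singleton _)) ?_ b
        rintro φ hφ ψ hψ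
        have h4 : ψ = t + 1 - 1 := hψ
        have h5 := hφ.1
        linarith
      rw [hb0, zero_comp] at hb
      rw [← cancel_mono p, hb, zero_comp]
    have := hK.homFinite X X
    have hsurj : Function.Surjective (Linear.rightComp ℂ X f) :=
      (LinearMap.injective_iff_surjective).1 hinj
    exact hsurj (𝟙 X)
  obtain ⟨g, hg⟩ := key f hf
  have hg0 : g ≠ 0 := by
    rintro rfl
    apply hX.1.2.1
    rw [IsZero.iff_id_eq_zero, ← hg, zero_comp]
  obtain ⟨h, hh⟩ := key g hg0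
  have hhf : h = f := by
    calc h = h ≫ (g ≫ f) := by rw [hg, Category.comp_id]
      _ = (h ≫ g) ≫ f := by rw [Category.assoc]
      _ = f := by rw [hh, Category.id_comp]
  rw [hhf] at hh
  exact ⟨⟨g, hh, hg⟩⟩

variable [∀ n : ℤ, (shiftFunctor C n).Linear ℂ]

lemma StabCond.Atomic.eulerChar_self_le [IsTriangulated C] {σ : StabCond C} (hK : IsK3 C)
    {t : ℝ} {X : C} (hX : σ.Atomic t X) : eulerChar X X ≤ 2 := by
  have := hK.homFinite X X
  have h1 : Module.finrank ℂ (X ⟶ X) = 1 := by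
    refine finrank_endomorphism_eq_one ℂ ?_
    intro f
    refine ⟨fun h h0 => ?_, fun h => hX.isIso hK f h⟩
    subst h0
    have h1 : (𝟙 X : X ⟶ X) = 0 := by
      rw [← IsIso.hom_inv_id (0 : X ⟶ X), zero_comp]
    exact hX.1.2.1 (by rwa [IsZero.iff_id_eq_zero])
  rw [hX.1.1.eulerChar hK hX.1.1, h1]
  have : (0 : ℤ) ≤ (Module.finrank ℂ (X ⟶ X⟦(1 : ℤ)⟧) : ℤ) := by positivity
  push_cast
  linarith

end Linear

end Pool.Stab
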