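import Mathlib
import Pool.Agent.Work.MP_841263_st.Euler
import Pool.Agent.Work.MP_841263_st.Lattice

/-!
# The class of K3 categories considered here

`Setting C`: `C` is an indecomposable, Ext-finite K3 category whose Grothendieck group is free of
finite rank, such that the (symmetric) Euler form is positive semidefinite with radical of rank
two. The category `𝒟` of the problem has these properties.
-/

open CategoryTheory CategoryTheory.Limits CategoryTheory.Pretriangulated
open scoped ZeroObject TensorProduct

set_option backward.isDefEq.respectTransparency false
set_option backward.defeqAttrib.useBackward true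
set_option linter.unusedSectionVars false

namespace Pool.Stab

universe v u

variable {C : Type u} [Category.{v} C] [Preadditive C] [HasZeroObject C] [HasShift C ℤ]
  [∀ n : ℤ, (shiftFunctor C n).Additive] [Pretriangulated C]

variable [Linear ℂ C] [∀ n : ℤ, (shiftFunctor C n).Linear ℂ]

/-- The standing assumptions on the category: an Ext-finite K3 category, indecomposable, with
Grothendieck group free of finite rank, positive semidefinite Euler form and radical of
rank two. -/
structure Setting (C : Type u) [Category.{v} C] [Preadditive C] [HasZeroObject C] [HasShift C ℤ]
    [∀ n : ℤ, (shiftFunctor C n).Additive] [Pretriangulated C] [Linear ℂ C]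
    [∀ n : ℤ, (shiftFunctor C n).Linear ℂ] : Prop where
  k3 : IsK3 C
  finite : Module.Finite ℤ (K0 C)
  free : Module.Free ℤ (K0 C)
  psd : ∀ x : K0 C, 0 ≤ eulerForm k3 x x
  rank : Module.finrank ℤ (radical (eulerForm k3)) = 2
  indec : Indecomposable C

lemma isPSD_of (hK : IsK3 C) (h : ∀ x : K0 C, 0 ≤ eulerForm hK x x) : IsPSD (eulerForm hK) :=
  ⟨eulerForm_symm hK, h⟩

end Pool.Stab
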