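import Mathlib
import Pool.Agent.Work.MP_841263_st.Radical
import Pool.Agent.Work.MP_841263_st.Setting

/-!
# Every radical direction carries semistable objects
-/

open CategoryTheory CategoryTheory.Limits CategoryTheory.Pretriangulated
open scoped ZeroObject TensorProduct

set_option backward.isDefEq.respectTransparency false
set_option backward.defeqAttrib.useBackward true
set_option linter.unusedSectionVars false

namespace Pool.Stab

universe v u

variable {C : Type u} [Category.{v} C] [Preadditive C] [HasZeroObject C] [HasShift C ℤ]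
  [∀ n : ℤ, (shiftFunctor C n).Additive] [Pretriangulated C]

section rank

variable {K : Type*} [AddCommGroup K] [Module.Finite ℤ K] [Module.Free ℤ K]

/-- Basis of a submodule of rank two. -/
lemma exists_basis_of_finrank_two (R : Submodule ℤ K) (hR : Module.finrank ℤ R = 2) :
    ∃ b₀ ∈ R, ∃ b₁ ∈ R, (∀ x ∈ R, ∃ m n : ℤ, x = m • b₀ + n • b₁) ∧
      ∀ m n : ℤ, m • b₀ + n • b₁ = 0 → m = 0 ∧ n = 0 := by
  let b : Module.Basis (Fin 2) ℤ R := Module.finBasisOfFinrankEq ℤ R hR
  refine ⟨b 0, (b 0).2, b 1, (b 1).2, ?_, ?_⟩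
  · intro x hx
    have h := b.sum_repr ⟨x, hx⟩
    rw [Fin.sum_univ_two] at h
    refine ⟨b.repr ⟨x, hx⟩ 0, b.repr ⟨x, hx⟩ 1, ?_⟩
    have h' := congrArg Subtype.val h
    simpa using h'.symm
  · intro m n h
    have h1 : ∑ i : Fin 2, ![m, n] i • b i = 0 := by
      rw [Fin.sum_univ_two]
      apply Subtype.ext
      simpa using h
    have h2 := Fintype.linearIndependent_iff.1 b.linearIndependent ![m, n] h1
    exact ⟨by simpa using h2 0, by simpa using h2 1⟩

/-- Three elements of a rank two submodule are dependent. -/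
lemma exists_dep_of_finrank_two (R : Submodule ℤ K) (hR : Module.finrank ℤ R = 2) {x y z : K}
    (hx : x ∈ R) (hy : y ∈ R) (hz : z ∈ R) (hyz : ∀ n m : ℤ, n • y = m • z → n = 0 ∧ m = 0) :
    ∃ N a b : ℤ, N ≠ 0 ∧ N • x = a • y + b • z := by
  let v : Fin 3 → R := ![⟨x, hx⟩, ⟨y, hy⟩, ⟨z, hz⟩]
  have hdep : ¬ LinearIndependent ℤ v := by
    intro h
    have := h.fintype_card_le_finrank
    rw [hR] at this
    simp at this
  rw [Fintype.not_linearIndependent_iff] at hdep
  obtain ⟨g, hg, i, hi⟩ := hdep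
  rw [Fin.sum_univ_three] at hg
  have hg' : g 0 • x + g 1 • y + g 2 • z = 0 := by
    have := congrArg Subtype.val hg
    simpa [v] using this
  refine ⟨g 0, -g 1, -g 2, ?_, ?_⟩
  · intro h0
    rw [h0, zero_smul, zero_add] at hg'
    have h1 : g 1 • y = (-g 2) • z := by
      rw [neg_smul]; exact eq_neg_of_add_eq_zero_left hg'
    obtain ⟨h2, h3⟩ := hyz _ _ h1
    fin_cases i
    · exact hi h0
    · exact hi h2
    · apply hi
      simpa using h3
  · rw [neg_smul, neg_smul]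
    have : g 0 • x = -(g 1 • y + g 2 • z) := by
      rw [eq_neg_iff_add_eq_zero, ← add_assoc]
      exact hg'
    rw [this]; abel

end rank

section Linear

variable [Linear ℂ C] [∀ n : ℤ, (shiftFunctor C n).Linear ℂ]
variable [Module.Finite ℤ (K0 C)] [Module.Free ℤ (K0 C)]

lemma rankTwoLe_of_finrank (hK : IsK3 C) (hR : Module.finrank ℤ (radical (eulerForm hK)) = 2) :
    RankTwoLe hK := by
  obtain ⟨b₀, h0, b₁, h1, -, hind⟩ := exists_basis_of_finrank_two _ hR
  refine ⟨b₀, h0, b₁, h1, ?_⟩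
  intro n m h
  have := hind n (-m) (by rw [neg_smul, h]; abel)
  exact ⟨this.1, by simpa using this.2⟩

variable [IsTriangulated C]

/-- Elements of the radical on the line of `δ` are commensurable with `δ`. -/
lemma StabCond.commensurable (σ : StabCond C) (hK : IsK3 C) (hB : IsPSD (eulerForm hK))
    (hR : Module.finrank ℤ (radical (eulerForm hK)) = 2) (hind : Indecomposable C) {t : ℝ}
    {δ u : K0 C} (hδ : δ ∈ radical (eulerForm hK)) (hu : u ∈ radical (eulerForm hK))
    (hδ0 : δ ≠ 0) (h1 : σ.im t δ = 0) (h2 : σ.im t u = 0) :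
    ∃ n m : ℤ, n ≠ 0 ∧ n • u = m • δ := by
  by_cases hdep : ∀ n m : ℤ, n • u = m • δ → n = 0 ∧ m = 0
  · exfalso
    refine σ.radical_not_line hK hB hind (rankTwoLe_of_finrank hK hR) t ?_
    intro x hx
    obtain ⟨N, a, b, hN, h⟩ := exists_dep_of_finrank_two _ hR hx hu hδ hdep
    have h3 := congrArg (σ.im t) h
    rw [map_zsmul, map_add, map_zsmul, map_zsmul, h1, h2, smul_zero, smul_zero, add_zero,
      zsmul_eq_mul, mul_eq_zero] at h3
    rcases h3 with h3 | h3
    · exact absurd (by exact_mod_cast h3) hN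
    · exact h3
  · push Not at hdep
    obtain ⟨n, m, h, hnm⟩ := hdep
    refine ⟨n, m, ?_, h⟩
    intro hn
    have hm := hnm hn
    rw [hn, zero_smul] at h
    rcases smul_eq_zero.1 h.symm with h' | h'
    · exact hm h'
    · exact hδ0 h'

lemma exists_im_zero (σ : StabCond C) (x : K0 C) :
    ∃ lam : ℝ, σ.im (lam - 1) x = 0 ∧ σ.re (lam - 1) x = -‖σ.Z x‖ := by
  set θ : ℝ := (σ.Z x).arg with hθ
  refine ⟨θ / Real.pi, ?_⟩
  have h1 : σ.Z x = ‖σ.Z x‖ * Complex.exp (θ * Complex.I) := (Complex.norm_mul_exp_arg_mul_I _).symm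
  have h2 : σ.Z x * Complex.exp (-(Real.pi * ((θ / Real.pi - 1 : ℝ) : ℂ) * Complex.I)) =
      ((-‖σ.Z x‖ : ℝ) : ℂ) := by
    conv_lhs => rw [h1]
    rw [mul_assoc, ← Complex.exp_add]
    have h3 : (θ * Complex.I + -(Real.pi * ((θ / Real.pi - 1 : ℝ) : ℂ) * Complex.I) : ℂ) =
        Real.pi * Complex.I := by
      have hpi : (Real.pi : ℂ) ≠ 0 := by exact_mod_cast Real.pi_ne_zero
      push_cast
      field_simp
      ring
    rw [h3, Complex.exp_pi_mul_I]
    push_cast
    ring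
  constructor
  · rw [σ.im_apply, h2, Complex.ofReal_im]
  · rw [σ.re_apply, h2, Complex.ofReal_re]

/-- The central charge does not vanish on nonzero radical elements. -/
lemma StabCond.Z_radical_ne_zero (σ : StabCond C) (hK : IsK3 C) (hB : IsPSD (eulerForm hK))
    (hR : Module.finrank ℤ (radical (eulerForm hK)) = 2) (hind : Indecomposable C)
    {δ : K0 C} (hδ : δ ∈ radical (eulerForm hK)) (hδ0 : δ ≠ 0) : σ.Z δ ≠ 0 := by
  intro hZ
  refine σ.radical_not_line hK hB hind (rankTwoLe_of_finrank hK hR) 0 ?_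
  intro r hr
  obtain ⟨lam, h1, -⟩ := exists_im_zero σ r
  have h2 : σ.im (lam - 1) δ = 0 := by rw [σ.im_apply, hZ, zero_mul, Complex.zero_im]
  obtain ⟨n, m, hn, h⟩ := σ.commensurable hK hB hR hind hδ hr hδ0 h2 h1
  have h3 := congrArg σ.Z h
  rw [map_zsmul, map_zsmul, hZ, smul_zero, smul_eq_zero] at h3
  have h4 : σ.Z r = 0 := h3.resolve_left hn
  rw [σ.im_apply, h4, zero_mul, Complex.zero_im]

/-- The values of the imaginary part on the radical are multiples of one number, if the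
imaginary part has a zero on the radical. -/
lemma exists_step {K : Type*} [AddCommGroup K] [Module.Finite ℤ K] [Module.Free ℤ K]
    (R : Submodule ℤ K) (hR : Module.finrank ℤ R = 2) (F : K →+ ℝ) {δ : K} (hδ : δ ∈ R)
    (hδ0 : δ ≠ 0) (hF : F δ = 0) : ∃ η : ℝ, ∀ x ∈ R, ∃ n : ℤ, F x = n * η := by
  obtain ⟨b₀, h0, b₁, h1, hspan, -⟩ := exists_basis_of_finrank_two R hR
  obtain ⟨d₀, d₁, hd⟩ := hspan δ hδ
  have hF' : (d₀ : ℝ) * F b₀ + d₁ * F b₁ = 0 := by
    rw [hd, map_add, map_zsmul, map_zsmul, zsmul_eq_mul, zsmul_eq_mul] at hF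
    exact hF
  by_cases hd₁ : d₁ = 0
  · have hd₀ : d₀ ≠ 0 := by
      rintro rfl
      apply hδ0
      rw [hd, hd₁]; simp
    have hb0 : F b₀ = 0 := by
      rw [hd₁] at hF'
      have : (d₀ : ℝ) ≠ 0 := by exact_mod_cast hd₀
      simpa [this] using hF'
    refine ⟨F b₁, ?_⟩
    intro x hx
    obtain ⟨m, n, rfl⟩ := hspan x hx
    refine ⟨n, ?_⟩
    rw [map_add, map_zsmul, map_zsmul, hb0, smul_zero, zero_add, zsmul_eq_mul]
  · have hd₁' : (d₁ : ℝ) ≠ 0 := by exact_mod_cast hd₁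
    refine ⟨F b₀ / d₁, ?_⟩
    intro x hx
    obtain ⟨m, n, rfl⟩ := hspan x hx
    refine ⟨m * d₁ - n * d₀, ?_⟩
    rw [map_add, map_zsmul, map_zsmul, zsmul_eq_mul, zsmul_eq_mul]
    have h2 : F b₁ = -(d₀ * F b₀) / d₁ := by
      field_simp
      linarith
    rw [h2]
    push_cast
    field_simp
    ring

/-- Discreteness of the imaginary part on stable objects of the heart. -/
lemma StabCond.exists_gap (σ : StabCond C) (hK : IsK3 C) (hB : IsPSD (eulerForm hK))
    (hR : Module.finrank ℤ (radical (eulerForm hK)) = 2) {t : ℝ} {δ : K0 C}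
    (hδ : δ ∈ radical (eulerForm hK)) (hδ0 : δ ≠ 0) (h1 : σ.im t δ = 0) :
    ∃ ε : ℝ, 0 < ε ∧ ∀ φ X, σ.Stable φ X → 0 < σ.im t (cls X) → ε ≤ σ.im t (cls X) := by
  obtain ⟨F, hF⟩ := hB.finite_mod_radical 2
  obtain ⟨η, hη⟩ := exists_step _ hR (σ.im t) hδ hδ0 h1
  set W : Set ℝ := ⋃ f ∈ F, {v : ℝ | v ∈ Set.Ioc (0 : ℝ) 1 ∧ ∃ n : ℤ, v = σ.im t f + n * η}
    with hW
  have hWfin : W.Finite := F.finite_toSet.biUnion (fun f _ => finite_Ioc_progression _ _)
  have hmem : ∀ φ X, σ.Stable φ X → 0 < σ.im t (cls X) → σ.im t (cls X) ≤ 1 →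
      σ.im t (cls X) ∈ W := by
    intro φ X hX hpos hle
    have hX' : SimpleIn (σ.sl.Heart (φ - 1)) X :=
      StabCond.Stable.simple (by simpa using hX)
    obtain ⟨f, hfF, hf⟩ := hF (cls X) (by
      rw [eulerForm_cls]; exact hX'.eulerChar_self_le hK)
    obtain ⟨n, hn⟩ := hη _ hf
    rw [hW, Set.mem_iUnion₂]
    refine ⟨f, hfF, ⟨hpos, hle⟩, n, ?_⟩
    rw [map_sub] at hn
    linarith
  by_cases hne : W.Nonempty
  · obtain ⟨ε, hε, hmin⟩ := Set.exists_min_image W id hWfin hne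
    rw [hW, Set.mem_iUnion₂] at hε
    obtain ⟨f, -, ⟨hε1, hε2⟩, -⟩ := hε
    refine ⟨ε, hε1, ?_⟩
    intro φ X hX hpos
    by_cases hle : σ.im t (cls X) ≤ 1
    · exact hmin _ (hmem φ X hX hpos hle)
    · push Not at hle
      exact hε2.trans hle.le
  · refine ⟨1, one_pos, ?_⟩
    intro φ X hX hpos
    by_contra hle
    push Not at hle
    exact hne ⟨_, hmem φ X hX hpos hle.le⟩

/-- Lower bound of the imaginary part on torsion free objects. -/
lemma StabCond.gap_tf (σ : StabCond C) {t ε : ℝ} (hε : 0 < ε)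
    (hgap : ∀ φ X, σ.Stable φ X → 0 < σ.im t (cls X) → ε ≤ σ.im t (cls X)) {X : C}
    (hX : σ.TF t X) : ε ≤ σ.im t (cls X) := by
  have hsemi : ∀ φ ∈ Set.Ioo t (t + 1), ∀ A, σ.sl.P φ A → IsZero A ∨ ε ≤ σ.im t (cls A) := by
    intro φ hφ A hA
    have hg := σ.gen_stable hA
    clear hA
    induction hg with
    | zero h => exact Or.inl h
    | @of A h => exact Or.inr (hgap φ A h (σ.im_pos_of_P h.1 h.2.1 hφ.1 hφ.2))
    | @ext X Y Z f g h hT _ _ ih1 ih2 =>
      rw [cls_mk hT, map_add]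
      rcases ih1 with h1 | h1 <;> rcases ih2 with h2 | h2
      · exact Or.inl (Triangle.isZero₂_of_isZero₁₃ _ hT h1 h2)
      · right
        rw [cls_of_isZero h1, map_zero, zero_add]; exact h2
      · right
        rw [cls_of_isZero h2, map_zero, add_zero]; exact h1
      · right; linarith
  obtain ⟨l, hl, hI⟩ := hX.in
  cases hl with
  | zero h => exact absurd h hX.2.1
  | @step Y' Y A φ l hX' hφ hA hA0 f g k hT =>
    rw [cls_mk hT, map_add]
    have h1 := σ.im_nonneg_of_HN (t := t) hX' (fun ψ hψ => by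
      have := hI ψ (by simp [hψ])
      exact ⟨this.1, this.2.le⟩)
    have h3 := (hsemi φ (hI φ (by simp)) A hA).resolve_left hA0
    linarith

/-- Classes of objects of `P(φ)` are nonnegative combinations of classes of stable objects. -/
lemma StabCond.cls_mem_closure (σ : StabCond C) {φ : ℝ} {X : C} (hX : σ.sl.P φ X) :
    cls X ∈ AddSubmonoid.closure {v : K0 C | ∃ T, σ.Stable φ T ∧ cls T = v} := by
  have hg := σ.gen_stable hX
  clear hX
  induction hg with
  | zero h => rw [cls_of_isZero h]; exact AddSubmonoid.zero_mem _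
  | @of A h => exact AddSubmonoid.subset_closure ⟨A, h, rfl⟩
  | ext hT _ _ h1 h2 => rw [cls_mk hT]; exact AddSubmonoid.add_mem _ h1 h2

/-- A nonnegative combination of classes of objects of `P(φ)` is the class of an object. -/
lemma StabCond.exists_obj_of_mem (σ : StabCond C) {φ : ℝ} {x : K0 C}
    (hx : x ∈ AddSubmonoid.closure {v : K0 C | ∃ T, σ.Stable φ T ∧ cls T = v}) :
    ∃ U, σ.sl.P φ U ∧ cls U = x := by
  induction hx using AddSubmonoid.closure_induction with
  | mem v hv =>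
    obtain ⟨T, hT, rfl⟩ := hv
    exact ⟨T, hT.1, rfl⟩
  | zero => exact ⟨0, σ.sl.zero_mem φ, cls_of_isZero (isZero_zero C)⟩
  | add a b _ _ ha hb =>
    obtain ⟨U, hU, rfl⟩ := ha
    obtain ⟨V, hV, rfl⟩ := hb
    exact ⟨U ⊞ V, σ.sl.biprod_mem φ hU hV, cls_biprod U V⟩

lemma comb_mem_closure {K : Type*} [AddCommGroup K] {R : Set K} (c : K →₀ ℕ)
    (hc : ∀ v ∈ c.support, v ∈ R) : comb c ∈ AddSubmonoid.closure R := by
  rw [comb_apply]
  refine AddSubmonoid.sum_mem _ ?_
  intro v hv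
  exact AddSubmonoid.nsmul_mem _ (AddSubmonoid.subset_closure (hc v hv)) _

end Linear

end Pool.Stab
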