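import Mathlib
import Pool.Agent.Work.MP_841263_st.Radical2

/-!
# Nonemptiness in all radical directions
-/

open CategoryTheory CategoryTheory.Limits CategoryTheory.Pretriangulated
open scoped ZeroObject TensorProduct

set_option backward.isDefEq.respectTransparency false
set_option backward.defeqAttrib.useBackward true
set_option linter.unusedSectionVars false

namespace Pool.Stab

universe v u

variable {C : Type u} [Category.{v} C] [Preadditive C] [HasZeroObject C] [HasShift C ℤ]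
  [∀ n : ℤ, (shiftFunctor C n).Additive] [Pretriangulated C]

variable [Linear ℂ C] [∀ n : ℤ, (shiftFunctor C n).Linear ℂ]
variable [Module.Finite ℤ (K0 C)] [Module.Free ℤ (K0 C)] [IsTriangulated C]

/-- classes of stable objects of phase `φ` -/
def StabCond.RT (σ : StabCond C) (φ : ℝ) : Set (K0 C) := {v : K0 C | ∃ T, σ.Stable φ T ∧ cls T = v}

lemma StabCond.offDiag (σ : StabCond C) (hK : IsK3 C) (t : ℝ) :
    OffDiag (eulerForm hK) (σ.RT (t + 1)) := by
  rintro _ ⟨X, hX, rfl⟩ _ ⟨Y, hY, rfl⟩ hne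
  rw [eulerForm_cls, hX.simple.eulerChar_le hK hY.simple hne]
  have : (0 : ℤ) ≤ (Module.finrank ℂ (X ⟶ Y⟦(1 : ℤ)⟧) : ℤ) := by positivity
  linarith

lemma StabCond.re_nonpos (σ : StabCond C) {t : ℝ} {x : K0 C}
    (hx : x ∈ AddSubmonoid.closure (σ.RT (t + 1))) : σ.re t x ≤ 0 := by
  obtain ⟨U, hU, rfl⟩ := σ.exists_obj_of_mem hx
  by_cases h0 : IsZero U
  · rw [cls_of_isZero h0, map_zero]
  · exact (σ.re_neg_of_P hU h0).le

lemma StabCond.comb_zero (σ : StabCond C) (hK : IsK3 C) (hB : IsPSD (eulerForm hK))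
    (hR : Module.finrank ℤ (radical (eulerForm hK)) = 2) (hind : Indecomposable C) {t : ℝ}
    {δ : K0 C} (hδ : δ ∈ radical (eulerForm hK)) (hδ0 : δ ≠ 0) (h1 : σ.im t δ = 0)
    (h2 : σ.re t δ < 0)
    (hN : ∀ X, σ.sl.P (t + 1) X → ¬ IsZero X → ∀ k : ℕ, 0 < k → cls X ≠ k • δ)
    {x : K0 C} (hx : x ∈ AddSubmonoid.closure (σ.RT (t + 1)))
    (hxr : x ∈ radical (eulerForm hK)) : x = 0 := by
  by_contra hx0
  obtain ⟨U, hU, rfl⟩ := σ.exists_obj_of_mem hx
  have hU0 : ¬ IsZero U := fun h => hx0 (cls_of_isZero h)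
  obtain ⟨n, m, hn, hnm⟩ := σ.commensurable hK hB hR hind hδ hxr hδ0 h1 (σ.im_of_P hU)
  have hre := σ.re_neg_of_P hU hU0
  have h3 : (n : ℝ) * σ.re t (cls U) = m * σ.re t δ := by
    have := congrArg (σ.re t) hnm
    simpa [map_zsmul, zsmul_eq_mul] using this
  -- positive naturals with the same relation
  obtain ⟨a, b, ha, hb, hab⟩ : ∃ a b : ℕ, 0 < a ∧ 0 < b ∧ a • cls U = b • δ := by
    have hcast : ∀ (p : ℤ) (y : K0 C), 0 ≤ p → p.toNat • y = p • y := by
      intro p y hp
      rw [← natCast_zsmul, Int.toNat_of_nonneg hp]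
    rcases lt_or_gt_of_ne hn with hn' | hn'
    · have hn'' : (n : ℝ) < 0 := by exact_mod_cast hn'
      have hm : (m : ℝ) < 0 := by
        by_contra hcon
        push Not at hcon
        have h4 : 0 < (n : ℝ) * σ.re t (cls U) := mul_pos_of_neg_of_neg hn'' hre
        have h5 : (m : ℝ) * σ.re t δ ≤ 0 := mul_nonpos_of_nonneg_of_nonpos hcon h2.le
        linarith
      have hm' : m < 0 := by exact_mod_cast hm
      refine ⟨(-n).toNat, (-m).toNat, by omega, by omega, ?_⟩
      rw [hcast _ _ (by omega), hcast _ _ (by omega), neg_smul, neg_smul, hnm]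
    · have hn'' : (0 : ℝ) < n := by exact_mod_cast hn'
      have hm : (0 : ℝ) < m := by
        by_contra hcon
        push Not at hcon
        have h4 : (n : ℝ) * σ.re t (cls U) < 0 := mul_neg_of_pos_of_neg hn'' hre
        have h5 : 0 ≤ (m : ℝ) * σ.re t δ := mul_nonneg_of_nonpos_of_nonpos hcon h2.le
        linarith
      have hm' : 0 < m := by exact_mod_cast hm
      refine ⟨n.toNat, m.toNat, by omega, by omega, ?_⟩
      rw [hcast _ _ (by omega), hcast _ _ (by omega), hnm]
  have hmem : b • δ ∈ AddSubmonoid.closure (σ.RT (t + 1)) := by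
    rw [← hab]
    exact AddSubmonoid.nsmul_mem _ hx a
  obtain ⟨V, hV, hVc⟩ := σ.exists_obj_of_mem hmem
  refine hN V hV ?_ b hb hVc
  intro h0
  rw [cls_of_isZero h0] at hVc
  have h4 := congrArg (σ.re t) hVc
  rw [map_zero, map_nsmul, nsmul_eq_mul] at h4
  have hb' : (0 : ℝ) < b := by exact_mod_cast hb
  have := mul_neg_of_pos_of_neg hb' h2
  linarith

/-- Positive definiteness on the span of the classes of objects of `P(t+1)`. -/
lemma StabCond.pd (σ : StabCond C) (hK : IsK3 C) (hB : IsPSD (eulerForm hK))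
    (hR : Module.finrank ℤ (radical (eulerForm hK)) = 2) (hind : Indecomposable C) {t : ℝ}
    {δ : K0 C} (hδ : δ ∈ radical (eulerForm hK)) (hδ0 : δ ≠ 0) (h1 : σ.im t δ = 0)
    (h2 : σ.re t δ < 0)
    (hN : ∀ X, σ.sl.P (t + 1) X → ¬ IsZero X → ∀ k : ℕ, 0 < k → cls X ≠ k • δ)
    {y : K0 C} (hy : y ∈ AddSubgroup.closure (σ.RT (t + 1)))
    (h0 : eulerForm hK y y = 0) : y = 0 := by
  obtain ⟨c, d, hc, hd, hcd, rfl⟩ := exists_comb hy
  obtain ⟨hcr, hdr⟩ := comb_mem_radical (σ.offDiag hK t) hB hc hd hcd h0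
  have hz : ∀ c : K0 C →₀ ℕ, (∀ v ∈ c.support, v ∈ σ.RT (t + 1)) →
      comb c ∈ radical (eulerForm hK) → comb c = 0 := by
    intro c hc hcr
    exact σ.comb_zero hK hB hR hind hδ hδ0 h1 h2 hN (comb_mem_closure c hc) hcr
  rw [hz c hc hcr, hz d hd hdr, sub_zero]

/-- Atomic torsion free objects are iterated extensions of simple objects of the heart. -/
lemma StabCond.atomic_gen (σ : StabCond C) (hK : IsK3 C) (hB : IsPSD (eulerForm hK))
    (hR : Module.finrank ℤ (radical (eulerForm hK)) = 2) (hind : Indecomposable C) {t : ℝ}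
    {δ : K0 C} (hδ : δ ∈ radical (eulerForm hK)) (hδ0 : δ ≠ 0) (h1 : σ.im t δ = 0)
    (h2 : σ.re t δ < 0)
    (hN : ∀ X, σ.sl.P (t + 1) X → ¬ IsZero X → ∀ k : ℕ, 0 < k → cls X ≠ k • δ)
    {X : C} (hX : σ.Atomic t X) : Gen (SimpleIn (σ.sl.Heart t)) X := by
  obtain ⟨F, hF⟩ := hB.finite_mod_radical 2
  set Np : AddSubmonoid (K0 C) := AddSubmonoid.closure (σ.RT (t + 1)) with hNp
  set Yset : K0 C → Set (K0 C) := fun s => {y | y ∈ Np ∧ eulerForm hK (s - y) (s - y) ≤ 2}
    with hYset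
  have hNpN : ∀ y ∈ Np, y ∈ AddSubgroup.closure (σ.RT (t + 1)) := by
    intro y hy
    have : Np ≤ (AddSubgroup.closure (σ.RT (t + 1))).toAddSubmonoid :=
      AddSubmonoid.closure_le.2 AddSubgroup.subset_closure
    exact this hy
  have hfin : ∀ s, (Yset s).Finite := by
    intro s
    have hch : ∀ x : K0 C, ∃ f : K0 C, eulerForm hK x x ≤ 2 →
        f ∈ F ∧ x - f ∈ radical (eulerForm hK) := by
      intro x
      by_cases h : eulerForm hK x x ≤ 2
      · obtain ⟨f, hf, hf'⟩ := hF x h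
        exact ⟨f, fun _ => ⟨hf, hf'⟩⟩
      · exact ⟨0, fun h' => absurd h' h⟩
    choose r hr using hch
    refine Set.Finite.of_finite_image (f := fun y => r (s - y)) ?_ ?_
    · refine F.finite_toSet.subset ?_
      rintro _ ⟨y, hy, rfl⟩
      exact (hr _ hy.2).1
    · intro y hy y' hy' heq
      have heq' : r (s - y) = r (s - y') := heq
      have h3 := (hr _ hy.2).2
      have h4 := (hr _ hy'.2).2
      rw [heq'] at h3
      have h5 : y' - y ∈ radical (eulerForm hK) := by
        have := Submodule.sub_mem _ h3 h4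
        have e : s - y - r (s - y') - (s - y' - r (s - y')) = y' - y := by abel
        rwa [e] at this
      have h6 : y' - y = 0 := by
        refine σ.pd hK hB hR hind hδ hδ0 h1 h2 hN
          (AddSubgroup.sub_mem _ (hNpN _ hy'.1) (hNpN _ hy.1)) (h5 _)
      exact (sub_eq_zero.1 h6).symm
  have key : ∀ (n : ℕ) (X : C), σ.Atomic t X → (Yset (cls X)).ncard ≤ n →
      Gen (SimpleIn (σ.sl.Heart t)) X := by
    intro n
    induction n with
    | zero =>
      intro X hX hcard
      exfalso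
      have h3 : Yset (cls X) = ∅ := by
        rwa [Nat.le_zero, Set.ncard_eq_zero (hfin _)] at hcard
      have h4 : (0 : K0 C) ∈ Yset (cls X) := by
        refine ⟨AddSubmonoid.zero_mem _, ?_⟩
        rw [sub_zero, eulerForm_cls]
        exact hX.eulerChar_self_le hK
      rw [h3] at h4
      exact h4
    | succ n ih =>
      intro X hX hcard
      by_cases hs : SimpleIn (σ.sl.Heart t) X
      · exact Gen.of hs
      have hex : ∃ (Y Z : C) (f : Y ⟶ X) (g : X ⟶ Z) (h : Z ⟶ Y⟦(1 : ℤ)⟧),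
          Triangle.mk f g h ∈ distTriang C ∧ σ.sl.Heart t Y ∧ σ.sl.Heart t Z ∧
            ¬ IsZero Y ∧ ¬ IsZero Z := by
        by_contra hcon
        apply hs
        refine ⟨hX.1.1, hX.1.2.1, ?_⟩
        intro Y Z f g h hT hY hZ
        by_contra h'
        rw [not_or] at h'
        exact hcon ⟨Y, Z, f, g, h, hT, hY, hZ, h'.1, h'.2⟩
      obtain ⟨Y, Z, f, g, h, hT, hY, hZ, hY0, hZ0⟩ := hex
      have hZP := (hX.2 _ _ _ _ _ hT hY hZ).resolve_left hY0
      have hYat := hX.sub hT hY hZ hY0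
      have hzc : cls Z ∈ Np := σ.cls_mem_closure hZP
      have hcls : cls Y = cls X - cls Z := by rw [cls_mk hT]; abel
      have hlt : (Yset (cls Y)).ncard < (Yset (cls X)).ncard := by
        have himg : (fun y => y + cls Z) '' Yset (cls Y) ⊆ Yset (cls X) \ {0} := by
          rintro _ ⟨y, hy, rfl⟩
          refine ⟨⟨AddSubmonoid.add_mem _ hy.1 hzc, ?_⟩, ?_⟩
          · have e : cls X - (y + cls Z) = cls Y - y := by rw [hcls]; abel
            show eulerForm hK (cls X - (y + cls Z)) (cls X - (y + cls Z)) ≤ 2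
            rw [e]
            exact hy.2
          · intro h0
            have h0' : y + cls Z = 0 := h0
            have h3 := congrArg (σ.re t) h0'
            rw [map_add, map_zero] at h3
            have h4 := σ.re_nonpos hy.1
            have h5 := σ.re_neg_of_P hZP hZ0
            linarith
        have h0mem : (0 : K0 C) ∈ Yset (cls X) := by
          refine ⟨AddSubmonoid.zero_mem _, ?_⟩
          rw [sub_zero, eulerForm_cls]
          exact hX.eulerChar_self_le hK
        calc (Yset (cls Y)).ncard = ((fun y => y + cls Z) '' Yset (cls Y)).ncard :=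
              (Set.ncard_image_of_injective _ (add_left_injective _)).symm
          _ ≤ (Yset (cls X) \ {0}).ncard := Set.ncard_le_ncard himg ((hfin _).sdiff)
          _ < (Yset (cls X)).ncard := Set.ncard_sdiff_singleton_lt_of_mem h0mem (hfin _)
      refine Gen.ext hT (ih Y hYat (by omega)) ?_
      exact (σ.gen_stable hZP).mono (fun W hW => StabCond.Stable.simple hW)
  exact key _ X hX le_rfl

/-- Torsion free objects are iterated extensions of simple objects of the heart. -/
lemma StabCond.tf_gen (σ : StabCond C) (hK : IsK3 C) (hB : IsPSD (eulerForm hK))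
    (hR : Module.finrank ℤ (radical (eulerForm hK)) = 2) (hind : Indecomposable C) {t : ℝ}
    {δ : K0 C} (hδ : δ ∈ radical (eulerForm hK)) (hδ0 : δ ≠ 0) (h1 : σ.im t δ = 0)
    (h2 : σ.re t δ < 0)
    (hN : ∀ X, σ.sl.P (t + 1) X → ¬ IsZero X → ∀ k : ℕ, 0 < k → cls X ≠ k • δ)
    {X : C} (hX : σ.TF t X) : Gen (SimpleIn (σ.sl.Heart t)) X := by
  obtain ⟨ε, hε, hgap⟩ := σ.exists_gap hK hB hR hδ hδ0 h1
  have key : ∀ (n : ℕ) (X : C), σ.TF t X → σ.im t (cls X) < n * ε →
      Gen (SimpleIn (σ.sl.Heart t)) X := by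
    intro n
    induction n with
    | zero =>
      intro X hX hlt
      have := σ.gap_tf hε hgap hX
      simp only [CharP.cast_eq_zero, zero_mul] at hlt
      linarith
    | succ n ih =>
      intro X hX hlt
      by_cases hat : σ.Atomic t X
      · exact σ.atomic_gen hK hB hR hind hδ hδ0 h1 h2 hN hat
      have hex : ∃ (Y Z : C) (f : Y ⟶ X) (g : X ⟶ Z) (h : Z ⟶ Y⟦(1 : ℤ)⟧),
          Triangle.mk f g h ∈ distTriang C ∧ σ.sl.Heart t Y ∧ σ.sl.Heart t Z ∧
            ¬ IsZero Y ∧ ¬ σ.sl.P (t + 1) Z := by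
        by_contra hcon
        apply hat
        refine ⟨hX, ?_⟩
        intro Y Z f g h hT hY hZ
        by_contra h'
        rw [not_or] at h'
        exact hcon ⟨Y, Z, f, g, h, hT, hY, hZ, h'.1, h'.2⟩
      obtain ⟨Y, Z, f, g, h, hT, hY, hZ, hY0, hZP⟩ := hex
      obtain ⟨ZT, ZF, a, b, c, hTZ, hZT, hZF⟩ := hZ.exists_torsion
      have hZTH : σ.sl.Heart t ZT := Slicing.heart_of_P hZT (by linarith) le_rfl
      have hZFH : σ.sl.Heart t ZF := hZF.mono (fun φ hφ => ⟨hφ.1, hφ.2.le⟩)
      have hZF0 : ¬ IsZero ZF := by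
        intro h0
        have := iso_of_isZero₃ hTZ h0
        exact hZP (σ.sl.iso_mem _ (asIso a) hZT)
      obtain ⟨X', i, d, hT'⟩ := distinguished_cocone_triangle₁ (g ≫ b)
      obtain ⟨m, p, r, hmp, -⟩ := exists_octa_cocone hT hTZ hT'
      have hX'H : σ.sl.Heart t X' := Slicing.Heart.ext hmp hY hZTH
      have hX'0 : ¬ IsZero X' := by
        intro h0
        exact hY0 (isZero₁_of_mor₁ hmp (h0.eq_of_tgt _ _) (fun r => σ.hom_shift_zero hY hZTH r))
      have hX'TF := hX.sub hT' hX'H hZFH hX'0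
      have hZFTF := σ.tf_of_in hZF hZF0
      have h3 := σ.gap_tf hε hgap hX'TF
      have h4 := σ.gap_tf hε hgap hZFTF
      have h5 : σ.im t (cls X) = σ.im t (cls X') + σ.im t (cls ZF) := by rw [cls_mk hT', map_add]
      push_cast at hlt
      refine Gen.ext hT' (ih X' hX'TF ?_) (ih ZF hZFTF ?_) <;> linarith
  obtain ⟨n, hn⟩ := exists_nat_gt (σ.im t (cls X) / ε)
  exact key n X hX (by rwa [div_lt_iff₀ hε] at hn)

/-- **Nonemptiness.** Every nonzero element of the radical has a positive multiple which is the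
class of a semistable object, for every stability condition. -/
theorem StabCond.radical_semistable (σ : StabCond C) (hK : IsK3 C) (hB : IsPSD (eulerForm hK))
    (hR : Module.finrank ℤ (radical (eulerForm hK)) = 2) (hind : Indecomposable C)
    {δ : K0 C} (hδ : δ ∈ radical (eulerForm hK)) (hδ0 : δ ≠ 0) :
    ∃ k : ℕ, 0 < k ∧ ∃ (φ : ℝ) (X : C), σ.sl.P φ X ∧ ¬ IsZero X ∧ cls X = k • δ := by
  by_contra hcon
  push Not at hcon
  obtain ⟨lam, h1, h2⟩ := exists_im_zero σ δ
  have hZ := σ.Z_radical_ne_zero hK hB hR hind hδ hδ0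
  set t := lam - 1 with ht
  have h2' : σ.re t δ < 0 := by
    rw [h2]
    have := norm_pos_iff.2 hZ
    linarith
  have hN : ∀ X, σ.sl.P (t + 1) X → ¬ IsZero X → ∀ k : ℕ, 0 < k → cls X ≠ k • δ :=
    fun X hX h0 k hk => hcon k hk _ X hX h0
  refine not_finite_length hK hB hind (rankTwoLe_of_finrank hK hR) t (S := σ.sl) ?_
  intro E hE
  obtain ⟨X, Y, f, g, h, hT, hX, hY⟩ := hE.exists_torsion
  refine Gen.ext hT ((σ.gen_stable hX).mono (fun W hW => StabCond.Stable.simple hW)) ?_
  by_cases h0 : IsZero Y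
  · exact Gen.zero h0
  · exact σ.tf_gen hK hB hR hind hδ hδ0 h1 h2' hN (σ.tf_of_in hY h0)

end Pool.Stab
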