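import Mathlib
import Pool.Agent.Work.MP_841263_st.Radical3
import Pool.Agent.Work.MP_841263_st.Mass2

/-!
# The topology of the space of stability conditions, orientation
-/

open CategoryTheory CategoryTheory.Limits CategoryTheory.Pretriangulated
open scoped ZeroObject TensorProduct

set_option backward.isDefEq.respectTransparency false
set_option backward.defeqAttrib.useBackward true
set_option linter.unusedSectionVars false

namespace Pool.Stab

universe v u

variable {C : Type u} [Category.{v} C] [Preadditive C] [HasZeroObject C] [HasShift C ℤ]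
  [∀ n : ℤ, (shiftFunctor C n).Additive] [Pretriangulated C]

/-- The maximal phase `φ⁺(X)`. -/
noncomputable def StabCond.phiPlus (σ : StabCond C) (X : C) : ℝ :=
  sInf {t : ℝ | ∃ l, HN σ.sl.P X l ∧ ∀ φ ∈ l, φ ≤ t}

/-- The minimal phase `φ⁻(X)`. -/
noncomputable def StabCond.phiMinus (σ : StabCond C) (X : C) : ℝ :=
  sSup {t : ℝ | ∃ l, HN σ.sl.P X l ∧ ∀ φ ∈ l, t ≤ φ}

/-- Bridgeland's generalized metric on slicings. -/
noncomputable def StabCond.phaseDist (σ τ : StabCond C) : ENNReal :=
  ⨆ (X : C) (_ : ¬ IsZero X), max (ENNReal.ofReal |σ.phiPlus X - τ.phiPlus X|)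
    (ENNReal.ofReal |σ.phiMinus X - τ.phiMinus X|)

lemma StabCond.phaseDist_self (σ : StabCond C) : σ.phaseDist σ = 0 := by
  simp [StabCond.phaseDist]

lemma StabCond.phaseDist_comm (σ τ : StabCond C) : σ.phaseDist τ = τ.phaseDist σ := by
  simp only [StabCond.phaseDist]
  congr 1
  funext X
  congr 1
  funext _
  rw [abs_sub_comm, abs_sub_comm (σ.phiMinus X)]

lemma ofReal_abs_triangle (a b c : ℝ) :
    ENNReal.ofReal |a - c| ≤ ENNReal.ofReal |a - b| + ENNReal.ofReal |b - c| := by
  rw [← ENNReal.ofReal_add (abs_nonneg _) (abs_nonneg _)]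
  exact ENNReal.ofReal_le_ofReal (abs_sub_le a b c)

lemma StabCond.phaseDist_triangle (σ τ ρ : StabCond C) :
    σ.phaseDist ρ ≤ σ.phaseDist τ + τ.phaseDist ρ := by
  refine iSup₂_le ?_
  intro X hX
  have h1 : max (ENNReal.ofReal |σ.phiPlus X - τ.phiPlus X|)
      (ENNReal.ofReal |σ.phiMinus X - τ.phiMinus X|) ≤ σ.phaseDist τ :=
    le_iSup₂ (f := fun (X : C) (_ : ¬ IsZero X) =>
      max (ENNReal.ofReal |σ.phiPlus X - τ.phiPlus X|)
        (ENNReal.ofReal |σ.phiMinus X - τ.phiMinus X|)) X hX
  have h2 : max (ENNReal.ofReal |τ.phiPlus X - ρ.phiPlus X|)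
      (ENNReal.ofReal |τ.phiMinus X - ρ.phiMinus X|) ≤ τ.phaseDist ρ :=
    le_iSup₂ (f := fun (X : C) (_ : ¬ IsZero X) =>
      max (ENNReal.ofReal |τ.phiPlus X - ρ.phiPlus X|)
        (ENNReal.ofReal |τ.phiMinus X - ρ.phiMinus X|)) X hX
  refine max_le ?_ ?_
  · refine (ofReal_abs_triangle _ (τ.phiPlus X) _).trans ?_
    exact add_le_add ((le_max_left _ _).trans h1) ((le_max_left _ _).trans h2)
  · refine (ofReal_abs_triangle _ (τ.phiMinus X) _).trans ?_
    exact add_le_add ((le_max_right _ _).trans h1) ((le_max_right _ _).trans h2)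

/-- The generalized (pseudo)metric space of stability conditions, comparing phases only. -/
@[reducible] noncomputable def phasePseudo : PseudoEMetricSpace (StabCond C) where
  edist := StabCond.phaseDist
  edist_self := StabCond.phaseDist_self
  edist_comm := StabCond.phaseDist_comm
  edist_triangle := StabCond.phaseDist_triangle

/-- Bridgeland's topology on the set of stability conditions: it is induced by the generalized
metric on the slicings together with the central charges. -/
noncomputable instance stabTopology : TopologicalSpace (StabCond C) :=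
  (phasePseudo (C := C)).toUniformSpace.toTopologicalSpace ⊓
    TopologicalSpace.induced (fun (σ : StabCond C) (x : K0 C) => σ.Z x) inferInstance

lemma continuous_Z (x : K0 C) : Continuous (fun σ : StabCond C => σ.Z x) := by
  have h1 : @Continuous _ _ (TopologicalSpace.induced (fun (σ : StabCond C) (x : K0 C) => σ.Z x)
      inferInstance) _ (fun (σ : StabCond C) (x : K0 C) => σ.Z x) := continuous_induced_dom
  have h2 : Continuous (fun (σ : StabCond C) (x : K0 C) => σ.Z x) :=
    continuous_le_dom inf_le_right h1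
  exact (continuous_apply x).comp h2

/-- The orientation of the central charge on a pair of classes. -/
noncomputable def StabCond.orient (σ : StabCond C) (r₁ r₂ : K0 C) : ℝ :=
  ((starRingEnd ℂ) (σ.Z r₁) * σ.Z r₂).im

lemma continuous_orient (r₁ r₂ : K0 C) :
    Continuous (fun σ : StabCond C => σ.orient r₁ r₂) := by
  unfold StabCond.orient
  exact Complex.continuous_im.comp
    ((Complex.continuous_conj.comp (continuous_Z r₁)).mul (continuous_Z r₂))

lemma orient_zero_dep {z w : ℂ} (h : ((starRingEnd ℂ) z * w).im = 0) (hz : z ≠ 0) :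
    ∃ c : ℝ, w = c * z := by
  refine ⟨((starRingEnd ℂ) z * w).re / Complex.normSq z, ?_⟩
  have h1 : (starRingEnd ℂ) z * w = (((starRingEnd ℂ) z * w).re : ℂ) := by
    apply Complex.ext
    · simp
    · rw [h, Complex.ofReal_im]
  have h2 : (Complex.normSq z : ℂ) ≠ 0 := by
    exact_mod_cast (Complex.normSq_pos.2 hz).ne'
  have h3 : (Complex.normSq z : ℂ) * w = (((starRingEnd ℂ) z * w).re : ℂ) * z := by
    rw [← h1, Complex.normSq_eq_conj_mul_self]
    ring
  rw [Complex.ofReal_div, div_mul_eq_mul_div, eq_div_iff h2, ← h3, mul_comm]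

section Linear

variable [Linear ℂ C] [∀ n : ℤ, (shiftFunctor C n).Linear ℂ]
variable [Module.Finite ℤ (K0 C)] [Module.Free ℤ (K0 C)] [IsTriangulated C]

/-- The orientation is nonzero on independent radical classes. -/
theorem StabCond.orient_ne_zero (σ : StabCond C) (hK : IsK3 C) (hB : IsPSD (eulerForm hK))
    (hR : Module.finrank ℤ (radical (eulerForm hK)) = 2) (hind : Indecomposable C)
    {r₁ r₂ : K0 C} (h1 : r₁ ∈ radical (eulerForm hK)) (h2 : r₂ ∈ radical (eulerForm hK))
    (h12 : ∀ n m : ℤ, n • r₁ = m • r₂ → n = 0 ∧ m = 0) : σ.orient r₁ r₂ ≠ 0 := by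
  intro h0
  have hr0 : r₁ ≠ 0 := by
    rintro rfl
    have := (h12 1 0 (by simp)).1
    exact one_ne_zero this
  have hZ := σ.Z_radical_ne_zero hK hB hR hind h1 hr0
  obtain ⟨c, hc⟩ := orient_zero_dep h0 hZ
  obtain ⟨lam, him, -⟩ := exists_im_zero σ r₁
  have him2 : σ.im (lam - 1) r₂ = 0 := by
    rw [σ.im_apply, hc, mul_assoc, Complex.im_ofReal_mul, ← σ.im_apply, him, mul_zero]
  obtain ⟨n, m, hn, hnm⟩ := σ.commensurable hK hB hR hind h1 h2 hr0 him him2
  exact hn (h12 m n hnm.symm).2

end Linear

end Pool.Stab
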